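import Mathlib
import Pool.Agent.N792.Shp
import Pool.Agent.N792.Mtm
import Pool.Agent.N792.TH4

/-!
The equidistribution of the primes compared with their model (from `N792/Shp`, without the prime powers).
-/

set_option autoImplicit false

namespace Pool.Agent.N791.E2

open Finset Filter Topology
open Pool.Agent Pool.Agent.N792
open ArithmeticFunction (moebius vonMangoldt)

/-- `log k` on the primes -/
noncomputable def pl (k : ℕ) : ℝ := if k.Prime then vonMangoldt k else 0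

lemma pl_nonneg (k : ℕ) : 0 ≤ pl k := by
  unfold pl
  split_ifs
  · exact ArithmeticFunction.vonMangoldt_nonneg
  · exact le_rfl

lemma pl_le (k : ℕ) : pl k ≤ vonMangoldt k := by
  unfold pl
  split_ifs
  · exact le_rfl
  · exact ArithmeticFunction.vonMangoldt_nonneg

lemma sum_pp_le (N : ℕ) (hN : 1 ≤ N) : ∑ k ∈ Icc 1 N, (vonMangoldt k - pl k) ≤ 2 * √(N : ℝ) * Real.log N := by
  have h1 : ∑ k ∈ Icc 1 N, (vonMangoldt k - pl k) = Chebyshev.psi N - Chebyshev.theta N := by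
    rw [Chebyshev.psi_sub_theta_eq_sum_not_prime, sum_filter, Nat.floor_natCast]
    have : Ioc 0 N = Icc 1 N := by
      ext k
      rw [mem_Ioc, mem_Icc]
      omega
    rw [this]
    apply sum_congr rfl
    intro k _
    unfold pl
    split_ifs with h
    · ring
    · ring
  rw [h1]
  exact Chebyshev.psi_sub_theta_le (by exact_mod_cast hN)

lemma rg01 (z k : ℕ) : 0 ≤ rg z k ∧ rg z k ≤ 1 := by
  unfold rg
  split_ifs <;> norm_num

lemma sharp_add (t w : ℕ) (f g : ℕ → ℝ) (k : ℕ) :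
    sharp t w (fun k => f k + g k) k = sharp t w f k + sharp t w g k := by
  unfold sharp N792.dens
  rw [sum_add_distrib]
  ring

/-- **the primes in residue classes compared with the model** -/
lemma sharp_pr (η : ℝ) (hη : 0 < η) (A E : ℕ) : ∃ x0 : ℕ, ∀ x : ℕ, x0 ≤ x → ∀ z Jw t i u q r : ℕ,
    (x : ℝ) ^ η ≤ z → z ≤ x → Real.log x ^ (A + 1) ≤ ((2 ^ 2 ^ Jw : ℕ) : ℝ) → ((2 ^ 2 ^ Jw : ℕ) : ℝ) ≤ Real.log x ^ E →
    Real.log x ^ (A + 6) ≤ (2 : ℝ) ^ t → (2 : ℝ) ^ t ≤ Real.log x ^ E → x ≤ 2 ^ i → 2 ^ (i + 1) ≤ x ^ 3 →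
    1 ≤ q → (q : ℝ) ≤ Real.log x ^ A → 2 ^ i ≤ u → u ≤ 2 ^ (i + 1) →
    |∑ k ∈ (Ioc (2 ^ i) u).filter (fun k => k ≡ r [MOD q]),
      (rg z k * pl k - sharp t (2 ^ 2 ^ Jw) (fun k => rg z k * pl k) k)| ≤ (2 : ℝ) ^ i / Real.log x ^ A := by
  classical
  obtain ⟨x1, hx1⟩ := sharp_H η hη (A + 1) E
  have e1 := Shp.inv_V1_le E
  have e2 := ev_log_pow 36 (A + E + 3) (δ := 1 / 2) (by norm_num)
  have e3 : ∀ᶠ x : ℕ in atTop, (2 : ℝ) ≤ Real.log x := Shp.log_ge _
  have e4 := ev_log_pow 1 E (δ := 1) (by norm_num)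
  obtain ⟨x2, hx2⟩ := eventually_atTop.1 (((e1.and e2).and e3).and e4)
  refine ⟨max x1 (max x2 3), fun x hx z Jw t i u q r hz hzx hw1 hw2 ht1 ht2 hxi hi3 hq hqA hu1 hu2 => ?_⟩
  simp only [max_le_iff] at hx
  obtain ⟨hxx1, hxx2, hx3⟩ := hx
  obtain ⟨⟨⟨f1, f2⟩, f3⟩, f4⟩ := hx2 x hxx2
  rw [one_mul, Real.rpow_one] at f4
  have hxpos : (0 : ℝ) < x := by
    have : 0 < x := by omega
    exact_mod_cast this
  have hx1' : (1 : ℝ) ≤ x := by
    have : 1 ≤ x := by omega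
    exact_mod_cast this
  set L := Real.log x with hL
  have hL0 : 0 < L := by linarith
  have hL1 : 1 ≤ L := by linarith
  set w := 2 ^ 2 ^ Jw with hw
  have hV1 : 0 < V1 w := Mtm.V1_pos' w
  have hmain := hx1 x hxx1 z 1 Jw t i u q r hz hzx hw1 hw2 (by
    have : A + 1 + 5 = A + 6 := by ring
    rw [this]; exact ht1) ht2 hxi hi3 hq (hqA.trans (pow_le_pow_right₀ hL1 (by omega))) hu1 hu2
    (fun k => vonMangoldt k) (by right; right; rfl)
  set PQ : ℕ → ℝ := fun k => rg z k * (vonMangoldt k - pl k) with hPQ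
  have hPQ0 : ∀ k, 0 ≤ PQ k := fun k => mul_nonneg (rg01 z k).1 (by linarith [pl_le k])
  have hPQ1 : ∀ k, PQ k ≤ vonMangoldt k - pl k := fun k => by
    have := pl_le k
    exact mul_le_of_le_one_left (by linarith) (rg01 z k).2
  have hfun : (fun k => rg z k * vonMangoldt k) = fun k => rg z k * pl k + PQ k := by
    funext k
    simp only [hPQ]
    ring
  -- the sum of the prime powers
  have h2i : (0 : ℝ) < 2 ^ i := by positivity
  set N := 2 ^ (i + 1) with hN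
  have hN1 : 1 ≤ N := Nat.one_le_two_pow
  have hNlog : Real.log N ≤ 3 * L := by
    have h1 : Real.log N ≤ Real.log ((x : ℝ) ^ 3) := by
      apply Real.log_le_log (by exact_mod_cast hN1)
      exact_mod_cast hi3
    rw [Real.log_pow] at h1
    push_cast at h1
    exact h1
  set Q := 2 * √(N : ℝ) * (3 * L) with hQ
  have hQ0 : 0 ≤ Q := by positivity
  have hSPQ : ∑ k ∈ Icc 1 N, PQ k ≤ Q :=
    (sum_le_sum fun k _ => hPQ1 k).trans ((sum_pp_le N hN1).trans (mul_le_mul_of_nonneg_left hNlog (by positivity)))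
  have hti : 2 ^ t ≤ 2 ^ i := by
    have h1 : (2 : ℝ) ^ t ≤ x := ht2.trans f4
    have h2 : 2 ^ t ≤ x := by exact_mod_cast h1
    exact h2.trans hxi
  -- pointwise bound of the model
  have hdens : ∀ k ∈ Ioc (2 ^ i) u, |sharp t w PQ k| ≤ Q * L * 2 ^ t / 2 ^ i := by
    intro k hk
    rw [mem_Ioc] at hk
    have hk' : 2 ^ t + 1 ≤ k := by omega
    obtain ⟨j, hj, a1, a2, a3, a4, a5, a6, a7, a8⟩ := Mtm.cell_facts hk'
    have hij : j = i := by
      have h1 : 2 ^ j < 2 ^ (i + 1) := by omega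
      have h2 : 2 ^ i < 2 ^ (j + 1) := by omega
      have h3 := (Nat.pow_lt_pow_iff_right (by norm_num : 1 < 2)).1 h1
      have h4 := (Nat.pow_lt_pow_iff_right (by norm_num : 1 < 2)).1 h2
      omega
    rw [hij] at a1 a4 a7 a8
    have hcs : ((cs t k : ℕ) : ℝ) = 2 ^ i / 2 ^ t := by
      rw [a4, eq_div_iff (by positivity)]
      push_cast
      rw [← pow_add]
      congr 1
      omega
    have hcell : ∑ k' ∈ Ioc (cl t k) (cl t k + cs t k), PQ k' ≤ Q := by
      refine le_trans ?_ hSPQ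
      apply sum_le_sum_of_subset_of_nonneg
      · intro k' hk'
        rw [mem_Ioc] at hk'
        rw [mem_Icc]
        omega
      · intro k' _ _
        exact hPQ0 k'
    have hcell0 : 0 ≤ ∑ k' ∈ Ioc (cl t k) (cl t k + cs t k), PQ k' := sum_nonneg fun k' _ => hPQ0 k'
    have hnn : 0 ≤ N792.dens t PQ k := by
      unfold N792.dens
      positivity
    unfold sharp
    rw [abs_div, abs_mul, abs_of_pos hV1, abs_of_nonneg (rg01 w k).1, abs_of_nonneg hnn]
    have hd : N792.dens t PQ k ≤ Q * 2 ^ t / 2 ^ i := by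
      unfold N792.dens
      rw [hcs]
      calc (∑ k' ∈ Ioc (cl t k) (cl t k + cs t k), PQ k') / (2 ^ i / 2 ^ t) ≤ Q / (2 ^ i / 2 ^ t) :=
            div_le_div_of_nonneg_right hcell (by positivity)
        _ = _ := by field_simp
    calc N792.dens t PQ k * rg w k / V1 w = (N792.dens t PQ k * rg w k) * (1 / V1 w) := by ring
      _ ≤ ((Q * 2 ^ t / 2 ^ i) * 1) * L := by
          apply mul_le_mul _ (f1 w hw2) (by positivity) (by positivity)
          exact mul_le_mul hd (rg01 w k).2 (rg01 w k).1 (by positivity)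
      _ = _ := by ring
  set I := (Ioc (2 ^ i) u).filter (fun k => k ≡ r [MOD q]) with hI
  have hIu : I ⊆ Ioc (2 ^ i) u := filter_subset _ _
  have hIN : I ⊆ Icc 1 N := by
    intro k hk
    have := mem_Ioc.1 (hIu hk)
    rw [mem_Icc]
    omega
  have hcard : (#I : ℝ) ≤ 2 ^ i := by
    have h1 : #I ≤ u - 2 ^ i := by
      have := card_le_card hIu
      rwa [Nat.card_Ioc] at this
    have h2 : u - 2 ^ i ≤ 2 ^ i := by
      have : N = 2 ^ i * 2 := by rw [hN, pow_succ]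
      omega
    exact_mod_cast h1.trans h2
  have hsplit : ∑ k ∈ I, (rg z k * pl k - sharp t w (fun k => rg z k * pl k) k) =
      ∑ k ∈ I, (rg z k * vonMangoldt k - sharp t w (fun k => rg z k * vonMangoldt k) k) -
      ∑ k ∈ I, PQ k + ∑ k ∈ I, sharp t w PQ k := by
    rw [← sum_sub_distrib, ← sum_add_distrib]
    apply sum_congr rfl
    intro k _
    rw [hfun, sharp_add]
    have : rg z k * vonMangoldt k = rg z k * pl k + PQ k := by
      simp only [hPQ]; ring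
    rw [this]
    ring
  have h1 : |∑ k ∈ I, PQ k| ≤ Q := by
    rw [abs_of_nonneg (sum_nonneg fun k _ => hPQ0 k)]
    exact (sum_le_sum_of_subset_of_nonneg hIN fun k _ _ => hPQ0 k).trans hSPQ
  have h2 : |∑ k ∈ I, sharp t w PQ k| ≤ Q * L * L ^ E := by
    refine (abs_sum_le_sum_abs _ _).trans ((sum_le_sum fun k hk => hdens k (hIu hk)).trans ?_)
    rw [sum_const, nsmul_eq_mul]
    calc (#I : ℝ) * (Q * L * 2 ^ t / 2 ^ i) ≤ 2 ^ i * (Q * L * 2 ^ t / 2 ^ i) :=
          mul_le_mul_of_nonneg_right hcard (by positivity)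
      _ = Q * L * 2 ^ t := by field_simp
      _ ≤ _ := mul_le_mul_of_nonneg_left ht2 (by positivity)
  have hsq : √(N : ℝ) ≤ 2 * (2 ^ i / (x : ℝ) ^ (1 / 2 : ℝ)) := by
    have hx12 : (0 : ℝ) < (x : ℝ) ^ (1 / 2 : ℝ) := by positivity
    rw [← mul_div_assoc, le_div_iff₀ hx12]
    have h3 : (x : ℝ) ≤ 2 ^ i := by exact_mod_cast hxi
    have h4 : (x : ℝ) ^ (1 / 2 : ℝ) ≤ √(N : ℝ) := by
      rw [← Real.sqrt_eq_rpow]
      apply Real.sqrt_le_sqrt
      have : (N : ℝ) = 2 ^ i * 2 := by rw [hN]; push_cast; ring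
      rw [this]
      linarith
    calc √(N : ℝ) * (x : ℝ) ^ (1 / 2 : ℝ) ≤ √(N : ℝ) * √(N : ℝ) := mul_le_mul_of_nonneg_left h4 (by positivity)
      _ = N := Real.mul_self_sqrt (by positivity)
      _ = 2 * 2 ^ i := by rw [hN]; push_cast; ring
  have hsmall : Q + Q * L * L ^ E ≤ 2 ^ i / L ^ A * (1 / 2) := by
    have h3 : Q + Q * L * L ^ E ≤ (12 * (2 ^ i / (x : ℝ) ^ (1 / 2 : ℝ)) * L) * (2 * L ^ (E + 1)) := by
      have e5 : Q ≤ 12 * (2 ^ i / (x : ℝ) ^ (1 / 2 : ℝ)) * L := by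
        calc Q = 2 * √(N : ℝ) * (3 * L) := hQ
          _ ≤ 2 * (2 * (2 ^ i / (x : ℝ) ^ (1 / 2 : ℝ))) * (3 * L) := by gcongr
          _ = _ := by ring
      have e6 : 1 ≤ L ^ (E + 1) := one_le_pow₀ hL1
      calc Q + Q * L * L ^ E = Q * (1 + L ^ (E + 1)) := by ring
        _ ≤ (12 * (2 ^ i / (x : ℝ) ^ (1 / 2 : ℝ)) * L) * (2 * L ^ (E + 1)) := by
            apply mul_le_mul e5 (by linarith) (by positivity) (by positivity)
    refine h3.trans ?_
    have hx12 : (0 : ℝ) < (x : ℝ) ^ (1 / 2 : ℝ) := by positivity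
    rw [div_mul_eq_mul_div, le_div_iff₀ (by positivity)]
    calc 12 * (2 ^ i / (x : ℝ) ^ (1 / 2 : ℝ)) * L * (2 * L ^ (E + 1)) * L ^ A =
        2 ^ i * (24 * L ^ (A + E + 2)) / (x : ℝ) ^ (1 / 2 : ℝ) := by
          field_simp
          ring
      _ ≤ 2 ^ i * ((x : ℝ) ^ (1 / 2 : ℝ) * (1 / 2)) / (x : ℝ) ^ (1 / 2 : ℝ) := by
          apply div_le_div_of_nonneg_right _ hx12.le
          apply mul_le_mul_of_nonneg_left _ h2i.le
          have e7 : 36 * L ^ (A + E + 3) = (36 * L) * L ^ (A + E + 2) := by ring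
          have e8 : 0 < L ^ (A + E + 2) := by positivity
          have e9 : 48 * L ^ (A + E + 2) ≤ (36 * L) * L ^ (A + E + 2) :=
            mul_le_mul_of_nonneg_right (by linarith) e8.le
          linarith
      _ = _ := by field_simp
  have hm2 : (2 : ℝ) ^ i / L ^ (A + 1) ≤ 2 ^ i / L ^ A * (1 / 2) := by
    rw [pow_succ, ← div_div, div_eq_mul_one_div (2 ^ i / L ^ A) L]
    apply mul_le_mul_of_nonneg_left _ (by positivity)
    exact one_div_le_one_div_of_le (by norm_num) f3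
  rw [hsplit]
  have e5 := abs_add_le (∑ k ∈ I, (rg z k * vonMangoldt k - sharp t w (fun k => rg z k * vonMangoldt k) k) -
      ∑ k ∈ I, PQ k) (∑ k ∈ I, sharp t w PQ k)
  have e6 := abs_sub (∑ k ∈ I, (rg z k * vonMangoldt k - sharp t w (fun k => rg z k * vonMangoldt k) k))
      (∑ k ∈ I, PQ k)
  linarith

end Pool.Agent.N791.E2
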