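import Mathlib
import Pool.Agent.N792.FinA
import Pool.Agent.N792.Rav
import Pool.Agent.N792.TH4
import Pool.Agent.N791.E2.SWPr

/-!
The number of values which are products of two primes: small arguments, comparison with the weighted sums.
-/

set_option autoImplicit false

namespace Pool.Agent.N791.E2

open Finset Filter Topology
open Pool.Agent Pool.Agent.N792
open ArithmeticFunction (moebius vonMangoldt)

/-- the number of the `m`, `u < m ≤ v`, with `a m² + b m + c = p q` for primes `p`, `q`, `U < p ≤ y` -/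
noncomputable def Ec (a b : ℤ) (U y c u v : ℕ) : ℕ := by
  classical
  exact #((Ioc u v).filter (fun m : ℕ => ∃ p q : ℕ, p.Prime ∧ q.Prime ∧ U < p ∧ p ≤ y ∧ fv a b c m = ((p * q : ℕ) : ℤ)))

lemma Ec_add (a b : ℤ) (U y c u v w : ℕ) (h1 : u ≤ v) (h2 : v ≤ w) :
    Ec a b U y c u w = Ec a b U y c u v + Ec a b U y c v w := by
  classical
  unfold Ec
  rw [← card_union_of_disjoint]
  · congr 1
    ext m
    simp only [mem_filter, mem_Ioc, mem_union]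
    constructor
    · rintro ⟨⟨h3, h4⟩, h5⟩
      rcases le_or_gt m v with h6 | h6
      · exact Or.inl ⟨⟨h3, h6⟩, h5⟩
      · exact Or.inr ⟨⟨h6, h4⟩, h5⟩
    · rintro (⟨⟨h3, h4⟩, h5⟩ | ⟨⟨h3, h4⟩, h5⟩)
      · exact ⟨⟨h3, h4.trans h2⟩, h5⟩
      · exact ⟨⟨lt_of_le_of_lt h1 h3, h4⟩, h5⟩
  · rw [disjoint_left]
    intro m hm1 hm2
    rw [mem_filter, mem_Ioc] at hm1 hm2
    omega

lemma fv_low {a : ℤ} (ha : 0 < a) {b : ℤ} {c m : ℕ} (hm : 2 * b.natAbs ≤ m) : (m : ℤ) ^ 2 ≤ 2 * fv a b c m := by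
  unfold fv
  have h0 : 2 * |b| ≤ (m : ℤ) := by rw [Int.abs_eq_natAbs]; exact_mod_cast hm
  have h1 : -|b| ≤ b := neg_abs_le b
  have hm0 : (0 : ℤ) ≤ m := Int.natCast_nonneg m
  have h2 : -|b| * m ≤ b * m := mul_le_mul_of_nonneg_right h1 hm0
  have h3 : (m : ℤ) ^ 2 ≤ a * (m : ℤ) ^ 2 := by
    have : 1 ≤ a := ha
    nlinarith [sq_nonneg (m : ℤ)]
  have hc0 : (0 : ℤ) ≤ c := Int.natCast_nonneg c
  nlinarith

open Classical in
/-- **small arguments** -/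
lemma small_E2 (a : ℤ) (ha : 0 < a) (b : ℤ) : ∃ C6 : ℝ, 0 < C6 ∧ ∃ x0 : ℕ, ∀ x : ℕ, x0 ≤ x → ∀ x1 C U y : ℕ, x1 ≤ x →
    (x : ℝ) ^ (2 / 3 : ℝ) ≤ C → (x : ℝ) ^ (1 / 2 : ℝ) ≤ U → y ≤ x →
    ∑ c ∈ Icc 1 C, (Ec a b U y c 0 x1 : ℝ) ≤ C6 * (C * ((x1 : ℝ) + x / Real.log x ^ 2) / Real.log x) := by
  obtain ⟨C0, hC0, H⟩ := rough_count
  obtain ⟨x0, hx0⟩ := H (1 / 10) (by norm_num) le_rfl
  have e1 : ∀ᶠ x : ℕ in atTop, (200 : ℝ) ≤ Real.log x := Shp.log_ge 200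
  have e2 := ev_log_pow 4 3 (δ := 1 / 10) (by norm_num)
  have e3 : ∀ᶠ x : ℕ in atTop, (2 * b.natAbs + 10) ^ 2 ≤ x := eventually_ge_atTop _
  obtain ⟨x2, hx2⟩ := eventually_atTop.1 ((e1.and e2).and e3)
  refine ⟨20 * C0 + 1, by positivity, max x0 (max x2 3), fun x hx x1 C U y hx1 hxC hU hyx => ?_⟩
  simp only [max_le_iff] at hx
  obtain ⟨hxx0, hxx2, hx3⟩ := hx
  obtain ⟨⟨f1, f2⟩, f3⟩ := hx2 x hxx2
  have hxpos : (0 : ℝ) < x := by
    have : 0 < x := by omega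
    exact_mod_cast this
  have hx1' : (1 : ℝ) ≤ x := by
    have : 1 ≤ x := by omega
    exact_mod_cast this
  set L := Real.log x with hL
  have hL0 : 0 < L := by linarith
  have hC0' : (0 : ℝ) < C := lt_of_lt_of_le (Real.rpow_pos_of_pos hxpos _) hxC
  set z : ℕ := ⌈(x : ℝ) ^ (1 / 10 : ℝ)⌉₊ with hz
  have hz1 : (x : ℝ) ^ (1 / 10 : ℝ) ≤ z := Nat.le_ceil _
  have hX1 : 1 ≤ (x : ℝ) ^ (1 / 10 : ℝ) := Real.one_le_rpow (by linarith) (by norm_num)
  have hz2 : (z : ℝ) ≤ 2 * (x : ℝ) ^ (1 / 10 : ℝ) := by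
    have := Nat.ceil_lt_add_one (a := (x : ℝ) ^ (1 / 10 : ℝ)) (by positivity)
    linarith
  set M0 : ℕ := ⌈(x : ℝ) ^ (7 / 10 : ℝ)⌉₊ with hM0
  have hM1 : (x : ℝ) ^ (7 / 10 : ℝ) ≤ M0 := Nat.le_ceil _
  have hM2 : (M0 : ℝ) ≤ 2 * (x : ℝ) ^ (7 / 10 : ℝ) := by
    have := Nat.ceil_lt_add_one (a := (x : ℝ) ^ (7 / 10 : ℝ)) (by positivity)
    have : 1 ≤ (x : ℝ) ^ (7 / 10 : ℝ) := Real.one_le_rpow (by linarith) (by norm_num)
    linarith
  have hMb : 2 * b.natAbs ≤ M0 := by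
    have h1 : ((2 * b.natAbs : ℕ) : ℝ) ≤ M0 := by
      refine le_trans ?_ hM1
      have h2 : (((2 * b.natAbs + 10) ^ 2 : ℕ) : ℝ) ≤ x := by exact_mod_cast f3
      have h3 : (x : ℝ) ^ (1 / 2 : ℝ) ≤ (x : ℝ) ^ (7 / 10 : ℝ) := Real.rpow_le_rpow_of_exponent_le hx1' (by norm_num)
      refine le_trans ?_ h3
      rw [← Real.sqrt_eq_rpow]
      apply Real.le_sqrt_of_sq_le
      refine le_trans ?_ h2
      push_cast
      have : (0 : ℝ) ≤ (b.natAbs : ℝ) := Nat.cast_nonneg _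
      nlinarith
    exact_mod_cast h1
  have hlogs : 4 * L ^ 3 ≤ (x : ℝ) ^ (1 / 10 : ℝ) := f2
  have h4z : (4 : ℝ) < (x : ℝ) ^ (1 / 10 : ℝ) := by
    refine lt_of_lt_of_le ?_ hlogs
    have : (1 : ℝ) < L ^ 3 := one_lt_pow₀ (by linarith) (by norm_num)
    linarith
  -- the values are rough
  have hrough : ∀ m : ℕ, M0 < m → ∀ c : ℕ, (∃ p q : ℕ, p.Prime ∧ q.Prime ∧ U < p ∧ p ≤ y ∧ fv a b c m = ((p * q : ℕ) : ℤ)) →
      Rough z (fv a b c m).toNat ∧ (0 : ℤ) ≤ fv a b c m := by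
    rintro m hm c ⟨p, q, hp, hq, hUp, hpy, he⟩
    have h1 := fv_low (c := c) ha (b := b) (m := m) (by omega)
    rw [he] at h1 ⊢
    rw [Int.toNat_natCast]
    refine ⟨⟨Nat.mul_ne_zero hp.ne_zero hq.ne_zero, fun l hl hlpq => ?_⟩, by positivity⟩
    have hx510 : 2 * (x : ℝ) ^ (1 / 10 : ℝ) ≤ (x : ℝ) ^ (1 / 5 : ℝ) := by
      have : (x : ℝ) ^ (1 / 5 : ℝ) = (x : ℝ) ^ (1 / 10 : ℝ) * (x : ℝ) ^ (1 / 10 : ℝ) := by
        rw [← Real.rpow_add hxpos]; norm_num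
      rw [this]
      exact mul_le_mul_of_nonneg_right (by linarith) (by positivity)
    rcases (Nat.Prime.dvd_mul hl).1 hlpq with h2 | h2
    · rw [(Nat.prime_dvd_prime_iff_eq hl hp).1 h2]
      have h3 : (z : ℝ) < p := by
        calc (z : ℝ) ≤ 2 * (x : ℝ) ^ (1 / 10 : ℝ) := hz2
          _ ≤ (x : ℝ) ^ (1 / 5 : ℝ) := hx510
          _ ≤ (x : ℝ) ^ (1 / 2 : ℝ) := Real.rpow_le_rpow_of_exponent_le hx1' (by norm_num)
          _ ≤ U := hU
          _ < p := by exact_mod_cast hUp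
      exact_mod_cast h3
    · rw [(Nat.prime_dvd_prime_iff_eq hl hq).1 h2]
      have h3 : (z : ℝ) < q := by
        have h4 : ((m : ℝ)) ^ 2 ≤ 2 * (p * q) := by exact_mod_cast h1
        have h5 : (x : ℝ) ^ (7 / 5 : ℝ) ≤ (m : ℝ) ^ 2 := by
          calc (x : ℝ) ^ (7 / 5 : ℝ) = ((x : ℝ) ^ (7 / 10 : ℝ)) ^ 2 := by
                rw [← Real.rpow_natCast, ← Real.rpow_mul hxpos.le]; norm_num
            _ ≤ (m : ℝ) ^ 2 := by
                apply pow_le_pow_left₀ (by positivity)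
                refine hM1.trans ?_
                exact_mod_cast hm.le
        have h6 : (p : ℝ) ≤ x := by exact_mod_cast hpy.trans hyx
        have h7 : (x : ℝ) * ((x : ℝ) ^ (2 / 5 : ℝ)) ≤ x * (2 * q) := by
          calc (x : ℝ) * ((x : ℝ) ^ (2 / 5 : ℝ)) = (x : ℝ) ^ (7 / 5 : ℝ) := by
                nth_rw 1 [← Real.rpow_one (x : ℝ)]
                rw [← Real.rpow_add hxpos]; norm_num
            _ ≤ 2 * (p * q) := h5.trans h4
            _ = p * (2 * q) := by ring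
            _ ≤ x * (2 * q) := mul_le_mul_of_nonneg_right h6 (by positivity)
        have h8 : (x : ℝ) ^ (2 / 5 : ℝ) ≤ 2 * q := le_of_mul_le_mul_left h7 hxpos
        have h9 : 4 * (x : ℝ) ^ (1 / 10 : ℝ) < (x : ℝ) ^ (2 / 5 : ℝ) := by
          have h10 : (x : ℝ) ^ (1 / 5 : ℝ) = (x : ℝ) ^ (1 / 10 : ℝ) * (x : ℝ) ^ (1 / 10 : ℝ) := by
            rw [← Real.rpow_add hxpos]; norm_num
          calc 4 * (x : ℝ) ^ (1 / 10 : ℝ) < (x : ℝ) ^ (1 / 10 : ℝ) * (x : ℝ) ^ (1 / 10 : ℝ) :=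
                mul_lt_mul_of_pos_right h4z (by positivity)
            _ = (x : ℝ) ^ (1 / 5 : ℝ) := h10.symm
            _ ≤ (x : ℝ) ^ (2 / 5 : ℝ) := Real.rpow_le_rpow_of_exponent_le hx1' (by norm_num)
        linarith
      exact_mod_cast h3
  -- the count for one `m`
  have hone : ∀ m ∈ Ioc 0 x1, M0 < m → ∑ c ∈ Icc 1 C, (if (∃ p q : ℕ, p.Prime ∧ q.Prime ∧ U < p ∧ p ≤ y ∧
      fv a b (c : ℕ) m = ((p * q : ℕ) : ℤ)) then (1 : ℝ) else 0) ≤ 20 * C0 * C / L := by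
    intro m _ hm
    rw [← sum_filter, sum_const, nsmul_eq_mul, mul_one]
    set F := (fv a b 0 m).toNat with hF
    have hF0 : 0 ≤ fv a b 0 m := by
      have h1 := fv_low (c := 0) ha (b := b) (m := m) (by omega)
      have h2 : (0 : ℤ) ≤ (m : ℤ) ^ 2 := sq_nonneg _
      have h3 : fv a b ((0 : ℕ) : ℤ) m = fv a b 0 m := by norm_num
      rw [h3] at h1
      linarith
    have hfv : ∀ c : ℕ, (fv a b c m).toNat = F + c := by
      intro c
      have : fv a b c m = fv a b 0 m + c := by unfold fv; ring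
      rw [this, hF]
      omega
    have hinj : #((Icc 1 C).filter (fun c : ℕ => ∃ p q : ℕ, p.Prime ∧ q.Prime ∧ U < p ∧ p ≤ y ∧ fv a b (c : ℕ) m = ((p * q : ℕ) : ℤ))) ≤
        #((Ioc F (F + C)).filter (fun k => Rough z k)) := by
      apply card_le_card_of_injOn (fun c : ℕ => F + c)
      · intro c hc
        simp only [coe_filter, Set.mem_setOf_eq, mem_Icc, mem_Ioc] at hc ⊢
        refine ⟨by omega, ?_⟩
        rw [← hfv]
        exact (hrough m hm c hc.2).1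
      · intro c _ c' _ h
        simp only at h
        omega
    have h1 := hx0 x hxx0 z hz1 F (F + C) (by omega)
    have h2 : (x : ℝ) ^ (1 / 15 : ℝ) ≤ C :=
      (Real.rpow_le_rpow_of_exponent_le hx1' (by norm_num)).trans hxC
    calc (#((Icc 1 C).filter (fun c : ℕ => ∃ p q : ℕ, p.Prime ∧ q.Prime ∧ U < p ∧ p ≤ y ∧ fv a b (c : ℕ) m = ((p * q : ℕ) : ℤ))) : ℝ) ≤
        #((Ioc F (F + C)).filter (fun k => Rough z k)) := by exact_mod_cast hinj
      _ ≤ C0 * ((((F + C : ℕ) : ℝ) - F) + (x : ℝ) ^ (1 / 15 : ℝ)) / (1 / 10 * L) := h1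
      _ ≤ C0 * (C + C) / (1 / 10 * L) := by
          apply div_le_div_of_nonneg_right _ (by positivity)
          apply mul_le_mul_of_nonneg_left _ hC0.le
          push_cast
          linarith
      _ = _ := by
          field_simp
          ring
  have hall : ∑ c ∈ Icc 1 C, (Ec a b U y c 0 x1 : ℝ) = ∑ m ∈ Ioc 0 x1, ∑ c ∈ Icc 1 C, (if (∃ p q : ℕ, p.Prime ∧ q.Prime ∧ U < p ∧ p ≤ y ∧
      fv a b (c : ℕ) m = ((p * q : ℕ) : ℤ)) then (1 : ℝ) else 0) := by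
    rw [sum_comm]
    apply sum_congr rfl
    intro c _
    unfold Ec
    rw [card_filter]
    push_cast
    rfl
  rw [hall]
  have hbound : ∀ m ∈ Ioc 0 x1, ∑ c ∈ Icc 1 C, (if (∃ p q : ℕ, p.Prime ∧ q.Prime ∧ U < p ∧ p ≤ y ∧
      fv a b (c : ℕ) m = ((p * q : ℕ) : ℤ)) then (1 : ℝ) else 0) ≤ 20 * C0 * C / L + (if m ≤ M0 then (C : ℝ) else 0) := by
    intro m hm
    by_cases h : M0 < m
    · rw [if_neg (by omega), add_zero]
      exact hone m hm h
    · rw [if_pos (by omega)]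
      have : ∑ c ∈ Icc 1 C, (if (∃ p q : ℕ, p.Prime ∧ q.Prime ∧ U < p ∧ p ≤ y ∧
          fv a b (c : ℕ) m = ((p * q : ℕ) : ℤ)) then (1 : ℝ) else 0) ≤ ∑ _c ∈ Icc 1 C, (1 : ℝ) := by
        apply sum_le_sum
        intro c _
        split_ifs <;> norm_num
      rw [sum_const, Nat.card_Icc, Nat.add_sub_cancel, nsmul_eq_mul, mul_one] at this
      have : 0 ≤ 20 * C0 * C / L := by positivity
      linarith
  refine (sum_le_sum hbound).trans ?_
  rw [sum_add_distrib, sum_const, Nat.card_Ioc, nsmul_eq_mul, ← sum_filter, sum_const, nsmul_eq_mul, Nat.sub_zero]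
  have hc1 : (#((Ioc 0 x1).filter (fun m => m ≤ M0)) : ℝ) ≤ M0 := by
    have : #((Ioc 0 x1).filter (fun m => m ≤ M0)) ≤ M0 := by
      calc #((Ioc 0 x1).filter (fun m => m ≤ M0)) ≤ #(Icc 1 M0) := by
            apply card_le_card
            intro m hm
            rw [mem_filter, mem_Ioc] at hm
            rw [mem_Icc]
            omega
        _ = M0 := by rw [Nat.card_Icc, Nat.add_sub_cancel]
    exact_mod_cast this
  have hM3 : (M0 : ℝ) * L ^ 3 ≤ x := by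
    calc (M0 : ℝ) * L ^ 3 ≤ (2 * (x : ℝ) ^ (7 / 10 : ℝ)) * L ^ 3 := mul_le_mul_of_nonneg_right hM2 (by positivity)
      _ = (x : ℝ) ^ (7 / 10 : ℝ) * (2 * L ^ 3) := by ring
      _ ≤ (x : ℝ) ^ (7 / 10 : ℝ) * (x : ℝ) ^ (1 / 10 : ℝ) := by
          apply mul_le_mul_of_nonneg_left _ (by positivity)
          have : 0 < L ^ 3 := by positivity
          linarith
      _ = (x : ℝ) ^ (4 / 5 : ℝ) := by rw [← Real.rpow_add hxpos]; norm_num
      _ ≤ (x : ℝ) ^ (1 : ℝ) := Real.rpow_le_rpow_of_exponent_le hx1' (by norm_num)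
      _ = x := Real.rpow_one _
  calc (x1 : ℝ) * (20 * C0 * C / L) + #((Ioc 0 x1).filter (fun m => m ≤ M0)) * (C : ℝ) ≤
      (x1 : ℝ) * (20 * C0 * C / L) + (x / L ^ 3) * (C : ℝ) := by
        apply add_le_add_right
        apply mul_le_mul_of_nonneg_right _ hC0'.le
        refine hc1.trans ?_
        rw [le_div_iff₀ (by positivity)]
        exact hM3
    _ = (20 * C0) * (C * x1 / L) + 1 * (C * (x / L ^ 2) / L) := by
        field_simp
    _ ≤ (20 * C0 + 1) * (C * x1 / L) + (20 * C0 + 1) * (C * (x / L ^ 2) / L) := by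
        have h1 : (0 : ℝ) ≤ C * x1 / L := by positivity
        have h2 : (0 : ℝ) ≤ C * (x / L ^ 2) / L := by positivity
        apply add_le_add
        · exact mul_le_mul_of_nonneg_right (by linarith) h1
        · exact mul_le_mul_of_nonneg_right (by linarith) h2
    _ = _ := by ring

end Pool.Agent.N791.E2
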