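import Mathlib
import Pool.Agent.N791.E2.Small

/-!
Comparison of the number of products of two primes with the weighted sums.
-/

set_option autoImplicit false

namespace Pool.Agent.N791.E2

open Finset Filter Topology
open Pool.Agent Pool.Agent.N792
open ArithmeticFunction (moebius vonMangoldt)

/-- the weight of a prime divisor `j ≤ x` -/
noncomputable def wf (x j : ℕ) : ℝ := if j.Prime ∧ j ≤ x then Real.log x / (2 * Real.log x - Real.log j) else 0

lemma wf_prime (x j : ℕ) (h : wf x j ≠ 0) : j.Prime := by
  unfold wf at h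
  by_contra hcon
  exact h (if_neg (fun hh => hcon hh.1))

lemma wf_bd (x j : ℕ) (hx : 2 ≤ x) : 0 ≤ wf x j ∧ wf x j ≤ 1 := by
  unfold wf
  split_ifs with h
  · have hL : 0 < Real.log x := Real.log_pos (by exact_mod_cast (by omega : 1 < x))
    have h1 : Real.log j ≤ Real.log x := Real.log_le_log (by exact_mod_cast h.1.pos) (by exact_mod_cast h.2)
    have h2 : Real.log x ≤ 2 * Real.log x - Real.log j := by linarith
    exact ⟨by apply div_nonneg <;> linarith, by rw [div_le_one (by linarith)]; exact h2⟩
  · exact ⟨le_rfl, zero_le_one⟩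

open Classical in
/-- the comparison -/
lemma Lc_cmp {a b : ℤ} {x1 x c z U y : ℕ} {K : ℝ} (hx : 2 ≤ x) (hzU : z ≤ U) (hyx : y ≤ x)
    (hK : ∀ n ∈ Ioc x1 x, |Real.log (fv a b c n).toNat - 2 * Real.log x| ≤ K ∧ x * y < (fv a b c n).toNat) :
    |Lc a b x1 x c (fun N => rg z N * ∑ j ∈ N.divisors.filter (fun j => U < j ∧ j ≤ y), wf x j * pl (N / j)) -
      Real.log x * Ec a b U y c x1 x| ≤ K * Ec a b U y c x1 x := by
  have hE : (Ec a b U y c x1 x : ℝ) = ∑ n ∈ Ioc x1 x, (if (∃ p q : ℕ, p.Prime ∧ q.Prime ∧ U < p ∧ p ≤ y ∧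
      fv a b c n = ((p * q : ℕ) : ℤ)) then (1 : ℝ) else 0) := by
    unfold Ec
    rw [card_filter]
    push_cast
    rfl
  have hL : 0 < Real.log x := Real.log_pos (by exact_mod_cast (by omega : 1 < x))
  rw [hE, mul_sum, mul_sum]
  unfold Lc
  rw [← sum_sub_distrib]
  refine (abs_sum_le_sum_abs _ _).trans ?_
  apply sum_le_sum
  intro n hn
  obtain ⟨h1, h2⟩ := hK n hn
  obtain ⟨N, hN⟩ : ∃ N, N = (fv a b c n).toNat := ⟨_, rfl⟩
  rw [← hN] at h1 h2 ⊢
  split_ifs with hex
  · obtain ⟨p, q, hp, hq, hUp, hpy, he⟩ := hex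
    have hNpq : N = p * q := by rw [hN, he, Int.toNat_natCast]
    have hpx : p ≤ x := hpy.trans hyx
    have hqx : x < q := by
      by_contra hcon
      push Not at hcon
      have : p * q ≤ y * x := Nat.mul_le_mul hpy hcon
      rw [← hNpq, mul_comm] at this
      omega
    have hrg : rg z N = 1 := by
      unfold rg
      rw [if_pos]
      rw [hNpq]
      refine ⟨Nat.mul_ne_zero hp.ne_zero hq.ne_zero, fun l hl hlpq => ?_⟩
      rcases (Nat.Prime.dvd_mul hl).1 hlpq with h3 | h3
      · rw [(Nat.prime_dvd_prime_iff_eq hl hp).1 h3]; omega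
      · rw [(Nat.prime_dvd_prime_iff_eq hl hq).1 h3]; omega
    have hsum : ∑ j ∈ N.divisors.filter (fun j => U < j ∧ j ≤ y), wf x j * pl (N / j) = wf x p * Real.log q := by
      have hNp : N / p = q := by rw [hNpq]; exact Nat.mul_div_cancel_left _ hp.pos
      rw [sum_eq_single p]
      · rw [hNp]
        unfold pl
        rw [if_pos hq, ArithmeticFunction.vonMangoldt_apply_prime hq]
      · intro j hj hjp
        rw [mem_filter, Nat.mem_divisors] at hj
        by_cases hw : wf x j = 0
        · rw [hw, zero_mul]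
        · exfalso
          have hjpr := wf_prime x j hw
          have hjd := hj.1.1
          rw [hNpq] at hjd
          rcases (Nat.Prime.dvd_mul hjpr).1 hjd with h3 | h3
          · exact hjp ((Nat.prime_dvd_prime_iff_eq hjpr hp).1 h3)
          · have := (Nat.prime_dvd_prime_iff_eq hjpr hq).1 h3
            omega
      · intro hnot
        exfalso
        apply hnot
        rw [mem_filter, Nat.mem_divisors]
        refine ⟨⟨by rw [hNpq]; exact dvd_mul_right _ _, ?_⟩, hUp, hpy⟩
        rw [hNpq]
        exact Nat.mul_ne_zero hp.ne_zero hq.ne_zero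
    simp only
    rw [hrg, one_mul, hsum, mul_one, mul_one]
    have hlogN : Real.log N = Real.log p + Real.log q := by
      rw [hNpq]
      push_cast
      exact Real.log_mul (by exact_mod_cast hp.ne_zero) (by exact_mod_cast hq.ne_zero)
    have hlp : Real.log p ≤ Real.log x := Real.log_le_log (by exact_mod_cast hp.pos) (by exact_mod_cast hpx)
    have hden : 0 < 2 * Real.log x - Real.log p := by linarith
    have hwp : wf x p = Real.log x / (2 * Real.log x - Real.log p) := by
      unfold wf
      rw [if_pos ⟨hp, hpx⟩]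
    have hid : wf x p * Real.log q - Real.log x = wf x p * (Real.log N - 2 * Real.log x) := by
      have hne : 2 * Real.log x - Real.log p ≠ 0 := hden.ne'
      have hq2 : Real.log q = (2 * Real.log x - Real.log p) + (Real.log N - 2 * Real.log x) := by rw [hlogN]; ring
      rw [hwp, hq2, mul_add, div_mul_cancel₀ _ hne]
      ring
    rw [hid, abs_mul, abs_of_nonneg (wf_bd x p hx).1]
    calc wf x p * |Real.log N - 2 * Real.log x| ≤ 1 * K :=
          mul_le_mul (wf_bd x p hx).2 h1 (abs_nonneg _) (by norm_num)
      _ = K := one_mul _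
  · have hsum : ∑ j ∈ N.divisors.filter (fun j => U < j ∧ j ≤ y), wf x j * pl (N / j) = 0 := by
      apply sum_eq_zero
      intro j hj
      rw [mem_filter, Nat.mem_divisors] at hj
      by_cases hw : wf x j = 0
      · rw [hw, zero_mul]
      · have hjpr := wf_prime x j hw
        by_cases hq : (N / j).Prime
        · exfalso
          apply hex
          refine ⟨j, N / j, hjpr, hq, hj.2.1, hj.2.2, ?_⟩
          rw [Nat.mul_div_cancel' hj.1.1, hN]
          have : 0 < (fv a b c n).toNat := by omega
          omega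
        · unfold pl
          rw [if_neg hq, mul_zero]
    simp only
    rw [hsum]
    simp

end Pool.Agent.N791.E2
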