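import Mathlib
import Pool.Agent.H305R2.MertensM
import Pool.Agent.N791.E2.Cmp

/-!
Sums over the primes between two powers of `x`.
-/

set_option autoImplicit false

namespace Pool.Agent.N791.E2

open Finset Filter Topology

/-- the integral part of `x^α` -/
noncomputable def fl (α : ℝ) (x : ℕ) : ℕ := ⌊(x : ℝ) ^ α⌋₊

lemma fl_mono {α β : ℝ} (h : α ≤ β) {x : ℕ} (hx : 1 ≤ x) : fl α x ≤ fl β x := by
  unfold fl
  apply Nat.floor_le_floor
  exact Real.rpow_le_rpow_of_exponent_le (by exact_mod_cast hx) h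

lemma lt_fl {α : ℝ} {x p : ℕ} : fl α x < p ↔ (x : ℝ) ^ α < p := by
  unfold fl
  exact Nat.floor_lt (by positivity)

lemma le_fl {α : ℝ} {x p : ℕ} : p ≤ fl α x ↔ (p : ℝ) ≤ (x : ℝ) ^ α := by
  unfold fl
  exact Nat.le_floor_iff (by positivity)

lemma fl_tendsto {α : ℝ} (hα : 0 < α) : Tendsto (fl α) atTop atTop := by
  unfold fl
  exact tendsto_nat_floor_atTop.comp ((tendsto_rpow_atTop hα).comp tendsto_natCast_atTop_atTop)

lemma fl_log {α : ℝ} (hα : 0 < α) : Tendsto (fun x : ℕ => Real.log (fl α x) / Real.log x) atTop (𝓝 α) := by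
  have h1 : ∀ᶠ x : ℕ in atTop, (α * Real.log x - Real.log 2) / Real.log x ≤ Real.log (fl α x) / Real.log x := by
    have h2 := (tendsto_rpow_atTop hα).comp (tendsto_natCast_atTop_atTop (R := ℝ))
    filter_upwards [h2.eventually_ge_atTop 2, eventually_ge_atTop 2] with x hx hx2
    simp only [Function.comp] at hx
    have hL : 0 < Real.log x := Real.log_pos (by exact_mod_cast (by omega : 1 < x))
    apply div_le_div_of_nonneg_right _ hL.le
    have hxpos : (0 : ℝ) < x := by exact_mod_cast (by omega : 0 < x)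
    have h3 : (x : ℝ) ^ α / 2 ≤ fl α x := by
      have := Nat.sub_one_lt_floor ((x : ℝ) ^ α)
      unfold fl
      linarith
    rw [← Real.log_rpow hxpos, ← Real.log_div (by positivity) (by norm_num)]
    exact Real.log_le_log (by positivity) h3
  have h2 : ∀ᶠ x : ℕ in atTop, Real.log (fl α x) / Real.log x ≤ α := by
    filter_upwards [(fl_tendsto hα).eventually_ge_atTop 1, eventually_ge_atTop 2] with x hx hx2
    have hL : 0 < Real.log x := Real.log_pos (by exact_mod_cast (by omega : 1 < x))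
    have hxpos : (0 : ℝ) < x := by exact_mod_cast (by omega : 0 < x)
    rw [div_le_iff₀ hL, ← Real.log_rpow hxpos]
    apply Real.log_le_log (by exact_mod_cast (by omega : 0 < fl α x))
    exact Nat.floor_le (by positivity)
  have h3 : Tendsto (fun x : ℕ => (α * Real.log x - Real.log 2) / Real.log x) atTop (𝓝 α) := by
    have h4 : Tendsto (fun x : ℕ => Real.log (x : ℝ)) atTop atTop :=
      Real.tendsto_log_atTop.comp tendsto_natCast_atTop_atTop
    have h5 : Tendsto (fun x : ℕ => α - Real.log 2 / Real.log x) atTop (𝓝 (α - 0)) :=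
      tendsto_const_nhds.sub (h4.const_div_atTop _)
    rw [sub_zero] at h5
    refine h5.congr' ?_
    filter_upwards [eventually_ge_atTop 2] with x hx2
    have hL : 0 < Real.log x := Real.log_pos (by exact_mod_cast (by omega : 1 < x))
    rw [sub_div, mul_div_cancel_right₀ _ hL.ne']
  exact tendsto_of_tendsto_of_tendsto_of_le_of_le' h3 tendsto_const_nhds h1 h2

/-- the reciprocals of the primes between two powers of `x` -/
lemma recip (α β : ℝ) (hα : 0 < α) (hαβ : α ≤ β) :
    Tendsto (fun x : ℕ => ∑ p ∈ (Ioc (fl α x) (fl β x)).filter Nat.Prime, 1 / (p : ℝ)) atTop (𝓝 (Real.log (β / α))) := by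
  have hβ : 0 < β := lt_of_lt_of_le hα hαβ
  obtain ⟨M, hM⟩ := Pool.Agent.H305R2.mertens_inv_tendsto
  set S : ℕ → ℝ := fun N => ∑ p ∈ (Finset.Icc 1 N).filter Nat.Prime, (1 : ℝ) / p with hS
  have h1 := (hM.comp (fl_tendsto hβ)).sub (hM.comp (fl_tendsto hα))
  rw [sub_self] at h1
  have h2 : Tendsto (fun x : ℕ => Real.log (Real.log (fl β x)) - Real.log (Real.log (fl α x)))
      atTop (𝓝 (Real.log (β / α))) := by
    have h3 := (fl_log hβ).div (fl_log hα) hα.ne'
    have h4 := (Real.continuousAt_log (div_pos hβ hα).ne').tendsto.comp h3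
    refine h4.congr' ?_
    filter_upwards [(fl_tendsto hβ).eventually_ge_atTop 2, (fl_tendsto hα).eventually_ge_atTop 2,
      eventually_ge_atTop 2] with x h7 h8 hx2
    have hL : 0 < Real.log x := Real.log_pos (by exact_mod_cast (by omega : 1 < x))
    have h9 : 0 < Real.log (fl β x) := Real.log_pos (by exact_mod_cast (by omega : 1 < fl β x))
    have h10 : 0 < Real.log (fl α x) := Real.log_pos (by exact_mod_cast (by omega : 1 < fl α x))
    simp only [Function.comp, Pi.div_apply]
    rw [div_div_div_cancel_right₀ hL.ne', Real.log_div h9.ne' h10.ne']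
  have h5 := h1.add h2
  rw [zero_add] at h5
  refine h5.congr' ?_
  filter_upwards [eventually_ge_atTop 1] with x hx1
  have hle := fl_mono hαβ hx1
  have h6 : S (fl β x) = S (fl α x) + ∑ p ∈ (Ioc (fl α x) (fl β x)).filter Nat.Prime, 1 / (p : ℝ) := by
    simp only [hS]
    rw [← sum_union]
    · apply sum_congr _ (fun _ _ => rfl)
      ext p
      rw [mem_union, mem_filter, mem_filter, mem_filter, mem_Icc, mem_Icc, mem_Ioc]
      constructor
      · rintro ⟨⟨h7, h8⟩, h9⟩
        rcases le_or_gt p (fl α x) with h10 | h10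
        · exact Or.inl ⟨⟨h7, h10⟩, h9⟩
        · exact Or.inr ⟨⟨h10, h8⟩, h9⟩
      · rintro (⟨⟨h7, h8⟩, h9⟩ | ⟨⟨h7, h8⟩, h9⟩)
        · exact ⟨⟨h7, h8.trans hle⟩, h9⟩
        · exact ⟨⟨by omega, h8⟩, h9⟩
    · rw [disjoint_left]
      intro p hp1 hp2
      rw [mem_filter, mem_Icc] at hp1
      rw [mem_filter, mem_Ioc] at hp2
      omega
  simp only [Function.comp]
  simp only [hS] at h6
  linarith

/-- the antiderivative of `1 / (t (2 - t))` -/
noncomputable def Ph (t : ℝ) : ℝ := 1 / 2 * Real.log (t / (2 - t))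

lemma Ph_bounds {s t : ℝ} (hs : 0 < s) (hst : s ≤ t) (ht : t < 2) :
    Real.log (t / s) / (2 - s) ≤ Ph t - Ph s ∧ Ph t - Ph s ≤ Real.log (t / s) / (2 - t) := by
  have ht0 : 0 < t := lt_of_lt_of_le hs hst
  have hs2 : 0 < 2 - s := by linarith
  have ht2 : 0 < 2 - t := by linarith
  have hd : ∀ u ∈ Set.Icc s t, HasDerivAt (fun u : ℝ => 1 / 2 * (Real.log u - Real.log (2 - u))) (1 / (u * (2 - u))) u := by
    intro u hu
    have hu0 : 0 < u := lt_of_lt_of_le hs hu.1
    have hu2 : 0 < 2 - u := by linarith [hu.2]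
    have h1 := Real.hasDerivAt_log hu0.ne'
    have h2 : HasDerivAt (fun u : ℝ => Real.log (2 - u)) (-(1 / (2 - u))) u := by
      have h3 : HasDerivAt (fun u : ℝ => 2 - u) (-1) u := by
        simpa using (hasDerivAt_id u).const_sub 2
      have h4 := h3.log hu2.ne'
      convert h4 using 1
      ring
    have h5 : HasDerivAt (fun u : ℝ => 1 / 2 * (Real.log u - Real.log (2 - u))) (1 / 2 * (u⁻¹ - -(1 / (2 - u)))) u :=
      (h1.sub h2).const_mul (1 / 2)
    have h6 : 1 / (u * (2 - u)) = 1 / 2 * (u⁻¹ - -(1 / (2 - u))) := by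
      field_simp
      ring
    rw [h6]
    exact h5
  have hlog : ∀ u ∈ Set.Icc s t, HasDerivAt Real.log (1 / u) u := by
    intro u hu
    have hu0 : 0 < u := lt_of_lt_of_le hs hu.1
    have h1 := Real.hasDerivAt_log hu0.ne'
    rwa [one_div]
  have ePh : Ph t - Ph s = 1 / 2 * (Real.log t - Real.log (2 - t)) - 1 / 2 * (Real.log s - Real.log (2 - s)) := by
    unfold Ph
    rw [Real.log_div ht0.ne' ht2.ne', Real.log_div hs.ne' hs2.ne']
  have hD1 : ∀ u ∈ Set.Icc s t, HasDerivAt (fun u : ℝ => 1 / 2 * (Real.log u - Real.log (2 - u)) - Real.log u * (1 / (2 - s)))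
      (1 / (u * (2 - u)) - 1 / u * (1 / (2 - s))) u := fun u hu => (hd u hu).sub ((hlog u hu).mul_const _)
  have hD2 : ∀ u ∈ Set.Icc s t, HasDerivAt (fun u : ℝ => Real.log u * (1 / (2 - t)) - 1 / 2 * (Real.log u - Real.log (2 - u)))
      (1 / u * (1 / (2 - t)) - 1 / (u * (2 - u))) u := fun u hu => ((hlog u hu).mul_const _).sub (hd u hu)
  have hmono1 : MonotoneOn (fun u : ℝ => 1 / 2 * (Real.log u - Real.log (2 - u)) - Real.log u * (1 / (2 - s))) (Set.Icc s t) := by
    apply monotoneOn_of_deriv_nonneg (convex_Icc s t)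
    · intro u hu
      exact (hD1 u hu).continuousAt.continuousWithinAt
    · intro u hu
      rw [interior_Icc] at hu
      exact (hD1 u (Set.Ioo_subset_Icc_self hu)).differentiableAt.differentiableWithinAt
    · intro u hu
      rw [interior_Icc] at hu
      rw [(hD1 u (Set.Ioo_subset_Icc_self hu)).deriv]
      have hu0 : 0 < u := by linarith [hu.1]
      have hu2 : 0 < 2 - u := by linarith [hu.2]
      have h1 : 1 / (2 - s) ≤ 1 / (2 - u) := one_div_le_one_div_of_le hu2 (by linarith [hu.1])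
      have h2 : 1 / (u * (2 - u)) = 1 / u * (1 / (2 - u)) := by field_simp
      rw [h2, sub_nonneg]
      exact mul_le_mul_of_nonneg_left h1 (by positivity)
  have hmono2 : MonotoneOn (fun u : ℝ => Real.log u * (1 / (2 - t)) - 1 / 2 * (Real.log u - Real.log (2 - u))) (Set.Icc s t) := by
    apply monotoneOn_of_deriv_nonneg (convex_Icc s t)
    · intro u hu
      exact (hD2 u hu).continuousAt.continuousWithinAt
    · intro u hu
      rw [interior_Icc] at hu
      exact (hD2 u (Set.Ioo_subset_Icc_self hu)).differentiableAt.differentiableWithinAt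
    · intro u hu
      rw [interior_Icc] at hu
      rw [(hD2 u (Set.Ioo_subset_Icc_self hu)).deriv]
      have hu0 : 0 < u := by linarith [hu.1]
      have hu2 : 0 < 2 - u := by linarith [hu.2]
      have h1 : 1 / (2 - u) ≤ 1 / (2 - t) := one_div_le_one_div_of_le ht2 (by linarith [hu.2])
      have h2 : 1 / (u * (2 - u)) = 1 / u * (1 / (2 - u)) := by field_simp
      rw [h2, sub_nonneg]
      exact mul_le_mul_of_nonneg_left h1 (by positivity)
  have hsm : s ∈ Set.Icc s t := ⟨le_rfl, hst⟩
  have htm : t ∈ Set.Icc s t := ⟨hst, le_rfl⟩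
  have k1 := hmono1 hsm htm hst
  have k2 := hmono2 hsm htm hst
  simp only at k1 k2
  rw [Real.log_div ht0.ne' hs.ne', ePh]
  have q1 : (Real.log t - Real.log s) / (2 - s) = Real.log t * (1 / (2 - s)) - Real.log s * (1 / (2 - s)) := by ring
  have q2 : (Real.log t - Real.log s) / (2 - t) = Real.log t * (1 / (2 - t)) - Real.log s * (1 / (2 - t)) := by ring
  rw [q1, q2]
  constructor <;> linarith

end Pool.Agent.N791.E2
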