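import Mathlib
import Pool.Agent.N792.TH4
import Pool.Agent.N791.E2.Inner3

/-!
The type II sums of a function which is equidistributed, general `C` and `U` (after helper792, `N792/TJ8`).
-/

set_option autoImplicit false

namespace Pool.Agent.N791.E2

open Pool.Agent.N792

open Finset Filter Topology

open Classical in
/-- **the type II sums of an equidistributed function** -/
theorem core_bound3 (a : ℤ) (ha : 0 < a) (b : ℤ) (η ε : ℝ) (hη : 0 < η) (hε : 0 < ε) (hε1 : ε ≤ 1 / 100) (R B1 : ℕ) :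
    ∃ x0 : ℕ, ∀ x : ℕ, x0 ≤ x → ∀ (x1 C z U y t : ℕ) (S : Finset ℕ) (β : ℕ → ℝ) (B0 : ℝ), x1 < x → x ≤ R * x1 →
    (x : ℝ) ^ (4 + ε) ≤ (C : ℝ) ^ 3 * (U : ℝ) ^ 2 → C ≤ x → (x : ℝ) ^ η ≤ z → (x : ℝ) ^ (1 / 2 : ℝ) ≤ U → (y : ℝ) ≤ (x : ℝ) ^ (1 - ε) →
    S ⊆ Ioc U y → (∀ m ∈ S, Rough z m) → (∀ m ∈ S, ∑ c ∈ Icc 1 C, (rho a b (c : ℕ) m : ℝ) ≤ 2 * C) →
    Real.log x ≤ (2 : ℝ) ^ t → (2 : ℝ) ^ (4 * t) ≤ Real.log x ^ B1 → 1 ≤ B0 → (∀ k, |β k| ≤ B0) →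
    (∀ i v q r : ℕ, x ≤ 2 ^ i → 2 ^ (i + 1) ≤ x ^ 2 → 2 ^ i ≤ v → v ≤ 2 ^ (i + 1) → 1 ≤ q → q ≤ 6 * 10 ^ 7 * 2 ^ (12 * (4 * t)) →
      |∑ k ∈ (Ioc (2 ^ i) v).filter (fun k => k ≡ r [MOD q]), β k| * (2 * (10 ^ 12 * (2 : ℝ) ^ (18 * (4 * t)))) ≤ (2 : ℝ) ^ i) →
    (∀ c ∈ Icc 1 C, ∀ m ∈ Ioc U y, ∀ n ∈ Ioc x1 x, m ∣ Fn a b n + c → (Fn a b n + c) / m ≤ x ^ 2) ∧
    ∑ c ∈ Icc 1 C, ∑ m ∈ S, |∑ n ∈ (Ioc x1 x).filter (fun n => m ∣ Fn a b n + c), β ((Fn a b n + c) / m)| ≤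
      B0 * (C * x) * Real.log x ^ 6 / (2 : ℝ) ^ t := by
  obtain ⟨x0, hin⟩ := inner_bound3 a ha b ε hε hε1 R B1
  have e1 : ∀ᶠ x : ℕ in atTop, (200 : ℝ) ≤ Real.log x := Shp.log_ge 200
  have e2 := ev_log_pow (8 * ((a : ℝ) + 1) * (R + 1) ^ 2) 0 (δ := ε / 2) (by positivity)
  have e4 := ev_log_pow (17 * R + 2) B1 (δ := 1 / 2) (by positivity)
  have e5 : ∀ᶠ x : ℕ in atTop, 4 * (R + 1) * (b.natAbs + 1) ≤ x := eventually_ge_atTop _
  have e6 := ev_rough_div η hη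
  have e7 := ev_log_pow (4 * ((a : ℝ) + 1) * (R + 1) ^ 2) 0 (δ := 1 / 2) (by positivity)
  obtain ⟨x2, hx2⟩ := eventually_atTop.1 (((((e1.and e2).and e7).and e4).and e5).and e6)
  refine ⟨max x0 (max x2 3), fun x hx x1 C z U y t S β B0 hx1 hR hC1 hC2 hz hU hy hSU hSr hρ ht1 ht2 hB0 hβ hH => ?_⟩
  have hxx0 : x0 ≤ x := (le_max_left _ _).trans hx
  have hx3 : 3 ≤ x := (le_max_right _ _).trans ((le_max_right _ _).trans hx)
  obtain ⟨⟨⟨⟨⟨f1, f2⟩, f7⟩, f4⟩, f5⟩, f6⟩ := hx2 x ((le_max_left _ _).trans ((le_max_right _ _).trans hx))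
  rw [pow_zero, mul_one] at f2 f7
  have hxpos : (0 : ℝ) < x := by
    have : 0 < x := by omega
    exact_mod_cast this
  have hx1' : (1 : ℝ) ≤ x := by
    have : 1 ≤ x := by omega
    exact_mod_cast this
  set L := Real.log x with hL
  have hL0 : 0 < L := by linarith
  have ha1 : (1 : ℝ) ≤ a := by exact_mod_cast ha
  have hRpos : 1 ≤ R := by
    rcases Nat.eq_zero_or_pos R with h | h
    · rw [h] at hR; omega
    · exact h
  have hRR : (1 : ℝ) ≤ R := by exact_mod_cast hRpos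
  have hR4 : 1 ≤ ((R : ℝ) + 1) ^ 2 := one_le_pow₀ (by linarith)
  have hcA : (2 * (R : ℝ) ^ 2) ≤ 8 * ((a : ℝ) + 1) * (R + 1) ^ 2 := by
    have h3 : (R : ℝ) ^ 2 ≤ (R + 1) ^ 2 := pow_le_pow_left₀ (by linarith) (by linarith) 2
    have h5 : 2 * ((R : ℝ) + 1) ^ 2 ≤ 8 * ((a : ℝ) + 1) * (R + 1) ^ 2 := mul_le_mul_of_nonneg_right (by linarith) (by positivity)
    linarith
  have hx1b : 2 * b.natAbs ≤ x1 := by
    by_contra hcon
    push Not at hcon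
    have h1 : R * x1 ≤ R * (2 * b.natAbs) := Nat.mul_le_mul_left _ hcon.le
    have h2 : R * (2 * b.natAbs) < 4 * (R + 1) * (b.natAbs + 1) := by nlinarith
    omega
  obtain ⟨hFx2, hF12⟩ := Fn_bounds ha hx1 hR hx1b
  have hsqrt : (x : ℝ) ^ (1 / 2 : ℝ) * (x : ℝ) ^ (1 / 2 : ℝ) = x := by
    rw [← Real.rpow_add hxpos]
    norm_num
  have hUx : (x : ℝ) ^ (1 / 2 : ℝ) ≤ U := hU
  have hsqx : (x : ℝ) ^ (1 / 2 : ℝ) ≤ x := by
    nth_rw 2 [← Real.rpow_one (x : ℝ)]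
    exact Real.rpow_le_rpow_of_exponent_le hx1' (by norm_num)
  have hyx : y ≤ x := by
    have : (y : ℝ) ≤ x := by
      refine hy.trans ?_
      nth_rw 2 [← Real.rpow_one (x : ℝ)]
      exact Real.rpow_le_rpow_of_exponent_le hx1' (by linarith)
    exact_mod_cast this
  have hUpos : (0 : ℝ) < U := lt_of_lt_of_le (Real.rpow_pos_of_pos hxpos _) hUx
  have ht1' : (1 : ℝ) ≤ 2 ^ t := one_le_pow₀ (by norm_num)
  have hLB : (2 : ℝ) ^ (4 * t) * (17 * R + 2) ≤ (x : ℝ) ^ (1 / 2 : ℝ) := by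
    refine le_trans ?_ f4
    rw [mul_comm]
    exact mul_le_mul_of_nonneg_left ht2 (by positivity)
  have h2t : (2 : ℝ) ^ t ≤ (2 : ℝ) ^ (4 * t) := pow_le_pow_right₀ (by norm_num) (by omega)
  have h24 : (2 : ℝ) ^ (4 * t) * 2 ≤ (x : ℝ) ^ (1 / 2 : ℝ) := by
    refine le_trans (mul_le_mul_of_nonneg_left ?_ (by positivity)) hLB
    linarith
  have hUt : 2 ^ t ≤ U := by
    have h1 : (2 : ℝ) ^ t ≤ U := by
      have : (2 : ℝ) ^ (4 * t) ≤ (2 : ℝ) ^ (4 * t) * 2 := by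
        have : (0 : ℝ) ≤ 2 ^ (4 * t) := by positivity
        linarith
      linarith
    exact_mod_cast h1
  have hxF : x ≤ Fn a b x1 := by
    have h1 : (x : ℝ) ≤ ((Fn a b x1 : ℕ) : ℝ) := by
      refine le_trans ?_ hF12
      rw [le_div_iff₀ (by positivity)]
      have h2 : (2 * (R : ℝ) ^ 2) ≤ x := by
        calc (2 * (R : ℝ) ^ 2) ≤ 8 * ((a : ℝ) + 1) * (R + 1) ^ 2 := hcA
          _ ≤ (x : ℝ) ^ (ε / 2) := f2
          _ ≤ (x : ℝ) ^ (1 : ℝ) := Real.rpow_le_rpow_of_exponent_le hx1' (by linarith)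
          _ = x := Real.rpow_one _
      calc (x : ℝ) * (2 * R ^ 2) ≤ x * x := mul_le_mul_of_nonneg_left h2 hxpos.le
        _ = _ := by ring
    exact_mod_cast h1
  -- the values
  have hval : ∀ c ∈ Icc 1 C, ∀ n ∈ Ioc x1 x, (x : ℝ) ^ 2 / (2 * R ^ 2) ≤ ((Fn a b n + c : ℕ) : ℝ) ∧
      ((Fn a b n + c : ℕ) : ℝ) ≤ 3 * a * x ^ 2 := by
    intro c hc n hn
    rw [mem_Icc] at hc
    rw [mem_Ioc] at hn
    have h1 : Fn a b x1 ≤ Fn a b n := Mtm.Fn_mono ha (by omega) hn.1.le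
    have h2 : Fn a b n ≤ Fn a b x := Mtm.Fn_mono ha (by omega) hn.2
    have h3 : ((Fn a b x1 : ℕ) : ℝ) ≤ Fn a b n := by exact_mod_cast h1
    have h4 : ((Fn a b n : ℕ) : ℝ) ≤ Fn a b x := by exact_mod_cast h2
    have h5 : (c : ℝ) ≤ x := by exact_mod_cast hc.2.trans hC2
    have h6 : (0 : ℝ) ≤ c := Nat.cast_nonneg _
    push_cast
    constructor
    · linarith
    · have h7 : (x : ℝ) ≤ a * x ^ 2 := by
        calc (x : ℝ) = 1 * (1 * x) := by ring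
          _ ≤ a * (x * x) := mul_le_mul ha1 (mul_le_mul_of_nonneg_right hx1' hxpos.le) (by positivity) (by linarith)
          _ = _ := by ring
      linarith
  have hkU : ∀ c ∈ Icc 1 C, ∀ m ∈ Ioc U y, ∀ n ∈ Ioc x1 x, m ∣ Fn a b n + c → (Fn a b n + c) / m ≤ x ^ 2 := by
    intro c hc m hm n hn _
    have h1 := (hval c hc n hn).2
    rw [mem_Ioc] at hm
    have hmU : (U : ℝ) < m := by exact_mod_cast hm.1
    have h2 : (((Fn a b n + c) / m : ℕ) : ℝ) ≤ ((Fn a b n + c : ℕ) : ℝ) / m := Nat.cast_div_le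
    have h3 : ((Fn a b n + c : ℕ) : ℝ) / m ≤ (x : ℝ) ^ 2 := by
      rw [div_le_iff₀ (by linarith)]
      have h4 : 3 * (a : ℝ) ≤ m := by
        have : 4 * ((a : ℝ) + 1) * 1 ≤ 4 * ((a : ℝ) + 1) * (R + 1) ^ 2 := mul_le_mul_of_nonneg_left hR4 (by positivity)
        linarith
      calc ((Fn a b n + c : ℕ) : ℝ) ≤ 3 * a * x ^ 2 := h1
        _ ≤ m * x ^ 2 := mul_le_mul_of_nonneg_right h4 (by positivity)
        _ = _ := by ring
    exact_mod_cast h2.trans h3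
  refine ⟨hkU, ?_⟩
  have hkL : ∀ c ∈ Icc 1 C, ∀ m ∈ Ioc U y, ∀ n ∈ Ioc x1 x, m ∣ Fn a b n + c → 2 ^ (4 * t) + 1 ≤ (Fn a b n + c) / m := by
    intro c hc m hm n hn hmd
    have h1 := (hval c hc n hn).1
    rw [mem_Ioc] at hm
    have hm0 : 0 < m := by omega
    rw [Nat.le_div_iff_mul_le hm0]
    have h2 : (((2 ^ (4 * t) + 1) * m : ℕ) : ℝ) ≤ ((Fn a b n + c : ℕ) : ℝ) := by
      push_cast
      have h3 : (m : ℝ) ≤ (x : ℝ) ^ (1 - ε) := by
        refine le_trans ?_ hy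
        exact_mod_cast hm.2
      have h4 : (2 : ℝ) ^ (4 * t) + 1 ≤ x := by
        have : (1 : ℝ) ≤ 2 ^ (4 * t) := one_le_pow₀ (by norm_num)
        linarith
      have h5 : ((2 : ℝ) ^ (4 * t) + 1) * m ≤ x * (x : ℝ) ^ (1 - ε) :=
        mul_le_mul h4 h3 (Nat.cast_nonneg _) hxpos.le
      have h6 : (x : ℝ) * (x : ℝ) ^ (1 - ε) ≤ (x : ℝ) ^ 2 / (2 * R ^ 2) := by
        rw [le_div_iff₀ (by positivity)]
        calc (x : ℝ) * (x : ℝ) ^ (1 - ε) * (2 * R ^ 2) ≤ (x : ℝ) * (x : ℝ) ^ (1 - ε) * (x : ℝ) ^ (ε / 2) :=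
              mul_le_mul_of_nonneg_left (hcA.trans f2) (by positivity)
          _ = (x : ℝ) ^ (2 - ε / 2) := by
              nth_rw 1 [← Real.rpow_one (x : ℝ)]
              rw [← Real.rpow_add hxpos, ← Real.rpow_add hxpos]
              congr 1
              ring
          _ ≤ (x : ℝ) ^ (2 : ℝ) := Real.rpow_le_rpow_of_exponent_le hx1' (by linarith)
          _ = (x : ℝ) ^ 2 := by
              rw [← Real.rpow_natCast]
              norm_num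
      push_cast at h1
      linarith
    exact_mod_cast h2
  have hD : ∀ c ∈ Icc 1 C, ∀ n ∈ Ioc x1 x, ∀ S : Finset ℕ, (∀ m ∈ S, m ∣ Fn a b n + c ∧ Rough z m) → (#S : ℝ) ≤ L := by
    intro c hc n hn S hS
    have h1 := (hval c hc n hn).2
    apply f6 z (Fn a b n + c) hz (by
      rw [mem_Icc] at hc
      omega) _ S hS
    have h2 : ((Fn a b n + c : ℕ) : ℝ) ≤ (x : ℝ) ^ 3 := by
      refine h1.trans ?_
      have h4 : 3 * (a : ℝ) ≤ x := by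
        have : 4 * ((a : ℝ) + 1) * 1 ≤ 4 * ((a : ℝ) + 1) * (R + 1) ^ 2 := mul_le_mul_of_nonneg_left hR4 (by positivity)
        linarith
      calc 3 * (a : ℝ) * x ^ 2 ≤ x * x ^ 2 := mul_le_mul_of_nonneg_right h4 (by positivity)
        _ = _ := by ring
    exact_mod_cast h2
  have hbad := bad_sum (t := 4 * t) (t' := t) (z := z) (y := y) ha hx1 hR hx1b hC2 hUt (by omega) (by linarith : 0 ≤ B0) hβ hkL hD
  have hinn := hin x hxx0 x1 C U y t (x ^ 2) S β B0 hx1 hR hC1 hC2 hU hy (hyx.trans (Nat.le_self_pow (by norm_num) _))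
    hSU hρ (Nat.pow_le_pow_right (by omega) (by norm_num)) ht1 ht2 hB0 hβ hH
  have hsplit : ∀ c ∈ Icc 1 C, ∀ m ∈ S, |∑ n ∈ (Ioc x1 x).filter (fun n => m ∣ Fn a b n + c), β ((Fn a b n + c) / m)| ≤
      |∑ K ∈ ((Icc (2 ^ (4 * t) + 1) (x ^ 2)).image (cl (4 * t))).filter
        (fun K => gd a b x1 x C (4 * t) t K (cl t m)),
        Sg a b β (2 * b.natAbs) (8 * cl t m * K) K (K + cs (4 * t) (K + 1)) (c : ℕ) m| +
      |∑ n ∈ (Ioc x1 x).filter (fun n => m ∣ Fn a b n + c ∧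
        ¬ gd a b x1 x C (4 * t) t (cl (4 * t) ((Fn a b n + c) / m)) (cl t m)), β ((Fn a b n + c) / m)| := by
    intro c hc m hm
    have hc' := mem_Icc.1 hc
    have hm0 := hSU hm
    have hm' := mem_Ioc.1 hm0
    rw [cell_id (t := 4 * t) (t' := t) (C := C) (X := x ^ 2) ha hx1.le hx1b hc'.1 hc'.2 (by omega) hxF
      (fun n hn hmd => ⟨hkL c hc m hm0 n hn hmd, hkU c hc m hm0 n hn hmd⟩)]
    exact abs_add_le _ _
  have hbad2 : ∑ c ∈ Icc 1 C, ∑ m ∈ S, |∑ n ∈ (Ioc x1 x).filter (fun n => m ∣ Fn a b n + c ∧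
        ¬ gd a b x1 x C (4 * t) t (cl (4 * t) ((Fn a b n + c) / m)) (cl t m)), β ((Fn a b n + c) / m)| ≤
      B0 * C * L * (10 * x / 2 ^ t + 17 * R) := by
    refine le_trans (sum_le_sum fun c hc => ?_) hbad
    have h1 : ∀ m ∈ S, |∑ n ∈ (Ioc x1 x).filter (fun n => m ∣ Fn a b n + c ∧
        ¬ gd a b x1 x C (4 * t) t (cl (4 * t) ((Fn a b n + c) / m)) (cl t m)), β ((Fn a b n + c) / m)| =
        rg z m * |∑ n ∈ (Ioc x1 x).filter (fun n => m ∣ Fn a b n + c ∧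
        ¬ gd a b x1 x C (4 * t) t (cl (4 * t) ((Fn a b n + c) / m)) (cl t m)), β ((Fn a b n + c) / m)| := by
      intro m hm
      have : rg z m = 1 := by unfold rg; rw [if_pos (hSr m hm)]
      rw [this, one_mul]
    rw [sum_congr rfl h1]
    apply sum_le_sum_of_subset_of_nonneg hSU
    intro m _ _
    apply mul_nonneg _ (abs_nonneg _)
    unfold rg
    split_ifs <;> norm_num
  have hfinal := sum_le_sum fun c hc => sum_le_sum fun m hm => hsplit c hc m hm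
  refine hfinal.trans ?_
  simp only [sum_add_distrib]
  refine (add_le_add hinn hbad2).trans ?_
  have h17 : 17 * (R : ℝ) ≤ x / 2 ^ t := by
    rw [le_div_iff₀ (by positivity)]
    have e1 : 17 * (R : ℝ) * 2 ^ t ≤ (2 : ℝ) ^ (4 * t) * (17 * R + 2) := by
      rw [mul_comm]
      exact mul_le_mul h2t (by linarith) (by positivity) (by positivity)
    linarith
  have hC0 : (0 : ℝ) ≤ C := Nat.cast_nonneg _
  have hB0' : 0 ≤ B0 := by linarith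
  have hG : (0 : ℝ) < 2 ^ t := by positivity
  calc B0 * (C * x) * L ^ 5 / 2 ^ t + B0 * C * L * (10 * x / 2 ^ t + 17 * R) ≤
      B0 * (C * x) * L ^ 5 / 2 ^ t + B0 * C * L * (10 * x / 2 ^ t + x / 2 ^ t) := by
        apply add_le_add_right
        apply mul_le_mul_of_nonneg_left _ (by positivity)
        linarith
    _ = (B0 * (C * x) / 2 ^ t) * (L ^ 5 + 11 * L) := by ring
    _ ≤ (B0 * (C * x) / 2 ^ t) * L ^ 6 := by
        apply mul_le_mul_of_nonneg_left _ (by positivity)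
        have e2 : L ≤ L ^ 5 := le_self_pow₀ (by linarith) (by norm_num)
        have e3 : 0 < L ^ 5 := by positivity
        calc L ^ 5 + 11 * L ≤ 12 * L ^ 5 := by linarith
          _ ≤ L * L ^ 5 := mul_le_mul_of_nonneg_right (by linarith) e3.le
          _ = L ^ 6 := by ring
    _ = _ := by ring

end Pool.Agent.N791.E2
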