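import Mathlib
import Pool.Agent.N792.FinA

/-!
From the intervals `(x1, x]` to all intervals.
-/

set_option autoImplicit false

namespace Pool.Agent.N791.E2

open Finset Filter Topology
open Pool.Agent.N792.Fn124

/-- all intervals `(0, v]` -/
lemma grid_gen {P : ℕ → ℕ → ℝ} (hP0 : ∀ u v, 0 ≤ P u v) (hadd : ∀ u v w, u ≤ v → v ≤ w → P u w = P u v + P v w)
    {x R : ℕ} (hR : 1 ≤ R) (hx : 1 ≤ x) {A δ : ℝ} (hA : 0 ≤ A) (hδ : 0 ≤ δ) (hg : A * ((x : ℝ) / R + 1) ≤ δ)
    (h1 : ∀ i, 1 ≤ i → i < R → |P (xg x R i) x - A * ((x : ℝ) - xg x R i)| ≤ δ)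
    (h2 : P 0 (xg x R 1) ≤ δ) (v : ℕ) (hv : v ≤ x) : |P 0 v - A * v| ≤ 5 * δ := by
  have hxr : (0 : ℝ) < x := by exact_mod_cast (by omega : 0 < x)
  have hRr : (0 : ℝ) < R := by exact_mod_cast (by omega : 0 < R)
  have hmono : ∀ i j, i ≤ j → xg x R i ≤ xg x R j := fun i j hij =>
    monotone_nat_of_le_succ (xg_mono x R · hR) hij
  have hPself : ∀ u, P u u = 0 := by
    intro u
    have := hadd u u u le_rfl le_rfl
    linarith
  have hstep : ∀ i, (xg x R (i + 1) : ℝ) ≤ xg x R i + (x / R + 1) := by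
    intro i
    have k1 := xg_le x R (i + 1) hR
    have k2 := le_xg x R i hR
    have k3 : R * xg x R (i + 1) ≤ R * xg x R i + x + R := by
      have : (i + 1) * x = i * x + x := by ring
      omega
    have k4 : (R : ℝ) * xg x R (i + 1) ≤ R * xg x R i + x + R := by exact_mod_cast k3
    have : (R : ℝ) * xg x R (i + 1) ≤ R * (xg x R i + (x / R + 1)) := by
      calc (R : ℝ) * xg x R (i + 1) ≤ R * xg x R i + x + R := k4
        _ = _ := by field_simp; ring
    exact le_of_mul_le_mul_left this hRr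
  have hAstep : ∀ i, A * (xg x R (i + 1) : ℝ) ≤ A * xg x R i + δ := by
    intro i
    have := mul_le_mul_of_nonneg_left (hstep i) hA
    rw [mul_add] at this
    linarith
  have h1' : ∀ i, 1 ≤ i → i ≤ R → |P (xg x R i) x - A * ((x : ℝ) - xg x R i)| ≤ δ := by
    intro i hi1 hi2
    rcases lt_or_eq_of_le hi2 with h | h
    · exact h1 i hi1 h
    · rw [h, xg_top x R hR, hPself]
      simpa using hδ
  have hgrid : ∀ i, i ≤ R → |P 0 (xg x R i) - A * (xg x R i)| ≤ 4 * δ := by
    intro i hi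
    rcases Nat.eq_zero_or_pos i with h0 | h0
    · rw [h0, xg_zero x R hR, hPself]
      simpa using hδ
    · have e1 := h1' i h0 hi
      have e2 := h1' 1 le_rfl (by omega)
      have m1 := hmono 1 i h0
      have m2 : xg x R i ≤ x := by
        have := hmono i R hi
        rwa [xg_top x R hR] at this
      have p1 := hadd 0 (xg x R i) x (by omega) m2
      have p2 := hadd 0 (xg x R 1) x (by omega) (m1.trans m2)
      have q1 : A * (xg x R 1 : ℝ) ≤ δ := by
        have := hAstep 0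
        rw [xg_zero x R hR] at this
        simpa using this
      have q3 : 0 ≤ A * (xg x R 1 : ℝ) := by positivity
      have q4 := hP0 0 (xg x R 1)
      rw [mul_sub] at e1 e2
      rw [abs_le] at e1 e2 ⊢
      constructor <;> linarith [e1.1, e1.2, e2.1, e2.2]
  rcases lt_or_eq_of_le hv with hvx | hvx
  · obtain ⟨i, hi, hi1, hi2⟩ := xg_between x R v hR hx hvx
    have e1 := hgrid i hi.le
    have e2 := hgrid (i + 1) hi
    have p1 := hadd 0 (xg x R i) v (by omega) hi1
    have p2 := hadd 0 v (xg x R (i + 1)) (by omega) hi2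
    have n1 := hP0 (xg x R i) v
    have n2 := hP0 v (xg x R (i + 1))
    have hs := hAstep i
    have v1 : A * (xg x R i : ℝ) ≤ A * v := mul_le_mul_of_nonneg_left (by exact_mod_cast hi1) hA
    have v2 : A * (v : ℝ) ≤ A * xg x R (i + 1) := mul_le_mul_of_nonneg_left (by exact_mod_cast hi2) hA
    rw [abs_le] at e1 e2 ⊢
    constructor <;> linarith [e1.1, e1.2, e2.1, e2.2]
  · have := hgrid R le_rfl
    rw [xg_top x R hR] at this
    rw [hvx]
    linarith

/-- the estimate for one interval -/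
lemma step_real {E L K S lam κ β X D W Lc Ls : ℝ} (hL : 0 < L) (hK : 0 ≤ K) (hE : 0 ≤ E) (hX : 0 < X) (hS : 0 < S)
    (hD0 : 0 ≤ D) (hD : D ≤ X) (hβ : 0 < β) (hβ1 : β ≤ 1) (hW0 : 0 ≤ W) (hW : W ≤ 1)
    (h1 : |Lc - L * E| ≤ K * E) (h2 : |Lc - S * Ls| ≤ lam * X) (h3 : |Ls - D * W| ≤ κ * X)
    (h4 : lam ≤ β * S / 4) (h5 : κ ≤ β / 4) (h6 : 12 * K ≤ β * L) :
    |E - S * W / L * D| ≤ β * (S * X / L) := by
  have hSX : 0 < S * X := by positivity
  have hDW : D * W ≤ X := by
    calc D * W ≤ X * 1 := mul_le_mul hD hW hW0 hX.le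
      _ = X := mul_one _
  have e1 : lam * X ≤ β * (S * X) / 4 := by
    calc lam * X ≤ β * S / 4 * X := by gcongr
      _ = _ := by ring
  have e2 : |S * Ls - S * (D * W)| ≤ β * (S * X) / 4 := by
    rw [← mul_sub, abs_mul, abs_of_pos hS]
    calc S * |Ls - D * W| ≤ S * (κ * X) := by gcongr
      _ ≤ S * (β / 4 * X) := by gcongr
      _ = _ := by ring
  have e3 : S * (D * W) ≤ S * X := by gcongr
  obtain ⟨a1, a2⟩ := abs_le.1 h1
  obtain ⟨b1, b2⟩ := abs_le.1 h2
  obtain ⟨c1, c2⟩ := abs_le.1 e2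
  have hβS : β * (S * X) ≤ S * X := by
    calc β * (S * X) ≤ 1 * (S * X) := by gcongr
      _ = _ := one_mul _
  have e4 : Lc ≤ 2 * (S * X) := by linarith
  have hKL : K ≤ L / 2 := by
    have : β * L ≤ 1 * L := by gcongr
    linarith
  have e5 : L * E ≤ 4 * (S * X) := by
    have h7 : K * E ≤ L / 2 * E := by gcongr
    linarith
  have e6 : K * E ≤ β * (S * X) / 3 := by
    have h8 : K * E * L ≤ β * (S * X) / 3 * L := by
      calc K * E * L = K * (L * E) := by ring
        _ ≤ K * (4 * (S * X)) := by gcongr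
        _ = (12 * K) * (S * X) / 3 := by ring
        _ ≤ (β * L) * (S * X) / 3 := by gcongr
        _ = _ := by ring
    exact le_of_mul_le_mul_right h8 hL
  have e7 : |L * E - S * (D * W)| ≤ β * (S * X) := by
    rw [abs_le]
    constructor <;> linarith
  have e8 : E - S * W / L * D = (L * E - S * (D * W)) / L := by
    field_simp
  rw [e8, abs_div, abs_of_pos hL, div_le_iff₀ hL]
  calc |L * E - S * (D * W)| ≤ β * (S * X) := e7
    _ = _ := by field_simp

/-- from the normalisation `S` to the true singular series -/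
lemma last_real {P L S M β η X D W κ : ℝ} (hL : 0 < L) (hX : 0 < X) (hS : 0 < S) (hD0 : 0 ≤ D) (hD : D ≤ X)
    (hβ : 0 < β) (hβ1 : β ≤ 1 / 2) (hη : 30 * β ≤ η) (hW0 : 0 ≤ W) (hW : W ≤ 1)
    (hP : |P - S * W / L * D| ≤ 10 * (β * (S * X / L))) (hSS : |M - S| ≤ S * β) (hWκ : |W - κ| ≤ β) :
    |P - M * κ * D / L| ≤ η * (M * X / L) := by
  have h1 := (abs_le.1 hSS).1
  have hM : S ≤ 2 * M := by nlinarith
  have hM0 : 0 < M := by linarith
  have hXL : 0 < X / L := by positivity
  have hDL : D / L ≤ X / L := div_le_div_of_nonneg_right hD hL.le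
  have hDL0 : 0 ≤ D / L := by positivity
  have e1 : |S * W / L * D - M * W * D / L| ≤ 2 * (β * (M * X / L)) := by
    have : S * W / L * D - M * W * D / L = (S - M) * (W * (D / L)) := by ring
    rw [this, abs_mul, abs_of_nonneg (mul_nonneg hW0 hDL0), abs_sub_comm]
    calc |M - S| * (W * (D / L)) ≤ (S * β) * (1 * (X / L)) := by gcongr
      _ ≤ (2 * M * β) * (1 * (X / L)) := by gcongr
      _ = _ := by ring
  have e2 : |M * W * D / L - M * κ * D / L| ≤ β * (M * X / L) := by
    have : M * W * D / L - M * κ * D / L = (W - κ) * (M * (D / L)) := by ring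
    rw [this, abs_mul, abs_of_nonneg (mul_nonneg hM0.le hDL0)]
    calc |W - κ| * (M * (D / L)) ≤ β * (M * (X / L)) := by gcongr
      _ = _ := by ring
  have e3 : 10 * (β * (S * X / L)) ≤ 20 * (β * (M * X / L)) := by
    calc 10 * (β * (S * X / L)) ≤ 10 * (β * ((2 * M) * X / L)) := by gcongr
      _ = _ := by ring
  have e4 : P - M * κ * D / L = (P - S * W / L * D) + (S * W / L * D - M * W * D / L) + (M * W * D / L - M * κ * D / L) := by
    ring
  rw [e4]
  refine (abs_add_three _ _ _).trans ?_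
  have e5 : 30 * β * (M * X / L) ≤ η * (M * X / L) := by gcongr
  have e6 : 0 ≤ β * (M * X / L) := by positivity
  linarith

end Pool.Agent.N791.E2
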