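import Mathlib
import Pool.Agent.N792.LsLam
import Pool.Agent.N792.TH5
import Pool.Agent.N791.E2.SWPr

/-!
The evaluation of the model sums over products of two primes.
-/

set_option autoImplicit false

namespace Pool.Agent.N791.E2

open Finset Filter Topology
open Pool.Agent Pool.Agent.N792
open ArithmeticFunction (moebius vonMangoldt)

lemma theta_asym (θ : ℝ) (hθ : 0 < θ) : ∃ X0 : ℕ, ∀ N : ℕ, X0 ≤ N → |∑ k ∈ Icc 1 N, pl k - N| ≤ θ * N := by
  obtain ⟨X, hX⟩ : ∃ X0 : ℕ, ∀ N : ℕ, X0 ≤ N → |Chebyshev.psi N - N| ≤ (θ / 2) * N := by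
    have h := Pool.Agent.Cov.PNT.psi_div_tendsto.comp (tendsto_natCast_atTop_atTop (R := ℝ))
    have h2 := (Metric.tendsto_atTop.1 h) (θ / 2) (by positivity)
    obtain ⟨X, hX⟩ := h2
    refine ⟨max X 1, fun N hN => ?_⟩
    have h3 := hX N (le_trans (le_max_left _ _) hN)
    have hN0 : (0 : ℝ) < N := by exact_mod_cast lt_of_lt_of_le one_pos (le_trans (le_max_right _ _) hN)
    simp only [Function.comp] at h3
    rw [Real.dist_eq] at h3
    have e : Chebyshev.psi N - N = (Chebyshev.psi N / N - 1) * N := by field_simp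
    rw [e, abs_mul, abs_of_pos hN0]
    exact mul_le_mul_of_nonneg_right h3.le hN0.le
  have e1 := ev_log_pow (4 / θ) 1 (δ := 1 / 2) (by norm_num)
  obtain ⟨X2, hX2⟩ := eventually_atTop.1 e1
  refine ⟨max X (max X2 1), fun N hN => ?_⟩
  simp only [max_le_iff] at hN
  obtain ⟨hN1, hN2, hN3⟩ := hN
  have h1 := hX N hN1
  have h2 := hX2 N hN2
  rw [pow_one, ← Real.sqrt_eq_rpow] at h2
  have hN0 : (0 : ℝ) < N := by exact_mod_cast (by omega : 0 < N)
  have h3 := sum_pp_le N hN3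
  have h4 : Chebyshev.psi N = ∑ k ∈ Icc 1 N, vonMangoldt k := by
    unfold Chebyshev.psi
    rw [Nat.floor_natCast]
    apply sum_congr _ (fun _ _ => rfl)
    ext k
    rw [mem_Ioc, mem_Icc]
    omega
  have h5 : 0 ≤ ∑ k ∈ Icc 1 N, (vonMangoldt k - pl k) := sum_nonneg fun k _ => by linarith [pl_le k]
  rw [sum_sub_distrib] at h3 h5
  have h6 : 2 * √(N : ℝ) * Real.log N ≤ θ / 2 * N := by
    have h7 : 4 * Real.log N ≤ θ * √(N : ℝ) := by
      rw [div_mul_eq_mul_div, div_le_iff₀ hθ] at h2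
      linarith
    calc 2 * √(N : ℝ) * Real.log N = √(N : ℝ) * (4 * Real.log N) / 2 := by ring
      _ ≤ √(N : ℝ) * (θ * √(N : ℝ)) / 2 := by gcongr
      _ = θ / 2 * (√(N : ℝ) * √(N : ℝ)) := by ring
      _ = _ := by rw [Real.mul_self_sqrt hN0.le]
  rw [h4] at h1
  rw [abs_le] at h1 ⊢
  constructor <;> linarith [h1.1, h1.2]

/-- the inner sum for one modulus -/
lemma lm_eval (a : ℤ) (ha : 0 < a) (b : ℤ) (R : ℕ) (ε : ℝ) (hε : 0 < ε) (θ : ℝ) (hθ : 0 < θ) :
    ∃ x0 : ℕ, ∀ x : ℕ, x0 ≤ x → ∀ x1 z m : ℕ, x1 < x → x ≤ R * x1 → z ≤ x → 1 ≤ m → (m : ℝ) ≤ (x : ℝ) ^ (1 - ε) →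
    |∑ k ∈ (Icc 1 (Fn a b x)).filter (fun k => Fn a b x1 < m * k ∧ m * k ≤ Fn a b x), tb (x ^ 3) z pl k * hw a (m * k) -
      ((x : ℝ) - x1) / m| ≤ θ * x / m := by
  classical
  have haR : (1 : ℝ) ≤ a := by exact_mod_cast ha
  set θ' : ℝ := θ / (16 * a * (R + 1)) with hθ'
  have hθ'0 : 0 < θ' := by positivity
  obtain ⟨X0, hX0⟩ := theta_asym θ' hθ'0
  have e1 := ev_log_pow (2 * ((R : ℝ) + 1) ^ 2 * (X0 + 2) + 4 / θ + 2 * a) 0 (δ := ε) hε
  have e2 : ∀ᶠ x : ℕ in atTop, 4 * (R + 1) * (b.natAbs + 1) ≤ x := eventually_ge_atTop _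
  have e3 := ev_log_pow (8 * (|(b : ℝ)| + 1) / θ + 2 * a) 0 (δ := 1) (by norm_num)
  obtain ⟨x2, hx2⟩ := eventually_atTop.1 ((e1.and e2).and e3)
  refine ⟨max x2 3, fun x hx x1 z m hx1 hR hzx hm1 hm => ?_⟩
  obtain ⟨⟨f1, f2⟩, f3⟩ := hx2 x ((le_max_left _ _).trans hx)
  have hx3 : 3 ≤ x := (le_max_right _ _).trans hx
  rw [pow_zero, mul_one] at f1 f3
  rw [Real.rpow_one] at f3
  have hxpos : (0 : ℝ) < x := by
    have : 0 < x := by omega
    exact_mod_cast this
  have hx1' : (1 : ℝ) ≤ x := by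
    have : 1 ≤ x := by omega
    exact_mod_cast this
  have hmpos : (0 : ℝ) < m := by exact_mod_cast (by omega : 0 < m)
  have hRpos : 1 ≤ R := by
    rcases Nat.eq_zero_or_pos R with h | h
    · rw [h] at hR; omega
    · exact h
  have hRR : (1 : ℝ) ≤ R := by exact_mod_cast hRpos
  have hx1b : 2 * b.natAbs ≤ x1 := by
    by_contra hcon
    push Not at hcon
    have h1 : R * x1 ≤ R * (2 * b.natAbs) := Nat.mul_le_mul_left _ hcon.le
    have h2 : R * (2 * b.natAbs) < 4 * (R + 1) * (b.natAbs + 1) := by nlinarith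
    omega
  have hx1pos : 1 ≤ x1 := by
    rcases Nat.eq_zero_or_pos x1 with h | h
    · rw [h] at hR; omega
    · exact h
  obtain ⟨hFx2, hF12⟩ := Fn_bounds ha hx1 hR hx1b
  set F1 := Fn a b x1 with hF1
  set F2 := Fn a b x with hF2
  have hFF : F1 ≤ F2 := Mtm.Fn_mono ha (by omega) hx1.le
  -- sizes
  have hp1 : (0 : ℝ) ≤ 4 / θ := by positivity
  have hp2 : (0 : ℝ) ≤ 2 * ((R : ℝ) + 1) ^ 2 * (X0 + 2) := by positivity
  have hxm : (x : ℝ) ^ ε ≤ x / m := by
    rw [le_div_iff₀ hmpos]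
    calc (x : ℝ) ^ ε * m ≤ (x : ℝ) ^ ε * (x : ℝ) ^ (1 - ε) := mul_le_mul_of_nonneg_left hm (by positivity)
      _ = (x : ℝ) ^ (1 : ℝ) := by rw [← Real.rpow_add hxpos]; congr 1; ring
      _ = x := Real.rpow_one _
  have hF1m : ((X0 : ℝ) + 2) * x ≤ F1 / m := by
    rw [le_div_iff₀ hmpos]
    refine le_trans ?_ hF12
    rw [le_div_iff₀ (by positivity)]
    have h1 : 2 * ((R : ℝ) ^ 2) * ((X0 : ℝ) + 2) ≤ (x : ℝ) / m := by
      refine le_trans ?_ hxm
      have h2 : (R : ℝ) ^ 2 ≤ ((R : ℝ) + 1) ^ 2 := pow_le_pow_left₀ (by linarith) (by linarith) 2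
      have h3 : 2 * ((R : ℝ) ^ 2) * ((X0 : ℝ) + 2) ≤ 2 * ((R : ℝ) + 1) ^ 2 * ((X0 : ℝ) + 2) := by gcongr
      linarith
    rw [le_div_iff₀ hmpos] at h1
    calc ((X0 : ℝ) + 2) * x * m * (2 * (R : ℝ) ^ 2) = (2 * ((R : ℝ) ^ 2) * ((X0 : ℝ) + 2) * m) * x := by ring
      _ ≤ (x : ℝ) * x := mul_le_mul_of_nonneg_right h1 hxpos.le
      _ = _ := by ring
  set A := F1 / m with hA
  set B := F2 / m with hB
  have hAB : A ≤ B := Nat.div_le_div_right hFF
  have hA1 : ((F1 : ℝ) / m) < A + 1 := by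
    rw [div_lt_iff₀ hmpos]
    have h2 : F1 < m * (F1 / m + 1) := Nat.lt_mul_div_succ F1 (by omega)
    have h3 : (F1 : ℝ) < ((m * (F1 / m + 1) : ℕ) : ℝ) := by exact_mod_cast h2
    push_cast at h3
    rw [← hA] at h3
    linarith
  have hAx : ((X0 : ℝ) + 2) * x < A + 1 := lt_of_le_of_lt hF1m hA1
  have hAX : X0 ≤ A := by
    have h1 : (X0 : ℝ) + 1 < A + 1 := by
      refine lt_of_le_of_lt ?_ hAx
      have : (0 : ℝ) ≤ X0 := Nat.cast_nonneg _
      nlinarith
    have h2 : (X0 : ℝ) < A := by linarith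
    exact_mod_cast h2.le
  have hAz : x ≤ A := by
    have h1 : (x : ℝ) + 1 ≤ A + 1 := by
      refine le_trans ?_ hAx.le
      have : (0 : ℝ) ≤ X0 := Nat.cast_nonneg _
      nlinarith
    have h2 : (x : ℝ) ≤ A := by linarith
    exact_mod_cast h2
  have hA0 : 1 ≤ A := by omega
  have hfil : (Icc 1 F2).filter (fun k => F1 < m * k ∧ m * k ≤ F2) = Ioc A B := by
    ext k
    rw [mem_filter, mem_Icc, mem_Ioc, hA, hB, Nat.div_lt_iff_lt_mul (by omega), Nat.le_div_iff_mul_le (by omega),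
      mul_comm k m]
    constructor
    · rintro ⟨_, h1, h2⟩
      exact ⟨h1, h2⟩
    · rintro ⟨h1, h2⟩
      refine ⟨⟨?_, ?_⟩, h1, h2⟩
      · rcases Nat.eq_zero_or_pos k with h | h
        · rw [h] at h1; omega
        · exact h
      · exact (Nat.le_mul_of_pos_left k (by omega)).trans h2
  have ham : (0 : ℤ) < a * m := by positivity
  have hF3 : F2 ≤ x ^ 3 := by
    have : ((F2 : ℕ) : ℝ) ≤ (x : ℝ) ^ 3 := by
      calc ((F2 : ℕ) : ℝ) ≤ 2 * a * x ^ 2 := hFx2
        _ ≤ x * x ^ 2 := by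
            apply mul_le_mul_of_nonneg_right _ (by positivity)
            have : (0 : ℝ) ≤ 8 * (|(b : ℝ)| + 1) / θ := by positivity
            linarith
        _ = _ := by ring
    exact_mod_cast this
  have hterm : ∀ k ∈ Ioc A B, tb (x ^ 3) z pl k * hw a (m * k) = pl k * hw (a * m) k := by
    intro k hk
    rw [mem_Ioc] at hk
    have hkB : k ≤ x ^ 3 := by
      have : B ≤ F2 := Nat.div_le_self _ _
      omega
    have h1 : hw a (m * k) = hw (a * m) k := by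
      unfold hw
      push_cast
      rw [mul_assoc]
    rw [h1]
    congr 1
    unfold tb
    rw [if_pos hkB]
    by_cases hp : k.Prime
    · have : rg z k = 1 := by
        unfold rg
        rw [if_pos]
        refine ⟨hp.ne_zero, fun p hpp hpN => ?_⟩
        rw [(Nat.prime_dvd_prime_iff_eq hpp hp).1 hpN]
        omega
      rw [this, one_mul]
    · have : pl k = 0 := by unfold pl; rw [if_neg hp]
      rw [this, mul_zero]
  rw [hfil, sum_congr rfl hterm]
  -- partial summation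
  set D : ℕ → ℝ := fun N => ∑ k ∈ Icc 1 N, pl k - N with hD
  have hBR : (B : ℝ) ≤ 2 * a * x ^ 2 / m := by
    calc (B : ℝ) ≤ (F2 : ℝ) / m := Nat.cast_div_le
      _ ≤ _ := div_le_div_of_nonneg_right hFx2 hmpos.le
  have hhwA : hw (a * m) (A + 1) ≤ R / x := by
    unfold hw
    have h1 : (x : ℝ) / (2 * R) ≤ √(((a * m : ℤ) : ℝ) * ((A + 1 : ℕ) : ℝ)) := by
      apply Real.le_sqrt_of_sq_le
      have h2 : (F1 : ℝ) ≤ m * (A + 1) := by
        rw [div_lt_iff₀ hmpos] at hA1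
        linarith
      push_cast
      calc ((x : ℝ) / (2 * R)) ^ 2 = (x : ℝ) ^ 2 / (2 * R ^ 2) / 2 := by
            field_simp
        _ ≤ (x : ℝ) ^ 2 / (2 * R ^ 2) := by
            have : 0 ≤ (x : ℝ) ^ 2 / (2 * R ^ 2) := by positivity
            linarith
        _ ≤ F1 := hF12
        _ ≤ m * (A + 1) := h2
        _ ≤ a * (m * (A + 1)) := le_mul_of_one_le_left (by positivity) haR
        _ = _ := by ring
    have h3 : 0 < (x : ℝ) / (2 * R) := by positivity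
    calc 1 / (2 * √(((a * m : ℤ) : ℝ) * ((A + 1 : ℕ) : ℝ))) ≤ 1 / (2 * ((x : ℝ) / (2 * R))) := by
          apply one_div_le_one_div_of_le (by positivity)
          linarith
      _ = _ := by field_simp
  have hmain : |∑ k ∈ Ioc A B, pl k * hw (a * m) k - ∑ k ∈ Ioc A B, hw (a * m) k| ≤ θ / 4 * x / m := by
    have h1 : ∑ k ∈ Ioc A B, pl k * hw (a * m) k - ∑ k ∈ Ioc A B, hw (a * m) k =
        ∑ k ∈ Ioc A B, (D k - D (k - 1)) * hw (a * m) k := by
      rw [← sum_sub_distrib]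
      refine sum_congr rfl fun N hN => ?_
      rw [mem_Ioc] at hN
      obtain ⟨M, rfl⟩ : ∃ M, N = M + 1 := ⟨N - 1, by omega⟩
      simp only [hD, Nat.add_sub_cancel]
      rw [← Finset.insert_Icc_right_eq_Icc_add_one (by omega), sum_insert (by simp)]
      push_cast
      ring
    rw [h1]
    have h2 : ∀ N, A ≤ N → N ≤ B → |D N| ≤ θ' * B := by
      intro N hN1 hN2
      refine (hX0 N (by omega)).trans ?_
      exact mul_le_mul_of_nonneg_left (by exact_mod_cast hN2) hθ'0.le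
    have h3 := lsl_abel' D (hw (a * m)) (θ' * B) A B (by positivity) hAB h2
      (fun N hN => lsl_hw_anti ham (by omega) (by omega)) (lsl_hw_nonneg _)
    refine h3.trans ?_
    calc 2 * (θ' * B) * hw (a * m) (A + 1) ≤ 2 * (θ' * (2 * a * x ^ 2 / m)) * (R / x) := by
          apply mul_le_mul _ hhwA (lsl_hw_nonneg _ _) (by positivity)
          have : θ' * (B : ℝ) ≤ θ' * (2 * a * x ^ 2 / m) := mul_le_mul_of_nonneg_left hBR hθ'0.le
          linarith
      _ = 4 * a * R * θ' * x / m := by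
          field_simp
          ring
      _ ≤ θ / 4 * x / m := by
          apply div_le_div_of_nonneg_right _ hmpos.le
          apply mul_le_mul_of_nonneg_right _ hxpos.le
          rw [hθ', mul_div_assoc', div_le_iff₀ (by positivity)]
          have : (a : ℝ) * R * θ ≤ a * (R + 1) * θ := by gcongr; linarith
          linarith
  have hbx1 : |b| ≤ (x1 : ℤ) := by
    rw [Int.abs_eq_natAbs]
    exact_mod_cast (by omega : b.natAbs ≤ x1)
  have hbx : |b| ≤ (x : ℤ) := by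
    rw [Int.abs_eq_natAbs]
    exact_mod_cast (by omega : b.natAbs ≤ x)
  have hsum : |∑ k ∈ Ioc A B, hw (a * m) k - ((x : ℝ) - x1) / m| ≤ 2 * |(b : ℝ)| / m + 1 := by
    obtain ⟨h1, h2⟩ := lsl_hw_sum ham A hA0 B hAB
    have h3 := lsl_sqrt ha b hbx1 hx1pos
    have h4 := lsl_sqrt ha b hbx (by omega)
    have h5 := lsl_sqrt_succ ham A
    have hmR : ((a * m : ℤ) : ℝ) = a * m := by push_cast; ring
    rw [hmR] at h1 h2 h5
    rw [← hF1] at h3
    rw [← hF2] at h4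
    have key : ∀ F : ℝ, √(F / m / (a * m)) = √(F / a) / m := by
      intro F
      have : F / m / (a * m) = F / a / (m : ℝ) ^ 2 := by field_simp
      rw [this, Real.sqrt_div' _ (by positivity), Real.sqrt_sq hmpos.le]
    have k1 : √((B : ℝ) / (a * m)) ≤ √((F2 : ℝ) / a) / m := by
      rw [← key]
      apply Real.sqrt_le_sqrt
      apply div_le_div_of_nonneg_right _ (by positivity)
      exact Nat.cast_div_le
    have k2 : √((F2 : ℝ) / a) / m ≤ √(((B : ℝ) + 1) / (a * m)) := by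
      rw [← key]
      apply Real.sqrt_le_sqrt
      apply div_le_div_of_nonneg_right _ (by positivity)
      rw [div_le_iff₀ hmpos]
      have h7 : F2 < m * (F2 / m + 1) := Nat.lt_mul_div_succ F2 (by omega)
      have h8 : (F2 : ℝ) < ((m * (F2 / m + 1) : ℕ) : ℝ) := by exact_mod_cast h7
      push_cast at h8
      rw [← hB] at h8
      linarith
    have k3 : √((A : ℝ) / (a * m)) ≤ √((F1 : ℝ) / a) / m := by
      rw [← key]
      apply Real.sqrt_le_sqrt
      apply div_le_div_of_nonneg_right _ (by positivity)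
      exact Nat.cast_div_le
    have k4 : √((F1 : ℝ) / a) / m ≤ √(((A : ℝ) + 1) / (a * m)) := by
      rw [← key]
      apply Real.sqrt_le_sqrt
      exact div_le_div_of_nonneg_right hA1.le (by positivity)
    have q1 : √((F2 : ℝ) / a) / m ≤ (x + |(b : ℝ)|) / m := by
      apply div_le_div_of_nonneg_right _ hmpos.le
      linarith [(abs_le.1 h4).2]
    have q2 : (x - |(b : ℝ)|) / m ≤ √((F2 : ℝ) / a) / m := by
      apply div_le_div_of_nonneg_right _ hmpos.le
      linarith [(abs_le.1 h4).1]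
    have q3 : √((F1 : ℝ) / a) / m ≤ (x1 + |(b : ℝ)|) / m := by
      apply div_le_div_of_nonneg_right _ hmpos.le
      linarith [(abs_le.1 h3).2]
    have q4 : (x1 - |(b : ℝ)|) / m ≤ √((F1 : ℝ) / a) / m := by
      apply div_le_div_of_nonneg_right _ hmpos.le
      linarith [(abs_le.1 h3).1]
    have r1 : (x + |(b : ℝ)|) / m = x / m + |(b : ℝ)| / m := by rw [add_div]
    have r2 : (x - |(b : ℝ)|) / m = x / m - |(b : ℝ)| / m := by rw [sub_div]
    have r3 : (x1 + |(b : ℝ)|) / m = x1 / m + |(b : ℝ)| / m := by rw [add_div]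
    have r4 : (x1 - |(b : ℝ)|) / m = x1 / m - |(b : ℝ)| / m := by rw [sub_div]
    have r5 : ((x : ℝ) - x1) / m = x / m - x1 / m := by rw [sub_div]
    have r6 : 2 * |(b : ℝ)| / m = |(b : ℝ)| / m + |(b : ℝ)| / m := by ring
    rw [r1] at q1
    rw [r2] at q2
    rw [r3] at q3
    rw [r4] at q4
    rw [r5, r6, abs_le]
    constructor <;> linarith
  have hfin : 2 * |(b : ℝ)| / m + 1 ≤ θ / 2 * x / m := by
    have h1 : 2 * |(b : ℝ)| / m ≤ θ / 4 * x / m := by
      apply div_le_div_of_nonneg_right _ hmpos.le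
      have h2 : 8 * (|(b : ℝ)| + 1) / θ ≤ x := by linarith
      rw [div_le_iff₀ hθ] at h2
      linarith
    have h3 : 1 ≤ θ / 4 * x / m := by
      have h4 : 4 / θ ≤ x / m := by
        refine le_trans ?_ hxm
        linarith
      rw [div_le_iff₀ hθ] at h4
      calc (1 : ℝ) = 4 / 4 := by norm_num
        _ ≤ (x / m * θ) / 4 := by linarith
        _ = _ := by ring
    have h5 : θ / 2 * x / m = θ / 4 * x / m + θ / 4 * x / m := by ring
    linarith
  have e5 : θ * x / m = θ / 4 * x / m + θ / 2 * x / m + θ / 4 * x / m := by ring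
  have e6 : 0 ≤ θ / 4 * x / m := by positivity
  rw [abs_le] at hmain hsum ⊢
  constructor <;> linarith [hmain.1, hmain.2, hsum.1, hsum.2]

/-- **the evaluation of the model** -/
lemma ls_eval (a : ℤ) (ha : 0 < a) (b : ℤ) (R : ℕ) (ε : ℝ) (hε : 0 < ε) (θ : ℝ) (hθ : 0 < θ) :
    ∃ x0 : ℕ, ∀ x : ℕ, x0 ≤ x → ∀ (x1 z U y : ℕ) (f : ℕ → ℝ), x1 < x → x ≤ R * x1 → z ≤ x → z ≤ U →
    (y : ℝ) ≤ (x : ℝ) ^ (1 - ε) → (∀ j, |f j| ≤ 1) → (∀ j, f j ≠ 0 → j.Prime) →
    |Ls a b x1 x (fun N => rg z N * ∑ j ∈ N.divisors.filter (fun j => U < j ∧ j ≤ y), f j * pl (N / j)) -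
      ((x : ℝ) - x1) * ∑ p ∈ Ioc U y, f p / p| ≤ θ * x * ∑ p ∈ (Ioc U y).filter Nat.Prime, 1 / (p : ℝ) := by
  classical
  obtain ⟨x0, h0⟩ := lm_eval a ha b R ε hε θ hθ
  have e2 : ∀ᶠ x : ℕ in atTop, 4 * (R + 1) * (b.natAbs + 1) ≤ x := eventually_ge_atTop _
  have e3 := ev_log_pow (2 * a) 0 (δ := 1) (by norm_num)
  obtain ⟨x2, hx2⟩ := eventually_atTop.1 (e2.and e3)
  refine ⟨max x0 (max x2 3), fun x hx x1 z U y f hx1 hR hzx hzU hy hf1 hfp => ?_⟩
  simp only [max_le_iff] at hx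
  obtain ⟨hxx0, hxx2, hx3⟩ := hx
  obtain ⟨f2, f3⟩ := hx2 x hxx2
  rw [pow_zero, mul_one, Real.rpow_one] at f3
  have hxpos : (0 : ℝ) < x := by
    have : 0 < x := by omega
    exact_mod_cast this
  have hx1b : 2 * b.natAbs ≤ x1 := by
    by_contra hcon
    push Not at hcon
    have h1 : R * x1 ≤ R * (2 * b.natAbs) := Nat.mul_le_mul_left _ hcon.le
    have h2 : R * (2 * b.natAbs) < 4 * (R + 1) * (b.natAbs + 1) := by nlinarith
    omega
  obtain ⟨hFx2, hF12⟩ := Fn_bounds ha hx1 hR hx1b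
  have hF3 : Fn a b x ≤ x ^ 3 := by
    have : ((Fn a b x : ℕ) : ℝ) ≤ (x : ℝ) ^ 3 := by
      calc ((Fn a b x : ℕ) : ℝ) ≤ 2 * a * x ^ 2 := hFx2
        _ ≤ x * x ^ 2 := mul_le_mul_of_nonneg_right f3 (by positivity)
        _ = _ := by ring
    exact_mod_cast this
  rw [Ls_conv hF3 f pl, mul_sum, ← sum_sub_distrib]
  refine (abs_sum_le_sum_abs _ _).trans ?_
  rw [mul_sum, sum_filter]
  apply sum_le_sum
  intro m hm
  rw [mem_Ioc] at hm
  have hm1 : 1 ≤ m := by omega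
  have hmpos : (0 : ℝ) < m := by exact_mod_cast (by omega : 0 < m)
  by_cases hfm : f m = 0
  · rw [hfm, mul_zero, zero_mul, zero_div, mul_zero, sub_zero, abs_zero]
    split_ifs
    · positivity
    · exact le_rfl
  · have hp := hfp m hfm
    rw [if_pos hp]
    have hrg : rg z m = 1 := by
      unfold rg
      rw [if_pos]
      refine ⟨hp.ne_zero, fun p hpp hpN => ?_⟩
      rw [(Nat.prime_dvd_prime_iff_eq hpp hp).1 hpN]
      omega
    rw [hrg, one_mul]
    have h1 := h0 x hxx0 x1 z m hx1 hR hzx hm1 (le_trans (by exact_mod_cast hm.2) hy)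
    have h2 : ∀ S : ℝ, f m * S - ((x : ℝ) - x1) * (f m / m) = f m * (S - ((x : ℝ) - x1) / m) := by
      intro S
      ring
    rw [h2, abs_mul]
    calc |f m| * _ ≤ 1 * (θ * x / m) := mul_le_mul (hf1 m) h1 (abs_nonneg _) (by norm_num)
      _ = _ := by ring

end Pool.Agent.N791.E2
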