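import Mathlib
import Pool.Agent.N792.SingT
import Pool.Agent.N792.SingP

/-!
The singular series for almost all `c ≤ C`, `C ≥ x^(2/3)` (after `N792/SingT`, `N792/SingP`).
-/

set_option autoImplicit false

namespace Pool.Agent.N791.E2

open Finset Filter Topology
open Pool.Agent.N792 (Vc V1 partialC eps gcdProd Admissible rho)
open Pool.Agent.N792.SingTail
open Pool.Agent.W468.ConjF (SJ PJ PJ_le PJ_tendsto PJ_pos factor_pos)
open Pool.Agent.R460.SC (tail_gen2 sol_lin PJ_ge om cf cf_eq)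
open Pool.Agent.Y868.TB (Sol low_count_lin evt_root)

theorem sing_tail3 (a : ℤ) (ha : 0 < a) (b : ℤ) (U E : ℕ) : ∃ x0 : ℕ, ∀ x : ℕ, x0 ≤ x → ∀ C : ℕ,
    (x : ℝ) ^ (2 / 3 : ℝ) ≤ C → C ≤ x → ∀ w z : ℕ, Real.log x ^ (3 * U + 9) ≤ w → (w : ℝ) ≤ Real.log x ^ E →
    w ≤ z → (z : ℝ) ≤ (x : ℝ) ^ (1 / 5 : ℝ) →
    ∃ Ex ⊆ Icc 1 C, (#Ex : ℝ) ≤ C / Real.log x ^ U ∧ ∀ c ∈ Icc 1 C, c ∉ Ex →
      |Vc a b c z * V1 w - Vc a b c w * V1 z| ≤ Vc a b c w * V1 z / Real.log x ^ U ∧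
      (Admissible a b c → ∃ S : ℝ, 0 < S ∧ Tendsto (fun y => partialC a b c y) atTop (𝓝 S) ∧
        |eps a b * S * gcdProd a b - Vc a b c w / V1 w| ≤ Vc a b c w / V1 w / Real.log x ^ U) := by
  classical
  obtain ⟨H₀, h0⟩ := tail_gen2 (U + 1) (E + 1) 2 3 (by norm_num) (by norm_num)
  obtain ⟨K, hK⟩ : ∃ K : ℕ, K = (b ^ 2 + 4 * a).toNat := ⟨_, rfl⟩
  have hKz : (K : ℤ) = b ^ 2 + 4 * a := by
    rw [hK]
    exact Int.toNat_of_nonneg (by positivity)
  have hK1 : 1 ≤ K := by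
    have : 0 ≤ b ^ 2 := sq_nonneg b
    omega
  obtain ⟨x1, hx1⟩ := evt_root 5 (3 * U) (by norm_num) 256
  obtain ⟨x2, hx2⟩ := evt_root 10 0 (by norm_num) (16 * (K : ℝ) + 100)
  have hlim : Tendsto (fun N : ℕ => Real.log (N : ℝ)) atTop atTop :=
    Real.tendsto_log_atTop.comp (tendsto_natCast_atTop_atTop (R := ℝ))
  obtain ⟨x3, hx3⟩ := eventually_atTop.1 (hlim.eventually_ge_atTop
    (2 * (H₀ : ℝ) + 4 * K + 2 ^ (U + 6) + 2 ^ (E + 2) + 2000))
  refine ⟨x1 + x2 + x3 + 3, fun x hx C hC1 hC2 w z hw1 hw2 hwz hz => ?_⟩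
  have a1 := hx1 x (by omega)
  have a2 := hx2 x (by omega)
  have a3 := hx3 x (by omega)
  have hx0 : (0 : ℝ) < x := by exact_mod_cast (by omega : 0 < x)
  have hx1r : (1 : ℝ) ≤ x := by exact_mod_cast (by omega : 1 ≤ x)
  obtain ⟨L, hL⟩ : ∃ L, L = Real.log (x : ℝ) := ⟨_, rfl⟩
  rw [← hL] at a1 a3 hw1 hw2 ⊢
  have p1 : (0 : ℝ) < 2 ^ (U + 6) := by positivity
  have p2 : (0 : ℝ) < 2 ^ (E + 2) := by positivity
  have p4 : (0 : ℝ) ≤ H₀ := Nat.cast_nonneg _
  have p5 : (1 : ℝ) ≤ K := by exact_mod_cast hK1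
  have hL2000 : 2000 ≤ L := by linarith
  have hL0 : 0 < L := by linarith
  have hL1 : 1 ≤ L := by linarith
  have hLU : 0 < L ^ U := by positivity
  -- the size of `C`
  have hC0 : (0 : ℝ) < C := lt_of_lt_of_le (Real.rpow_pos_of_pos hx0 _) hC1
  have hC2r : (C : ℝ) ≤ x := by exact_mod_cast hC2
  have hlogC2 : Real.log C ≤ L := by rw [hL]; exact Real.log_le_log hC0 hC2r
  have hlogC1 : L / 2 ≤ Real.log C := by
    have h5 := Real.log_le_log (Real.rpow_pos_of_pos hx0 _) hC1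
    rw [Real.log_rpow hx0, ← hL] at h5
    linarith
  have hlogC0 : 0 < Real.log C := by linarith
  have hLC : L / 2 ≤ C := by
    have h5 := Real.add_one_le_exp (Real.log C)
    rw [Real.exp_log hC0] at h5
    linarith
  have hCH : H₀ ≤ C := by
    have : (H₀ : ℝ) ≤ C := by linarith
    exact_mod_cast this
  have hC1n : 1 ≤ C := by
    have : (0 : ℝ) < C := hC0
    exact_mod_cast this
  have hC1r : (1 : ℝ) ≤ C := by exact_mod_cast hC1n
  have hCK : 2 * K ≤ C := by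
    have h5 : ((2 * K : ℕ) : ℝ) ≤ C := by
      push_cast
      linarith
    exact_mod_cast h5
  -- sizes of `w`
  have hwL : L ≤ w := (le_self_pow₀ hL1 (by omega)).trans hw1
  have hw2000 : (2000 : ℝ) ≤ w := by linarith
  have hw2' : 2 ≤ w := by
    have : (2 : ℝ) ≤ w := by linarith
    exact_mod_cast this
  have hKw : K ≤ w := by
    have : (K : ℝ) ≤ w := by linarith
    exact_mod_cast this
  have haw : a ≤ w := by
    have h5 : (K : ℤ) ≤ w := by exact_mod_cast hKw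
    have : 0 ≤ b ^ 2 := sq_nonneg b
    omega
  have hw0 : (0 : ℝ) < w := by linarith
  -- the linear sequence
  obtain ⟨β, hβ⟩ : ∃ β : ℤ, β = -(4 * a) := ⟨_, rfl⟩
  have hβ0 : β ≠ 0 := by rw [hβ]; omega
  have hval : ∀ k : ℤ, b ^ 2 + β * k = b ^ 2 - 4 * a * k := by
    intro k
    rw [hβ]
    ring
  have hbd : ∀ k ∈ Icc 1 C, (b ^ 2 + β * (k : ℤ)).natAbs ≤ K * C := by
    intro k hk
    rw [mem_Icc] at hk
    rw [hval]
    have h5 : (k : ℤ) ≤ C := by exact_mod_cast hk.2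
    have h6 : (1 : ℤ) ≤ k := by exact_mod_cast hk.1
    have h12 : |b ^ 2 - 4 * a * (k : ℤ)| ≤ (K : ℤ) * C := by
      rw [hKz, abs_le]
      have h13 : 0 ≤ b ^ 2 := sq_nonneg b
      have h14 : a * (k : ℤ) ≤ a * C := mul_le_mul_of_nonneg_left h5 ha.le
      have h15 : 0 ≤ a * (k : ℤ) := mul_nonneg ha.le (by omega)
      have h16 : b ^ 2 * 1 ≤ b ^ 2 * (C : ℤ) := mul_le_mul_of_nonneg_left (by omega) h13
      constructor <;> nlinarith
    have h13 : ((b ^ 2 - 4 * a * (k : ℤ)).natAbs : ℤ) ≤ ((K * C : ℕ) : ℤ) := by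
      rw [Int.natCast_natAbs]
      push_cast
      exact h12
    exact_mod_cast h13
  have hKC2 : K * C ≤ C ^ 2 := by
    rw [sq]
    exact Nat.mul_le_mul_right _ (by omega)
  have hβb : β.natAbs ≤ C ^ 2 := by
    refine le_trans ?_ hKC2
    have h5 : (β.natAbs : ℤ) ≤ ((K * C : ℕ) : ℤ) := by
      rw [Int.natCast_natAbs, hβ, abs_neg, abs_of_nonneg (by positivity)]
      push_cast
      rw [hKz]
      have h8 : (1 : ℤ) ≤ C := by exact_mod_cast hC1n
      have h9 : 0 ≤ b ^ 2 * (C : ℤ) := by positivity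
      nlinarith
    exact_mod_cast h5
  -- the number of the members `d s²`
  obtain ⟨W, hW⟩ : ∃ W : ℝ, W = ((Nat.sqrt (K * C) + 1 : ℕ) : ℝ) := ⟨_, rfl⟩
  have hW0 : 0 ≤ W := by rw [hW]; positivity
  have hWκ : W ^ 3 ≤ (C : ℝ) ^ (3 - 1) := by
    have hs : ((Nat.sqrt (K * C) : ℕ) : ℝ) ^ 2 ≤ K * C := by
      exact_mod_cast Nat.sqrt_le' (K * C)
    have hWs : W ^ 2 ≤ 4 * (K * C) := by
      rw [hW]
      push_cast
      have h5 : (1 : ℝ) ≤ K * C := one_le_mul_of_one_le_of_one_le p5 hC1r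
      nlinarith [sq_nonneg (((Nat.sqrt (K * C) : ℕ) : ℝ) - 1)]
    -- `W ^ 6 ≤ 64 K³ C³ ≤ C⁴`
    have h64 : 64 * (K : ℝ) ^ 3 ≤ C := by
      have hr : 16 * (K : ℝ) + 100 ≤ (x : ℝ) ^ ((1 : ℝ) / 10) := by
        simpa using a2
      have hr0 : 0 ≤ 16 * (K : ℝ) + 100 := by positivity
      have h7 : (16 * (K : ℝ) + 100) ^ 3 ≤ ((x : ℝ) ^ ((1 : ℝ) / 10)) ^ 3 := pow_le_pow_left₀ hr0 hr 3
      have h8 : ((x : ℝ) ^ ((1 : ℝ) / 10)) ^ 3 = (x : ℝ) ^ (3 / 10 : ℝ) := by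
        rw [← Real.rpow_natCast, ← Real.rpow_mul hx0.le]
        norm_num
      have h9 : (x : ℝ) ^ (3 / 10 : ℝ) ≤ (x : ℝ) ^ (2 / 3 : ℝ) :=
        Real.rpow_le_rpow_of_exponent_le hx1r (by norm_num)
      have h10 : 64 * (K : ℝ) ^ 3 ≤ (16 * (K : ℝ) + 100) ^ 3 := by
        have h11 : (4 * (K : ℝ)) ^ 3 ≤ (16 * (K : ℝ) + 100) ^ 3 := pow_le_pow_left₀ (by positivity) (by linarith) 3
        calc 64 * (K : ℝ) ^ 3 = (4 * (K : ℝ)) ^ 3 := by ring
          _ ≤ _ := h11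
      linarith
    have h6 : (W ^ 3) ^ 2 ≤ ((C : ℝ) ^ (3 - 1)) ^ 2 := by
      calc (W ^ 3) ^ 2 = (W ^ 2) ^ 3 := by ring
        _ ≤ (4 * ((K : ℝ) * (C : ℝ))) ^ 3 := pow_le_pow_left₀ (by positivity) hWs 3
        _ = (64 * (K : ℝ) ^ 3) * (C : ℝ) ^ 3 := by ring
        _ ≤ (C : ℝ) * (C : ℝ) ^ 3 := mul_le_mul_of_nonneg_right h64 (by positivity)
        _ = ((C : ℝ) ^ (3 - 1)) ^ 2 := by ring
    exact le_of_pow_le_pow_left₀ (by norm_num) (by positivity) h6
  have h2U : (2 : ℝ) ^ (U + 6) = 64 * 2 ^ U := by ring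
  have p2U : (0 : ℝ) < 2 ^ U := by positivity
  obtain ⟨Ex2, hEx1, hEx2⟩ := h0 C hCH w (by
      calc Real.log C ^ (3 * (U + 1) + 3) ≤ L ^ (3 * (U + 1) + 3) := pow_le_pow_left₀ hlogC0.le hlogC2 _
        _ ≤ L ^ (3 * U + 9) := pow_le_pow_right₀ hL1 (by omega)
        _ ≤ w := hw1) (by
      calc (w : ℝ) ≤ L ^ E := hw2
        _ ≤ (2 * Real.log C) ^ E := pow_le_pow_left₀ hL0.le (by linarith) _
        _ = 2 ^ E * Real.log C ^ E := mul_pow _ _ _
        _ ≤ Real.log C * Real.log C ^ E := by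
            apply mul_le_mul_of_nonneg_right _ (by positivity)
            have : (2 : ℝ) ^ (E + 2) = 4 * 2 ^ E := by ring
            have : (0 : ℝ) < 2 ^ E := by positivity
            linarith
        _ = Real.log C ^ (E + 1) := by ring)
    (fun k : ℕ => b ^ 2 + β * (k : ℤ)) β hβ0 hβb (fun k hk => (hbd k hk).trans hKC2)
    (fun P Z hP τ hτ => by
      have h5 := low_count_lin (b ^ 2) β P w Z (C + 1) (by omega) hP τ hτ
      exact h5)
    W hW0 (fun d => by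
      rw [hW]
      exact_mod_cast sol_lin (b ^ 2) β hβ0 C (K * C) hbd d) hWκ
  -- the second exceptional set
  obtain ⟨τ, hτ⟩ : ∃ τ : ℝ, τ = 1 / (8 * L ^ U) := ⟨_, rfl⟩
  have hτ0 : 0 < τ := by rw [hτ]; positivity
  obtain ⟨P, hP⟩ : ∃ P : Finset ℕ, P = (Ioc w z).filter Nat.Prime := ⟨_, rfl⟩
  have hcnt := low_count_lin (b ^ 2) β P w z (C + 1) (by omega) (by
    intro p hp
    rw [hP, mem_filter, mem_Ioc] at hp
    obtain ⟨⟨h1, h2⟩, h3⟩ := hp
    refine ⟨h3, by omega, h1, h2, ?_⟩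
    rw [hβ, dvd_neg]
    intro h4
    rcases (Nat.prime_iff_prime_int.1 h3).dvd_or_dvd h4 with h5 | h5
    · have h6 : p ∣ 4 := by exact_mod_cast h5
      have h7 := Nat.le_of_dvd (by norm_num) h6
      have h8 : (2000 : ℕ) ≤ w := by exact_mod_cast hw2000
      omega
    · exact not_dvd_of_lt ha (by omega) h5) τ hτ0
  obtain ⟨Ex1, hE1⟩ : ∃ Ex1 : Finset ℕ, Ex1 = (range (C + 1)).filter (fun c : ℕ => τ < |∑ p ∈ P, (jacobiSym (b ^ 2 + β * (c : ℤ)) p : ℝ) / p|) := ⟨_, rfl⟩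
  rw [← hE1] at hcnt
  refine ⟨(Ex1 ∪ Ex2) ∩ Icc 1 C, inter_subset_right, ?_, ?_⟩
  · have hcard : (#((Ex1 ∪ Ex2) ∩ Icc 1 C) : ℝ) ≤ #Ex1 + #Ex2 := by
      have := (card_le_card (inter_subset_left (s₁ := Ex1 ∪ Ex2) (s₂ := Icc 1 C))).trans (card_union_le Ex1 Ex2)
      exact_mod_cast this
    have hb1 : (#Ex1 : ℝ) ≤ C / L ^ U / 2 := by
      refine hcnt.trans ?_
      have e1 : (1 : ℝ) / τ ^ 2 = 64 * (L ^ U) ^ 2 := by
        rw [hτ]
        field_simp
        norm_num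
      rw [div_eq_mul_one_div, e1]
      have h6 : 2 * (((C + 1 : ℕ) : ℝ) / w) ≤ 4 * C / L ^ (3 * U + 9) := by
        push_cast
        rw [← mul_div_assoc, div_le_div_iff₀ hw0 (by positivity)]
        have h7 : 2 * ((C : ℝ) + 1) ≤ 4 * C := by linarith
        exact mul_le_mul h7 hw1 (by positivity) (by positivity)
      have h7 : (z : ℝ) ^ 2 ≤ (x : ℝ) ^ (2 / 5 : ℝ) := by
        calc (z : ℝ) ^ 2 ≤ ((x : ℝ) ^ (1 / 5 : ℝ)) ^ 2 := pow_le_pow_left₀ (by positivity) hz 2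
          _ = (x : ℝ) ^ (2 / 5 : ℝ) := by
              rw [← Real.rpow_natCast, ← Real.rpow_mul hx0.le]
              norm_num
      have h8 : 4 * (C : ℝ) / L ^ (3 * U + 9) * (64 * (L ^ U) ^ 2) ≤ C / L ^ U / 4 := by
        have e2 : L ^ (3 * U + 9) = (L ^ U) ^ 3 * L ^ 9 := by ring
        rw [e2]
        have e3 : 4 * (C : ℝ) / ((L ^ U) ^ 3 * L ^ 9) * (64 * (L ^ U) ^ 2) = C / L ^ U * (256 / L ^ 9) := by
          field_simp
          norm_num
        rw [e3, div_eq_mul_one_div (C / L ^ U) 4]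
        apply mul_le_mul_of_nonneg_left _ (by positivity)
        rw [div_le_div_iff₀ (by positivity) (by norm_num)]
        have : L ≤ L ^ 9 := le_self_pow₀ hL1 (by norm_num)
        linarith
      have h9 : (x : ℝ) ^ (2 / 5 : ℝ) * (64 * (L ^ U) ^ 2) ≤ C / L ^ U / 4 := by
        rw [div_div, le_div_iff₀ (by positivity)]
        have e3 : (x : ℝ) ^ (2 / 5 : ℝ) * (64 * (L ^ U) ^ 2) * (L ^ U * 4) = (256 * L ^ (3 * U)) * (x : ℝ) ^ (2 / 5 : ℝ) := by
          ring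
        rw [e3]
        have h10 : 256 * L ^ (3 * U) ≤ (x : ℝ) ^ (1 / 5 : ℝ) := by
          simpa using a1
        calc (256 * L ^ (3 * U)) * (x : ℝ) ^ (2 / 5 : ℝ) ≤ (x : ℝ) ^ (1 / 5 : ℝ) * (x : ℝ) ^ (2 / 5 : ℝ) := by
              gcongr
          _ = (x : ℝ) ^ (3 / 5 : ℝ) := by
              rw [← Real.rpow_add hx0]
              norm_num
          _ ≤ (x : ℝ) ^ (2 / 3 : ℝ) := Real.rpow_le_rpow_of_exponent_le hx1r (by norm_num)
          _ ≤ C := hC1
      have h10 : 0 < 64 * (L ^ U) ^ 2 := by positivity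
      calc (2 * (((C + 1 : ℕ) : ℝ) / w) + (z : ℝ) ^ 2) * (64 * (L ^ U) ^ 2)
          ≤ (4 * C / L ^ (3 * U + 9) + (x : ℝ) ^ (2 / 5 : ℝ)) * (64 * (L ^ U) ^ 2) := by gcongr
        _ = 4 * C / L ^ (3 * U + 9) * (64 * (L ^ U) ^ 2) + (x : ℝ) ^ (2 / 5 : ℝ) * (64 * (L ^ U) ^ 2) := by ring
        _ ≤ C / L ^ U / 2 := by linarith
    have hb2 : (#Ex2 : ℝ) ≤ C / L ^ U / 2 := by
      refine hEx1.trans ?_
      rw [div_div, div_le_div_iff₀ (by positivity) (by positivity)]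
      apply mul_le_mul_of_nonneg_left _ hC0.le
      calc L ^ U * 2 ≤ (2 * Real.log C) ^ U * 2 :=
            mul_le_mul_of_nonneg_right (pow_le_pow_left₀ hL0.le (by linarith) _) (by norm_num)
        _ = (2 * 2 ^ U) * Real.log C ^ U := by rw [mul_pow]; ring
        _ ≤ Real.log C * Real.log C ^ U := by
            apply mul_le_mul_of_nonneg_right _ (by positivity)
            linarith
        _ = Real.log C ^ (U + 1) := by ring
    linarith
  · intro c hc hcE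
    rw [mem_inter, mem_union, not_and'] at hcE
    have hcE' := hcE hc
    rw [not_or] at hcE'
    obtain ⟨g1, g2⟩ := hcE'
    have hcC := mem_Icc.1 hc
    obtain ⟨f1, f2⟩ := hEx2 c hc g2
    rw [hval] at f1
    obtain ⟨D, hD⟩ : ∃ D : ℤ, D = b ^ 2 - 4 * a * (c : ℤ) := ⟨_, rfl⟩
    rw [← hD] at f1
    have hδ : 1 / Real.log C ^ (U + 1) ≤ 1 / (8 * L ^ U) := by
      apply one_div_le_one_div_of_le (by positivity)
      calc 8 * L ^ U ≤ 8 * (2 * Real.log C) ^ U := by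
            apply mul_le_mul_of_nonneg_left _ (by norm_num)
            exact pow_le_pow_left₀ hL0.le (by linarith) _
        _ = (8 * 2 ^ U) * Real.log C ^ U := by rw [mul_pow]; ring
        _ ≤ Real.log C * Real.log C ^ U := by
            apply mul_le_mul_of_nonneg_right _ (by positivity)
            linarith
        _ = Real.log C ^ (U + 1) := by ring
    have h5w : 5 / (w : ℝ) ≤ 1 / (8 * L ^ U) := by
      rw [div_le_div_iff₀ hw0 (by positivity)]
      calc 5 * (8 * L ^ U) = 40 * L ^ U := by ring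
        _ ≤ L * L ^ U := mul_le_mul_of_nonneg_right (by linarith) hLU.le
        _ = L ^ (U + 1) := by ring
        _ ≤ L ^ (3 * U + 9) := pow_le_pow_right₀ hL1 (by omega)
        _ ≤ 1 * w := by rw [one_mul]; exact hw1
    have hsum : 1 / (8 * L ^ U) + 5 / (w : ℝ) ≤ 1 / (4 * L ^ U) := by
      have e1 : 1 / (4 * L ^ U) = 1 / (8 * L ^ U) + 1 / (8 * L ^ U) := by
        field_simp
        norm_num
      linarith
    have hL1U : 1 ≤ L ^ U := one_le_pow₀ hL1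
    have hq : 1 / (4 * L ^ U) ≤ 1 / 4 := one_div_le_one_div_of_le (by norm_num) (by linarith)
    have hfin : 2 * (1 / (8 * L ^ U) + 5 / (w : ℝ)) ≤ 1 / L ^ U := by
      have e1 : 1 / L ^ U = 4 * (1 / (4 * L ^ U)) := by
        field_simp
      have e2 : 0 < 1 / (4 * L ^ U) := by positivity
      linarith
    have h80 : (0 : ℝ) ≤ 1 / (8 * L ^ U) := by positivity
    constructor
    · have h1 : |SJ D w z| ≤ 1 / (8 * L ^ U) := by
        rw [hE1, mem_filter, not_and] at g1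
        have h2 := g1 (by rw [mem_range]; omega)
        rw [not_lt, hval, ← hD, hP] at h2
        rw [← hτ]
        exact h2
      have h2 := PJ_close hw2' hwz h80 (by linarith) h1
      have h3 : Vc a b c z * V1 w - Vc a b c w * V1 z = Vc a b c w * V1 z * (PJ D w z - 1) := by
        rw [Vc_split ha hw2' haw hwz, ← hD]
        ring
      have h4 : 0 ≤ Vc a b c w * V1 z := mul_nonneg (Vc_nonneg _ _ _ _) (V1_pos _).le
      rw [h3, abs_mul, abs_of_nonneg h4, div_eq_mul_one_div _ (L ^ U)]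
      exact mul_le_mul_of_nonneg_left (h2.trans hfin) h4
    · intro hadm
      obtain ⟨l, hl0, hl⟩ := PJ_tendsto D f1 w hw2'
      have hcl : |l - 1| ≤ 2 * (1 / (8 * L ^ U) + 5 / (w : ℝ)) := by
        have h1 : Tendsto (fun N => |PJ D w N - 1|) atTop (𝓝 |l - 1|) :=
          ((hl.sub_const 1).abs)
        apply le_of_tendsto h1
        filter_upwards [f2, eventually_ge_atTop w] with N h2 hN
        rw [hval, ← hD] at h2
        exact PJ_close hw2' hN h80 (by linarith) (h2.trans hδ)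
      refine ⟨partialC a b c w * l, mul_pos (partialC_pos _ _ _ _) hl0, ?_, ?_⟩
      · refine (hl.const_mul (partialC a b c w)).congr' ?_
        filter_upwards [eventually_ge_atTop w] with N hN
        rw [partialC_split ha hw2' haw hN, ← hD]
      · rw [V_ratio hadm hw2' haw]
        have h3 : eps a b * (partialC a b c w * l) * gcdProd a b - eps a b * gcdProd a b * partialC a b c w =
            eps a b * gcdProd a b * partialC a b c w * (l - 1) := by ring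
        have h4 : 0 ≤ eps a b * gcdProd a b * partialC a b c w :=
          (mul_pos (mul_pos (eps_pos _ _) (gcdProd_pos _ _)) (partialC_pos _ _ _ _)).le
        rw [h3, abs_mul, abs_of_nonneg h4, div_eq_mul_one_div _ (L ^ U)]
        exact mul_le_mul_of_nonneg_left (hcl.trans hfin) h4

end Pool.Agent.N791.E2
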