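import Mathlib
import Pool.Agent.N792.SingP

/-!
The singular series is bounded below for most `c ≤ C`, `C ≥ x^(2/3)` (after `N792/SingP`).
-/

set_option autoImplicit false

namespace Pool.Agent.N791.E2

open Finset Filter Topology
open Pool.Agent.N792

/-- Powers of the logarithm are smaller than powers. -/
lemma log_pow_le3 (E : ℕ) (ε : ℝ) (hε : 0 < ε) : ∃ x0 : ℕ, ∀ x : ℕ, x0 ≤ x →
    Real.log x ^ E ≤ ε * (x : ℝ) ^ (2 / 3 : ℝ) := by
  have h1 : (fun x : ℝ => Real.log x ^ E) =o[atTop] fun x : ℝ => x ^ (2 / 3 : ℝ) := by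
    have := isLittleO_log_rpow_rpow_atTop (E : ℝ) (by norm_num : (0 : ℝ) < 2 / 3)
    simpa [Real.rpow_natCast] using this
  have h2 := (h1.bound hε).natCast_atTop
  obtain ⟨x0, hx0⟩ := eventually_atTop.mp h2
  refine ⟨max x0 1, fun x hx => ?_⟩
  have h3 := hx0 x ((le_max_left _ _).trans hx)
  have h4 : (0 : ℝ) ≤ Real.log x := Real.log_natCast_nonneg x
  rw [Real.norm_of_nonneg (by positivity), Real.norm_of_nonneg (by positivity)] at h3
  exact h3

theorem sing_pos3 (a : ℤ) (ha : 0 < a) (b : ℤ) (η : ℝ) (hη : 0 < η) (E : ℕ) :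
    ∃ θ : ℝ, 0 < θ ∧ ∃ x0 : ℕ, ∀ x : ℕ, x0 ≤ x →
    ∀ C : ℕ, (x : ℝ) ^ (2 / 3 : ℝ) ≤ C → C ≤ x → ∀ w : ℕ, (w : ℝ) ≤ Real.log x ^ E →
    ∃ Ex ⊆ Icc 1 C, (#Ex : ℝ) ≤ η * C ∧ ∀ c ∈ Icc 1 C, c ∉ Ex → Admissible a b c →
      θ ≤ Vc a b c w / V1 w := by
  obtain ⟨w0, hw0⟩ := exists_nat_gt (max (2 * (a : ℝ)) (4 / η))
  have hw1 : 2 * a < w0 := by
    have := (le_max_left _ _).trans_lt hw0
    exact_mod_cast this
  have hw2 : 4 / η < w0 := (le_max_right _ _).trans_lt hw0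
  have hw3 : 2 ≤ w0 := by omega
  have hw4 : (0 : ℝ) < w0 := by
    have : 0 < w0 := by omega
    exact_mod_cast this
  obtain ⟨x0, hx0⟩ := log_pow_le3 (2 * E) (η / 10) (by positivity)
  refine ⟨Real.exp (-2) / 4 ^ w0, by positivity, x0, fun x hx C hC1 hC2 w hw => ?_⟩
  refine ⟨(Icc 1 C).filter fun c => 1 < |SS a b c w0 w|, filter_subset _ _, ?_, ?_⟩
  · have h1 := card_large a ha b w0 w C hw1 1 one_pos
    rw [one_pow, mul_one] at h1
    have h2 : 2 * (C : ℝ) / w0 ≤ η / 2 * C := by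
      rw [div_le_iff₀ hw4]
      have : 4 ≤ η * w0 := by
        rw [div_lt_iff₀ hη] at hw2; linarith
      nlinarith [(Nat.cast_nonneg C : (0 : ℝ) ≤ C)]
    have h3 : (w : ℝ) ^ 2 ≤ η / 10 * C := by
      calc (w : ℝ) ^ 2 ≤ (Real.log x ^ E) ^ 2 := pow_le_pow_left₀ (Nat.cast_nonneg _) hw 2
        _ = Real.log x ^ (2 * E) := by rw [← pow_mul, mul_comm]
        _ ≤ η / 10 * (x : ℝ) ^ (2 / 3 : ℝ) := hx0 x hx
        _ ≤ η / 10 * C := mul_le_mul_of_nonneg_left hC1 (by positivity)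
    linarith
  · intro c hc hcE hadm
    have h1 : |SS a b c w0 w| ≤ 1 := by
      by_contra h
      exact hcE (mem_filter.mpr ⟨hc, not_le.mp h⟩)
    have he : Real.exp (-2) ≤ 1 := Real.exp_le_one_iff.mpr (by norm_num)
    rcases le_total w w0 with h | h
    · rw [le_div_iff₀ (V1_pos w)]
      have h2 := Vc_ge a b c hadm w w0 h
      have h3 : Real.exp (-2) / 4 ^ w0 * V1 w ≤ 1 / 4 ^ w0 := by
        calc Real.exp (-2) / 4 ^ w0 * V1 w ≤ Real.exp (-2) / 4 ^ w0 * 1 :=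
              mul_le_mul_of_nonneg_left (V1_le_one w) (by positivity)
          _ ≤ 1 / 4 ^ w0 := by rw [mul_one]; gcongr
      linarith
    · have h2 := Vc_split a ha b c w0 w hw1 h
      have h3 : Vc a b c w / V1 w = Vc a b c w0 / V1 w0 * PP a b c w0 w := by
        have := (V1_pos w).ne'
        have := (V1_pos w0).ne'
        field_simp
        linarith
      rw [h3]
      have h4 := Vc_ge a b c hadm w0 w0 le_rfl
      have h5 : 1 / (4 : ℝ) ^ w0 ≤ Vc a b c w0 / V1 w0 := by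
        rw [le_div_iff₀ (V1_pos w0)]
        have : 1 / (4 : ℝ) ^ w0 * V1 w0 ≤ 1 / (4 : ℝ) ^ w0 * 1 :=
          mul_le_mul_of_nonneg_left (V1_le_one w0) (by positivity)
        linarith
      have h6 : Real.exp (-2) ≤ PP a b c w0 w := by
        refine le_trans (Real.exp_le_exp.mpr ?_) (PP_ge a b c w0 w hw3)
        have h7 := (abs_le.mp h1).2
        have h8 : (2 : ℝ) / w0 ≤ 1 := by
          rw [div_le_one hw4]; exact_mod_cast hw3
        linarith
      calc Real.exp (-2) / 4 ^ w0 = 1 / 4 ^ w0 * Real.exp (-2) := by ring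
        _ ≤ Vc a b c w0 / V1 w0 * PP a b c w0 w :=
          mul_le_mul h5 h6 (Real.exp_pos _).le (le_trans (by positivity) h5)

end Pool.Agent.N791.E2
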