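import Mathlib
import Pool.Agent.N792.Rh2

/-!
The average of `(D_c / d)`, `D_c = b² - 4 a c`, over rough numbers `d > x^(1/2)`, for almost all `c ≤ C`: fourth moments
(after `N792/Rh2`), dyadic ranges.
-/

set_option autoImplicit false

namespace Pool.Agent.N791.E2

open Finset Filter Topology
open Pool.Agent.N792

/-- one dyadic range -/
lemma rho_dy (a : ℤ) (ha : 0 < a) (b : ℤ) (ε : ℝ) (hε : 0 < ε) (hε1 : ε ≤ 1 / 100) :
    ∃ x0 : ℕ, ∀ x : ℕ, x0 ≤ x → ∀ (C y0 y z : ℕ) (B : ℝ) (u : ℕ → ℝ), (x : ℝ) ^ (2 / 3 : ℝ) ≤ C → C ≤ x →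
    (x : ℝ) ^ (4 + ε) ≤ (C : ℝ) ^ 3 * (y0 : ℝ) ^ 2 → y ≤ 2 * y0 → y ≤ x → 2 * a < z → 0 ≤ B → (∀ d, |u d| ≤ B / d) →
    (∀ d, u d ≠ 0 → Rough z d) →
    ∑ c ∈ Icc 1 C, |∑ d ∈ Ioc y0 y, u d * ((jacobiSym (b ^ 2 - 4 * a * (c : ℕ)) d : ℤ) : ℝ)| ≤ C * B / Real.log x ^ 6 := by
  classical
  obtain ⟨K, hK0, hK⟩ := Pool.Agent.Helper112.divisor_bound (ε / 16) (by positivity)
  set Ka : ℝ := b ^ 2 + 4 * a with hKa
  have haR : (1 : ℝ) ≤ a := by exact_mod_cast ha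
  have hKa1 : 1 ≤ Ka := by
    rw [hKa]
    have : (0 : ℝ) ≤ (b : ℝ) ^ 2 := sq_nonneg _
    linarith
  have e1 : ∀ᶠ x : ℕ in atTop, (200 : ℝ) ≤ Real.log x := Shp.log_ge 200
  have e4 := ev_log_pow (K ^ 2 * (8 * Ka + 40 * Ka)) 25 (δ := ε / 4) (by positivity)
  have e5 := ev_log_pow (2 * Ka) 0 (by norm_num : (0 : ℝ) < 1)
  obtain ⟨x0, hx0⟩ := eventually_atTop.1 ((e1.and e4).and e5)
  refine ⟨max x0 3, fun x hx C y0 y z B u hC1 hC2 hCU hy2 hyx hza hB0 hu hu0 => ?_⟩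
  obtain ⟨⟨f1, f4⟩, f5⟩ := hx0 x ((le_max_left _ _).trans hx)
  have hx3 : 3 ≤ x := (le_max_right _ _).trans hx
  rw [pow_zero, mul_one] at f5
  rw [Real.rpow_one] at f5
  have hxpos : (0 : ℝ) < x := by
    have : 0 < x := by omega
    exact_mod_cast this
  have hx1' : (1 : ℝ) ≤ x := by
    have : 1 ≤ x := by omega
    exact_mod_cast this
  set L := Real.log x with hL
  have hL0 : 0 < L := by linarith
  have hC0 : (0 : ℝ) < C := lt_of_lt_of_le (Real.rpow_pos_of_pos hxpos _) hC1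
  have hCx : (C : ℝ) ≤ x := by exact_mod_cast hC2
  have hy0pos : (0 : ℝ) < y0 := by
    rcases Nat.eq_zero_or_pos y0 with h | h
    · rw [h] at hCU
      have : 0 < (x : ℝ) ^ (4 + ε) := Real.rpow_pos_of_pos hxpos _
      norm_num at hCU
      linarith
    · exact_mod_cast h
  have hy01 : 1 ≤ y0 := by exact_mod_cast hy0pos
  set J : ℕ → ℕ → ℝ := fun c d => ((jacobiSym (b ^ 2 - 4 * a * (c : ℕ)) d : ℤ) : ℝ) with hJ
  set S2 : ℕ → ℝ := fun c => ∑ d ∈ Ioc y0 y, u d * J c d with hS2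
  set M : ℕ := b.natAbs ^ 2 + 4 * a.natAbs * C with hM
  have hCn : 1 ≤ C := by exact_mod_cast hC0
  have haN : 1 ≤ a.natAbs := by
    have := Int.natAbs_pos.2 ha.ne'
    omega
  have hM1 : 1 ≤ M := by
    rw [hM]
    have : 1 ≤ a.natAbs * C := Nat.mul_pos haN hCn
    nlinarith
  have hMc : ∀ c ∈ Icc 1 C, (b ^ 2 - 4 * a * (c : ℤ)).natAbs ≤ M := by
    intro c hc
    rw [mem_Icc] at hc
    have h1 : (b ^ 2 - 4 * a * (c : ℤ)).natAbs ≤ (b ^ 2).natAbs + (4 * a * (c : ℤ)).natAbs := Int.natAbs_sub_le _ _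
    rw [Int.natAbs_pow, Int.natAbs_mul, Int.natAbs_mul, Int.natAbs_natCast] at h1
    refine h1.trans ?_
    rw [hM]
    apply Nat.add_le_add_left
    exact Nat.mul_le_mul_left _ hc.2
  have hMR : (M : ℝ) ≤ Ka * C := by
    have h1 : (M : ℝ) = (b : ℝ) ^ 2 + 4 * a * C := by
      rw [hM]
      push_cast
      have e1 : ((b.natAbs : ℕ) : ℝ) ^ 2 = (b : ℝ) ^ 2 := by
        rw [Nat.cast_natAbs]
        push_cast
        rw [sq_abs]
      have e2 : ((a.natAbs : ℕ) : ℝ) = (a : ℝ) := by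
        rw [Nat.cast_natAbs, abs_of_pos ha]
      rw [e1, e2]
    rw [h1, hKa]
    have h3 : (0 : ℝ) ≤ (b : ℝ) ^ 2 := sq_nonneg _
    have h4 : (1 : ℝ) ≤ C := by exact_mod_cast hCn
    nlinarith
  have hM1R : (1 : ℝ) ≤ M := by exact_mod_cast hM1
  have hT : ∀ l : ℕ, 1 ≤ l → l ≤ y ^ 2 → (#l.divisors : ℝ) ≤ K * (x : ℝ) ^ (ε / 8) := by
    intro l hl1 hl2
    refine (hK l hl1).trans ?_
    apply mul_le_mul_of_nonneg_left _ hK0.le
    calc (l : ℝ) ^ (ε / 16) ≤ ((x : ℝ) ^ (2 : ℝ)) ^ (ε / 16) := by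
          apply Real.rpow_le_rpow (by positivity) _ (by positivity)
          rw [Real.rpow_ofNat]
          exact_mod_cast hl2.trans (Nat.pow_le_pow_left hyx 2)
      _ = _ := by
          rw [← Real.rpow_mul hxpos.le]
          congr 1
          ring
  have hfour := Rh2.fourth a ha b C y0 y z M B (K * (x : ℝ) ^ (ε / 8)) u hB0 hza hy01 hu hu0 hT hMc hM1
  have hlog : 1 + Real.log (4 * (M : ℝ) ^ 2) ≤ 5 * L := by
    have h3 : Real.log (4 * (M : ℝ) ^ 2) ≤ Real.log ((x : ℝ) ^ 4) := by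
      apply Real.log_le_log (by positivity)
      calc 4 * (M : ℝ) ^ 2 ≤ 4 * (Ka * x) ^ 2 := by
            gcongr
            exact hMR.trans (mul_le_mul_of_nonneg_left hCx (by linarith))
        _ = (2 * Ka) ^ 2 * (x : ℝ) ^ 2 := by ring
        _ ≤ (x : ℝ) ^ 2 * (x : ℝ) ^ 2 := by gcongr
        _ = _ := by ring
    rw [Real.log_pow] at h3
    push_cast at h3
    linarith
  have hlog0 : 0 ≤ 1 + Real.log (4 * (M : ℝ) ^ 2) := by
    have : 0 ≤ Real.log (4 * (M : ℝ) ^ 2) := Real.log_nonneg (by nlinarith)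
    linarith
  -- the two terms
  have hxε : (0 : ℝ) < (x : ℝ) ^ (ε / 2) := by positivity
  have hta : (y : ℝ) ^ 2 * (√M + 1) ≤ (8 * Ka) * ((C : ℝ) / (x : ℝ) ^ (ε / 2)) * (y0 : ℝ) ^ 2 := by
    have h1 : √(M : ℝ) + 1 ≤ 2 * Ka * √(C : ℝ) := by
      have h2 : √(M : ℝ) ≤ Ka * √(C : ℝ) := by
        rw [Real.sqrt_le_iff]
        refine ⟨by positivity, ?_⟩
        rw [mul_pow, Real.sq_sqrt hC0.le]
        refine hMR.trans ?_
        apply mul_le_mul_of_nonneg_right _ hC0.le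
        nlinarith
      have h3 : 1 ≤ Ka * √(C : ℝ) := by
        have : 1 ≤ √(C : ℝ) := Real.one_le_sqrt.2 (by exact_mod_cast hCn)
        nlinarith
      linarith
    have h4 : √(C : ℝ) ≤ C / (x : ℝ) ^ (ε / 2) := by
      rw [le_div_iff₀ hxε]
      have h5 : (x : ℝ) ^ (ε / 2) ≤ √(C : ℝ) := by
        rw [Real.sqrt_eq_rpow]
        calc (x : ℝ) ^ (ε / 2) ≤ (x : ℝ) ^ (2 / 3 * (1 / 2) : ℝ) := Real.rpow_le_rpow_of_exponent_le hx1' (by linarith)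
          _ = ((x : ℝ) ^ (2 / 3 : ℝ)) ^ (1 / 2 : ℝ) := by rw [Real.rpow_mul hxpos.le]
          _ ≤ (C : ℝ) ^ (1 / 2 : ℝ) := Real.rpow_le_rpow (by positivity) hC1 (by norm_num)
      calc √(C : ℝ) * (x : ℝ) ^ (ε / 2) ≤ √(C : ℝ) * √(C : ℝ) := mul_le_mul_of_nonneg_left h5 (by positivity)
        _ = C := Real.mul_self_sqrt hC0.le
    have h6 : (y : ℝ) ^ 2 ≤ 4 * (y0 : ℝ) ^ 2 := by
      have : (y : ℝ) ≤ 2 * y0 := by exact_mod_cast hy2
      calc (y : ℝ) ^ 2 ≤ (2 * y0) ^ 2 := pow_le_pow_left₀ (by positivity) this 2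
        _ = _ := by ring
    calc (y : ℝ) ^ 2 * (√M + 1) ≤ (4 * (y0 : ℝ) ^ 2) * (2 * Ka * (C / (x : ℝ) ^ (ε / 2))) := by
          apply mul_le_mul h6 _ (by positivity) (by positivity)
          exact h1.trans (mul_le_mul_of_nonneg_left h4 (by positivity))
      _ = _ := by ring
  have htb : (C : ℝ) * (8 * M * (1 + Real.log (4 * (M : ℝ) ^ 2))) ≤
      (40 * Ka) * L * ((C : ℝ) / (x : ℝ) ^ (ε / 2)) * (y0 : ℝ) ^ 2 := by
    have h1 : (C : ℝ) ≤ (y0 : ℝ) ^ 2 / (x : ℝ) ^ (ε / 2) := by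
      rw [le_div_iff₀ hxε]
      have h2 : ((C : ℝ) * (x : ℝ) ^ (ε / 2)) * (x : ℝ) ^ (3 : ℝ) ≤ (y0 : ℝ) ^ 2 * (x : ℝ) ^ (3 : ℝ) := by
        calc ((C : ℝ) * (x : ℝ) ^ (ε / 2)) * (x : ℝ) ^ (3 : ℝ) ≤ (x * (x : ℝ) ^ ε) * (x : ℝ) ^ (3 : ℝ) := by
              apply mul_le_mul_of_nonneg_right _ (by positivity)
              apply mul_le_mul hCx _ (by positivity) hxpos.le
              exact Real.rpow_le_rpow_of_exponent_le hx1' (by linarith)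
          _ = (x : ℝ) ^ (4 + ε) := by
              nth_rw 1 [← Real.rpow_one (x : ℝ)]
              rw [← Real.rpow_add hxpos, ← Real.rpow_add hxpos]
              congr 1
              ring
          _ ≤ (C : ℝ) ^ 3 * (y0 : ℝ) ^ 2 := hCU
          _ ≤ (x : ℝ) ^ 3 * (y0 : ℝ) ^ 2 := by gcongr
          _ = _ := by
              rw [← Real.rpow_natCast (x : ℝ) 3]
              push_cast
              ring
      exact le_of_mul_le_mul_right h2 (by positivity)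
    calc (C : ℝ) * (8 * M * (1 + Real.log (4 * (M : ℝ) ^ 2))) ≤ ((y0 : ℝ) ^ 2 / (x : ℝ) ^ (ε / 2)) * (8 * (Ka * C) * (5 * L)) := by
          apply mul_le_mul h1 _ (by positivity) (by positivity)
          apply mul_le_mul _ hlog hlog0 (by positivity)
          exact mul_le_mul_of_nonneg_left hMR (by norm_num)
      _ = _ := by ring
  have hL1 : 1 ≤ L := by linarith
  have hS4 : ∑ c ∈ Icc 1 C, S2 c ^ 4 ≤ C * B ^ 4 / L ^ 24 := by
    refine hfour.trans ?_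
    have hT2 : (K * (x : ℝ) ^ (ε / 8)) ^ 2 = K ^ 2 * (x : ℝ) ^ (ε / 4) := by
      rw [mul_pow, ← Real.rpow_natCast ((x : ℝ) ^ (ε / 8)) 2, ← Real.rpow_mul hxpos.le]
      congr 2
      push_cast
      ring
    have hsum : (y : ℝ) ^ 2 * (√M + 1) + (C : ℝ) * (8 * M * (1 + Real.log (4 * (M : ℝ) ^ 2))) ≤
        (8 * Ka + 40 * Ka) * L * ((C : ℝ) / (x : ℝ) ^ (ε / 2)) * (y0 : ℝ) ^ 2 := by
      have h1 : (8 * Ka) * ((C : ℝ) / (x : ℝ) ^ (ε / 2)) * (y0 : ℝ) ^ 2 ≤ (8 * Ka) * L * ((C : ℝ) / (x : ℝ) ^ (ε / 2)) * (y0 : ℝ) ^ 2 := by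
        have : 8 * Ka ≤ 8 * Ka * L := le_mul_of_one_le_right (by linarith) hL1
        gcongr
      calc _ ≤ (8 * Ka) * ((C : ℝ) / (x : ℝ) ^ (ε / 2)) * (y0 : ℝ) ^ 2 + (40 * Ka) * L * ((C : ℝ) / (x : ℝ) ^ (ε / 2)) * (y0 : ℝ) ^ 2 :=
            add_le_add hta htb
        _ ≤ (8 * Ka) * L * ((C : ℝ) / (x : ℝ) ^ (ε / 2)) * (y0 : ℝ) ^ 2 + (40 * Ka) * L * ((C : ℝ) / (x : ℝ) ^ (ε / 2)) * (y0 : ℝ) ^ 2 :=
            add_le_add_left h1 _
        _ = _ := by ring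
    calc ((K * (x : ℝ) ^ (ε / 8)) ^ 2 * B ^ 4 / (y0 : ℝ) ^ 2) *
            ((y : ℝ) ^ 2 * (√M + 1) + C * (8 * M * (1 + Real.log (4 * (M : ℝ) ^ 2)))) ≤
            ((K * (x : ℝ) ^ (ε / 8)) ^ 2 * B ^ 4 / (y0 : ℝ) ^ 2) *
            ((8 * Ka + 40 * Ka) * L * ((C : ℝ) / (x : ℝ) ^ (ε / 2)) * (y0 : ℝ) ^ 2) :=
              mul_le_mul_of_nonneg_left hsum (by positivity)
      _ = ((K ^ 2 * (8 * Ka + 40 * Ka)) * L ^ 25) * ((x : ℝ) ^ (ε / 4) / (x : ℝ) ^ (ε / 2)) * (C * B ^ 4 / L ^ 24) := by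
          rw [hT2]
          field_simp
      _ ≤ (x : ℝ) ^ (ε / 4) * ((x : ℝ) ^ (ε / 4) / (x : ℝ) ^ (ε / 2)) * (C * B ^ 4 / L ^ 24) := by
          gcongr
      _ = 1 * (C * B ^ 4 / L ^ 24) := by
          congr 1
          rw [← Real.rpow_sub hxpos, ← Real.rpow_add hxpos]
          have : ε / 4 + (ε / 4 - ε / 2) = 0 := by ring
          rw [this, Real.rpow_zero]
      _ = _ := one_mul _
  have h1 : (∑ c ∈ Icc 1 C, |S2 c|) ^ 2 ≤ C * ∑ c ∈ Icc 1 C, (S2 c) ^ 2 := by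
    have h2 := sq_sum_le_card_mul_sum_sq (s := Icc 1 C) (f := fun c => |S2 c|)
    simp only [sq_abs, Nat.card_Icc, Nat.add_sub_cancel] at h2
    exact h2
  have h2 : (∑ c ∈ Icc 1 C, (S2 c) ^ 2) ^ 2 ≤ C * ∑ c ∈ Icc 1 C, (S2 c) ^ 4 := by
    have h2 := sq_sum_le_card_mul_sum_sq (s := Icc 1 C) (f := fun c => (S2 c) ^ 2)
    simp only [Nat.card_Icc, Nat.add_sub_cancel, ← pow_mul] at h2
    exact h2
  have h3 : (∑ c ∈ Icc 1 C, |S2 c|) ^ 4 ≤ (C * B / L ^ 6) ^ 4 := by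
    calc (∑ c ∈ Icc 1 C, |S2 c|) ^ 4 = ((∑ c ∈ Icc 1 C, |S2 c|) ^ 2) ^ 2 := by ring
      _ ≤ (C * ∑ c ∈ Icc 1 C, (S2 c) ^ 2) ^ 2 := pow_le_pow_left₀ (by positivity) h1 2
      _ = (C : ℝ) ^ 2 * (∑ c ∈ Icc 1 C, (S2 c) ^ 2) ^ 2 := by ring
      _ ≤ (C : ℝ) ^ 2 * (C * ∑ c ∈ Icc 1 C, (S2 c) ^ 4) := mul_le_mul_of_nonneg_left h2 (by positivity)
      _ ≤ (C : ℝ) ^ 2 * (C * (C * B ^ 4 / L ^ 24)) := by gcongr
      _ = _ := by
          field_simp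
  exact le_of_pow_le_pow_left₀ (by norm_num) (by positivity) h3

/-- the dyadic ranges together -/
lemma rho_all (a : ℤ) (ha : 0 < a) (b : ℤ) (ε : ℝ) (hε : 0 < ε) (hε1 : ε ≤ 1 / 100) :
    ∃ x0 : ℕ, ∀ x : ℕ, x0 ≤ x → ∀ (C U y z : ℕ) (B : ℝ) (u : ℕ → ℝ), (x : ℝ) ^ (2 / 3 : ℝ) ≤ C → C ≤ x →
    (x : ℝ) ^ (4 + ε) ≤ (C : ℝ) ^ 3 * (U : ℝ) ^ 2 → y ≤ x → 2 * a < z → 0 ≤ B → (∀ d, |u d| ≤ B / d) →
    (∀ d, u d ≠ 0 → Rough z d) →
    ∑ c ∈ Icc 1 C, |∑ d ∈ Ioc U y, u d * ((jacobiSym (b ^ 2 - 4 * a * (c : ℕ)) d : ℤ) : ℝ)| ≤ C * B / Real.log x ^ 4 := by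
  classical
  obtain ⟨x0, hdy⟩ := rho_dy a ha b ε hε hε1
  have e1 : ∀ᶠ x : ℕ in atTop, (200 : ℝ) ≤ Real.log x := Shp.log_ge 200
  obtain ⟨x2, hx2⟩ := eventually_atTop.1 e1
  refine ⟨max x0 (max x2 3), fun x hx C U y z B u hC1 hC2 hCU hyx hza hB0 hu hu0 => ?_⟩
  simp only [max_le_iff] at hx
  obtain ⟨hxx0, hxx2, hx3⟩ := hx
  have f1 := hx2 x hxx2
  have hxpos : (0 : ℝ) < x := by
    have : 0 < x := by omega
    exact_mod_cast this
  set L := Real.log x with hL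
  have hL0 : 0 < L := by linarith
  have hC0 : (0 : ℝ) < C := lt_of_lt_of_le (Real.rpow_pos_of_pos hxpos _) hC1
  have hU0 : 0 < U := by
    rcases Nat.eq_zero_or_pos U with h | h
    · rw [h] at hCU
      have : 0 < (x : ℝ) ^ (4 + ε) := Real.rpow_pos_of_pos hxpos _
      norm_num at hCU
      linarith
    · exact h
  set J : ℕ → ℕ → ℝ := fun c d => ((jacobiSym (b ^ 2 - 4 * a * (c : ℕ)) d : ℤ) : ℝ) with hJ
  -- the ranges (2^i U, 2^(i+1) U]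
  set k := Nat.log 2 x + 1 with hk
  have hrange : ∀ (n : ℕ) (w : ℕ → ℝ), ∑ d ∈ Ioc U (min y (2 ^ n * U)), w d =
      ∑ i ∈ range n, ∑ d ∈ Ioc (2 ^ i * U) (min y (2 ^ (i + 1) * U)), w d := by
    intro n w
    induction n with
    | zero =>
      rw [range_zero, sum_empty, pow_zero, one_mul, Ioc_eq_empty, sum_empty]
      exact not_lt.2 (min_le_right _ _)
    | succ n ih =>
      rw [sum_range_succ, ← ih]
      have hU1 : U ≤ 2 ^ n * U := Nat.le_mul_of_pos_left _ (by positivity)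
      have hU2 : 2 ^ n * U ≤ 2 ^ (n + 1) * U := Nat.mul_le_mul_right _ (Nat.pow_le_pow_right (by norm_num) (by omega))
      rw [← sum_union]
      · apply sum_congr _ (fun _ _ => rfl)
        ext d
        rw [mem_union, mem_Ioc, mem_Ioc, mem_Ioc]
        omega
      · rw [disjoint_left]
        intro d h1 h2
        rw [mem_Ioc] at h1 h2
        omega
  have hk1 : y ≤ 2 ^ k * U := by
    have h1 : x < 2 ^ k := Nat.lt_pow_succ_log_self (by norm_num) x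
    calc y ≤ x := hyx
      _ ≤ 2 ^ k := h1.le
      _ ≤ 2 ^ k * U := Nat.le_mul_of_pos_right _ hU0
  have hsplit : ∀ c ∈ Icc 1 C, |∑ d ∈ Ioc U y, u d * J c d| ≤
      ∑ i ∈ range k, |∑ d ∈ Ioc (2 ^ i * U) (min y (2 ^ (i + 1) * U)), u d * J c d| := by
    intro c _
    have h1 := hrange k (fun d => u d * J c d)
    rw [min_eq_left hk1] at h1
    rw [h1]
    exact abs_sum_le_sum_abs _ _
  refine (sum_le_sum hsplit).trans ?_
  rw [sum_comm]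
  have h1 : ∀ i ∈ range k, ∑ c ∈ Icc 1 C, |∑ d ∈ Ioc (2 ^ i * U) (min y (2 ^ (i + 1) * U)), u d * J c d| ≤ C * B / L ^ 6 := by
    intro i _
    apply hdy x hxx0 C (2 ^ i * U) (min y (2 ^ (i + 1) * U)) z B u hC1 hC2 _ _ ((min_le_left _ _).trans hyx) hza hB0 hu hu0
    · refine hCU.trans ?_
      apply mul_le_mul_of_nonneg_left _ (by positivity)
      apply pow_le_pow_left₀ (by positivity)
      have : U ≤ 2 ^ i * U := Nat.le_mul_of_pos_left _ (by positivity)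
      exact_mod_cast this
    · refine (min_le_right _ _).trans ?_
      rw [pow_succ]
      apply le_of_eq
      ring
  refine (sum_le_sum h1).trans ?_
  rw [sum_const, card_range, nsmul_eq_mul]
  have h2 : (k : ℝ) ≤ 3 * L := by
    have h3 : ((Nat.log 2 x : ℕ) : ℝ) ≤ Real.log x / Real.log 2 := by
      rw [le_div_iff₀ (Real.log_pos (by norm_num))]
      have h4 : ((2 ^ Nat.log 2 x : ℕ) : ℝ) ≤ x := by exact_mod_cast Nat.pow_log_le_self 2 (by omega)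
      calc ((Nat.log 2 x : ℕ) : ℝ) * Real.log 2 = Real.log ((2 ^ Nat.log 2 x : ℕ) : ℝ) := by
            push_cast
            rw [Real.log_pow]
        _ ≤ Real.log x := Real.log_le_log (by positivity) h4
    have h5 : Real.log x / Real.log 2 ≤ 2 * L := by
      rw [div_le_iff₀ (Real.log_pos (by norm_num))]
      have : (1 / 2 : ℝ) ≤ Real.log 2 := by
        have := Real.log_two_gt_d9
        linarith
      nlinarith
    rw [hk]
    push_cast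
    linarith
  calc (k : ℝ) * (C * B / L ^ 6) ≤ (3 * L) * (C * B / L ^ 6) := mul_le_mul_of_nonneg_right h2 (by positivity)
    _ = (3 / L) * (C * B / L ^ 4) := by field_simp
    _ ≤ 1 * (C * B / L ^ 4) := by
        apply mul_le_mul_of_nonneg_right _ (by positivity)
        rw [div_le_one hL0]
        linarith
    _ = _ := one_mul _

end Pool.Agent.N791.E2
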