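import Mathlib
import Pool.Agent.N792.TJ9
import Pool.Agent.N791.E2.Core3
import Pool.Agent.N791.E2.Rho3
import Pool.Agent.N791.E2.SWPr

/-!
The type II estimate with a prime divisor `j` of the value and a prime cofactor
(after `N792/TJA`), for `x^(4+ε) ≤ C³ U²`.
-/

set_option autoImplicit false

namespace Pool.Agent.N791.E2

open Finset Filter Topology
open Pool.Agent.N792
open ArithmeticFunction (moebius vonMangoldt)

/-- at most two roots modulo a prime -/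
lemma rho_prime_le {a b c : ℤ} {p : ℕ} (hp : p.Prime) (hp2 : p ≠ 2) (hpa : ¬ (p : ℤ) ∣ a) :
    (rho a b c p : ℝ) - 1 = ((jacobiSym (b ^ 2 - 4 * a * c) p : ℤ) : ℝ) ∧ (rho a b c p : ℝ) ≤ 2 := by
  have := Fact.mk hp
  have h := RhA.rho_prime a b c p hp2 hpa
  have h1 : (rho a b c p : ℝ) = 1 + ((jacobiSym (b ^ 2 - 4 * a * c) p : ℤ) : ℝ) := by exact_mod_cast h
  refine ⟨by rw [h1]; ring, ?_⟩
  have h2 : jacobiSym (b ^ 2 - 4 * a * c) p ≤ 1 := by
    rcases jacobiSym.trichotomy (b ^ 2 - 4 * a * c) p with h3 | h3 | h3 <;> rw [h3] <;> norm_num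
  have h3 : ((jacobiSym (b ^ 2 - 4 * a * c) p : ℤ) : ℝ) ≤ 1 := by exact_mod_cast h2
  linarith

/-- **the type II estimate** -/
theorem type_prime (a : ℤ) (ha : 0 < a) (b : ℤ) : ∃ As : ℕ, ∀ E R : ℕ, ∀ η ε : ℝ, 0 < η → 0 < ε → ε ≤ 1 / 100 →
    ∃ x0 : ℕ, ∀ x : ℕ, x0 ≤ x → ∀ x1 C z U y Jw : ℕ, x1 < x → x ≤ R * x1 → (x : ℝ) ^ (2 / 3 : ℝ) ≤ C → C ≤ x →
    (x : ℝ) ^ (4 + ε) ≤ (C : ℝ) ^ 3 * (U : ℝ) ^ 2 → (x : ℝ) ^ η ≤ z → z ≤ U → U ≤ y → (y : ℝ) ≤ (x : ℝ) ^ (1 - ε) →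
    Real.log x ^ As ≤ ((2 ^ 2 ^ Jw : ℕ) : ℝ) → ((2 ^ 2 ^ Jw : ℕ) : ℝ) ≤ Real.log x ^ E → ∀ f : ℕ → ℝ,
    (∀ j, |f j| ≤ 1) → (∀ j, f j ≠ 0 → j.Prime) →
    ∑ c ∈ Icc 1 C, |Lc a b x1 x c (fun N => rg z N * ∑ j ∈ N.divisors.filter (fun j => U < j ∧ j ≤ y), f j * pl (N / j)) -
      Vc a b c (2 ^ 2 ^ Jw) / V1 (2 ^ 2 ^ Jw) *
        Ls a b x1 x (fun N => rg z N * ∑ j ∈ N.divisors.filter (fun j => U < j ∧ j ≤ y), f j * pl (N / j))| ≤
      C * x / Real.log x := by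
  classical
  refine ⟨884, fun E R η ε hη hε hε1 => ?_⟩
  obtain ⟨xA, hcore⟩ := core_bound3 a ha b η ε hη hε hε1 R 49
  obtain ⟨xB, hsharp⟩ := sharp_pr η hη 883 (E + 890)
  obtain ⟨xC, hmain⟩ := main_term a ha b ε hε R 4 2 (E + 890)
  obtain ⟨xD, hrho⟩ := rho_all a ha b ε hε hε1
  have e1 : ∀ᶠ x : ℕ in atTop, (10 ^ 13 : ℝ) ≤ Real.log x := Shp.log_ge _
  have e2 := Shp.beta_sup η hη
  have e3 := Shp.inv_V1_le E
  have e4 := ev_log_pow 1 (E + 890) hη
  have e5 := ev_log_pow 1 (E + 890) (δ := 1) (by norm_num)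
  have e6 : ∀ᶠ x : ℕ in atTop, 4 * (R + 1) * (b.natAbs + 1) ≤ x := eventually_ge_atTop _
  have e7 := ev_log_pow (3 * a) 0 (δ := 1) (by norm_num)
  have e9 := ev_log_pow (2 * a + 3) 0 (δ := η) hη
  have e10 : ∀ᶠ x : ℕ in atTop, (6 * √(2 * (a : ℝ)) + 1) ≤ Real.log x := Shp.log_ge _
  have e11 := ev_log_pow (2 * a + 3) 0 (δ := 1 / 2) (by norm_num)
  obtain ⟨xE, hxE⟩ := eventually_atTop.1 (((((((((e1.and e2).and e3).and e4).and e5).and e6).and e7).and e9).and e10).and e11)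
  refine ⟨max (max xA xB) (max (max xC xD) (max xE 3)), fun x hx x1 C z U y Jw hx1 hR hC1 hC2 hCU hz hzU hUy hy hw1 hw2 f hf1 hfp => ?_⟩
  simp only [max_le_iff] at hx
  obtain ⟨⟨hxA, hxB⟩, ⟨hxC, hxD⟩, hxE', hx3⟩ := hx
  obtain ⟨⟨⟨⟨⟨⟨⟨⟨⟨f1, f2⟩, f3⟩, f4⟩, f5⟩, f6⟩, f7⟩, f9⟩, f10⟩, f11⟩ := hxE x hxE'
  rw [pow_zero, mul_one, Real.rpow_one] at f7
  rw [pow_zero, mul_one] at f9 f11
  rw [one_mul] at f4 f5
  rw [Real.rpow_one] at f5
  have hxpos : (0 : ℝ) < x := by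
    have : 0 < x := by omega
    exact_mod_cast this
  have hx1' : (1 : ℝ) ≤ x := by
    have : 1 ≤ x := by omega
    exact_mod_cast this
  set L := Real.log x with hL
  have hL0 : 0 < L := by
    have : (0 : ℝ) < 10 ^ 13 := by norm_num
    linarith
  have hL13 : (10 : ℝ) ^ 13 ≤ L := f1
  have hL1 : 1 ≤ L := by
    have : (1 : ℝ) ≤ 10 ^ 13 := by norm_num
    linarith
  set w := 2 ^ 2 ^ Jw with hwdef
  have haR : (1 : ℝ) ≤ a := by exact_mod_cast ha
  have hx1b : 2 * b.natAbs ≤ x1 := by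
    by_contra hcon
    push Not at hcon
    have h1 : R * x1 ≤ R * (2 * b.natAbs) := Nat.mul_le_mul_left _ hcon.le
    have h2 : R * (2 * b.natAbs) < 4 * (R + 1) * (b.natAbs + 1) := by nlinarith
    omega
  obtain ⟨hFx2, hF12⟩ := Fn_bounds ha hx1 hR hx1b
  have hF3 : Fn a b x ≤ x ^ 3 := by
    have : ((Fn a b x : ℕ) : ℝ) ≤ (x : ℝ) ^ 3 := by
      calc ((Fn a b x : ℕ) : ℝ) ≤ 2 * a * x ^ 2 := hFx2
        _ ≤ x * x ^ 2 := mul_le_mul_of_nonneg_right (by linarith) (by positivity)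
        _ = _ := by ring
    exact_mod_cast this
  have hyx : y ≤ x := by
    have : (y : ℝ) ≤ x := by
      refine hy.trans ?_
      nth_rw 2 [← Real.rpow_one (x : ℝ)]
      exact Real.rpow_le_rpow_of_exponent_le hx1' (by linarith)
    exact_mod_cast this
  have hUx : (x : ℝ) ^ (1 / 2 : ℝ) ≤ U := by
    have h1 : ((x : ℝ) ^ (1 / 2 : ℝ)) ^ 2 ≤ (U : ℝ) ^ 2 := by
      have h2 : (x : ℝ) ^ 3 * ((x : ℝ) ^ (1 / 2 : ℝ)) ^ 2 ≤ (x : ℝ) ^ 3 * (U : ℝ) ^ 2 := by
        calc (x : ℝ) ^ 3 * ((x : ℝ) ^ (1 / 2 : ℝ)) ^ 2 = (x : ℝ) ^ (4 : ℝ) := by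
              rw [← Real.rpow_natCast ((x : ℝ) ^ (1 / 2 : ℝ)) 2, ← Real.rpow_mul hxpos.le, ← Real.rpow_natCast (x : ℝ) 3,
                ← Real.rpow_add hxpos]
              norm_num
          _ ≤ (x : ℝ) ^ (4 + ε) := Real.rpow_le_rpow_of_exponent_le hx1' (by linarith)
          _ ≤ (C : ℝ) ^ 3 * (U : ℝ) ^ 2 := hCU
          _ ≤ (x : ℝ) ^ 3 * (U : ℝ) ^ 2 := by
              have : (C : ℝ) ≤ x := by exact_mod_cast hC2
              gcongr
      exact le_of_mul_le_mul_left h2 (by positivity)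
    exact le_of_sq_le_sq h1 (by positivity)
  have hUpos : 0 < U := by
    have : (0 : ℝ) < U := lt_of_lt_of_le (Real.rpow_pos_of_pos hxpos _) hUx
    exact_mod_cast this
  have hzx : z ≤ x := hzU.trans (hUy.trans hyx)
  have hC0 : (0 : ℝ) < C := lt_of_lt_of_le (Real.rpow_pos_of_pos hxpos _) hC1
  have hzpos : (0 : ℝ) < z := lt_of_lt_of_le (Real.rpow_pos_of_pos hxpos _) hz
  have hz1 : 1 ≤ z := by exact_mod_cast hzpos
  -- the parameters
  obtain ⟨t, ht1, ht2⟩ := exists_pow_two (Y := L ^ 12) (one_le_pow₀ hL1)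
  obtain ⟨ts, hts1, hts2⟩ := exists_pow_two (Y := L ^ 889) (one_le_pow₀ hL1)
  have hLt : L ≤ (2 : ℝ) ^ t := (le_self_pow₀ hL1 (by norm_num)).trans ht1
  have h4t : (2 : ℝ) ^ (4 * t) ≤ L ^ 49 := by
    calc (2 : ℝ) ^ (4 * t) = (2 ^ t) ^ 4 := by rw [← pow_mul]; congr 1; ring
      _ ≤ (2 * L ^ 12) ^ 4 := pow_le_pow_left₀ (by positivity) ht2 4
      _ = 16 * L ^ 48 := by ring
      _ ≤ L * L ^ 48 := mul_le_mul_of_nonneg_right (by linarith) (by positivity)
      _ = L ^ 49 := by ring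
  have htsE : (2 : ℝ) ^ ts ≤ L ^ (E + 890) := by
    calc (2 : ℝ) ^ ts ≤ 2 * L ^ 889 := hts2
      _ ≤ L * L ^ 889 := mul_le_mul_of_nonneg_right (by linarith) (by positivity)
      _ = L ^ 890 := by ring
      _ ≤ L ^ (E + 890) := pow_le_pow_right₀ hL1 (by omega)
  have hwE : ((w : ℕ) : ℝ) ≤ L ^ (E + 890) := hw2.trans (pow_le_pow_right₀ hL1 (by omega))
  -- the coefficients
  set T := tb (x ^ 3) z pl with hT
  have hTb : ∀ k, |T k| ≤ 3 * L := by
    intro k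
    rw [hT]
    unfold tb
    split_ifs with hk
    · have h1 := f2 z U k hz hk _ (by right; right; rfl)
      refine le_trans ?_ h1
      rw [abs_mul, abs_mul, abs_of_nonneg (pl_nonneg k), abs_of_nonneg (ArithmeticFunction.vonMangoldt_nonneg)]
      exact mul_le_mul_of_nonneg_left (pl_le k) (abs_nonneg _)
    · rw [abs_zero]; positivity
  have hpr : ∀ m : ℕ, m.Prime → m ∈ Ioc U y → m ≠ 2 ∧ ¬ (m : ℤ) ∣ a ∧ Rough z m := by
    intro m hm hmU
    rw [mem_Ioc] at hmU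
    have h1 : 2 * (a : ℝ) + 3 ≤ m := by
      have : (U : ℝ) ≤ m := by exact_mod_cast hmU.1.le
      linarith
    have h2 : 2 * a + 3 ≤ (m : ℤ) := by exact_mod_cast h1
    refine ⟨by omega, fun hd => ?_, hm.ne_zero, fun p hp hpm => ?_⟩
    · have := Int.le_of_dvd ha hd
      omega
    · rw [(Nat.prime_dvd_prime_iff_eq hp hm).1 hpm]
      omega
  have hV1 : 0 < V1 w := Mtm.V1_pos' w
  have hV1L : 1 / V1 w ≤ L := f3 w hw2
  have hsh : ∀ k, |sharp ts w T k| ≤ 3 * L ^ 2 := by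
    intro k
    unfold sharp
    rw [abs_div, abs_mul, abs_of_pos hV1, abs_of_nonneg (rg_range w k).1]
    have h1 := Mtm.dens_abs (t := ts) hTb k
    calc |dens ts T k| * rg w k / V1 w = (|dens ts T k| * rg w k) * (1 / V1 w) := by ring
      _ ≤ (3 * L * 1) * L := by
          apply mul_le_mul _ hV1L (by positivity) (by positivity)
          exact mul_le_mul h1 (rg_range w k).2 (rg_range w k).1 (by positivity)
      _ = _ := by ring
  set B := fun k => T k - sharp ts w T k with hB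
  have hBb : ∀ k, |B k| ≤ L ^ 3 := by
    intro k
    calc |T k - sharp ts w T k| ≤ |T k| + |sharp ts w T k| := abs_sub _ _
      _ ≤ 3 * L + 3 * L ^ 2 := add_le_add (hTb k) (hsh k)
      _ ≤ 6 * L ^ 2 := by nlinarith only [hL1]
      _ ≤ L * L ^ 2 := mul_le_mul_of_nonneg_right (by linarith) (by positivity)
      _ = _ := by ring
  have hxts : 2 ^ ts ≤ x := by
    have : (2 : ℝ) ^ ts ≤ x := htsE.trans f5
    exact_mod_cast this
  have hH : ∀ i v q r : ℕ, x ≤ 2 ^ i → 2 ^ (i + 1) ≤ x ^ 2 → 2 ^ i ≤ v → v ≤ 2 ^ (i + 1) → 1 ≤ q → q ≤ 6 * 10 ^ 7 * 2 ^ (12 * (4 * t)) →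
      |∑ k ∈ (Ioc (2 ^ i) v).filter (fun k => k ≡ r [MOD q]), B k| * (2 * (10 ^ 12 * (2 : ℝ) ^ (18 * (4 * t)))) ≤ (2 : ℝ) ^ i := by
    intro i v q r h1 h2 h3 h4 h5 h6
    have h7 : 2 ^ (i + 1) ≤ x ^ 3 := h2.trans (Nat.pow_le_pow_right (by omega) (by norm_num))
    rw [hB]
    simp only
    rw [hT, sum_tb (hxts.trans h1) h7 h4]
    have hq : (q : ℝ) ≤ L ^ 883 := by
      calc (q : ℝ) ≤ ((6 * 10 ^ 7 * 2 ^ (12 * (4 * t)) : ℕ) : ℝ) := by exact_mod_cast h6
        _ = 6 * 10 ^ 7 * ((2 : ℝ) ^ (4 * t)) ^ 12 := by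
            rw [← pow_mul]
            push_cast
            rw [mul_comm (4 * t) 12]
            norm_num
        _ ≤ L * (L ^ 49) ^ 12 := by
            apply mul_le_mul _ (pow_le_pow_left₀ (by positivity) h4t 12) (by positivity) hL0.le
            refine le_trans ?_ hL13
            norm_num
        _ = L ^ 589 := by ring
        _ ≤ L ^ 883 := pow_le_pow_right₀ hL1 (by norm_num)
    have h8 : |∑ k ∈ (Ioc (2 ^ i) v).filter (fun k => k ≡ r [MOD q]),
        (rg z k * pl k - sharp ts w (fun k => rg z k * pl k) k)| ≤ (2 : ℝ) ^ i / L ^ 883 :=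
      hsharp x hxB z Jw ts i v q r hz hzx hw1 hwE hts1 htsE h1 h7 h5 hq h3 h4
    have hP : 2 * (10 ^ 12 * (2 : ℝ) ^ (18 * (4 * t))) ≤ L ^ 883 := by
      calc 2 * (10 ^ 12 * (2 : ℝ) ^ (18 * (4 * t))) = (2 * 10 ^ 12) * ((2 : ℝ) ^ (4 * t)) ^ 18 := by
            rw [← pow_mul, mul_comm (4 * t) 18]
            ring
        _ ≤ L * (L ^ 49) ^ 18 := by
            apply mul_le_mul _ (pow_le_pow_left₀ (by positivity) h4t 18) (by positivity) hL0.le
            refine le_trans ?_ hL13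
            norm_num
        _ = L ^ 883 := by ring
    calc |_| * (2 * (10 ^ 12 * (2 : ℝ) ^ (18 * (4 * t)))) ≤ ((2 : ℝ) ^ i / L ^ 883) * L ^ 883 :=
          mul_le_mul h8 hP (by positivity) (by positivity)
      _ = _ := by
          rw [div_mul_cancel₀]
          positivity
  set S := (Ioc U y).filter Nat.Prime with hS
  have hSU : S ⊆ Ioc U y := filter_subset _ _
  have hSp : ∀ m ∈ S, m ≠ 2 ∧ ¬ (m : ℤ) ∣ a ∧ Rough z m := fun m hm => hpr m (mem_filter.1 hm).2 (hSU hm)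
  have hSx : ∀ m ∈ S, ∑ c ∈ Icc 1 C, (rho a b (c : ℕ) m : ℝ) ≤ 2 * C := by
    intro m hm
    calc ∑ c ∈ Icc 1 C, (rho a b (c : ℕ) m : ℝ) ≤ ∑ _c ∈ Icc 1 C, (2 : ℝ) :=
          sum_le_sum fun c _ => (rho_prime_le (mem_filter.1 hm).2 (hSp m hm).1 (hSp m hm).2.1).2
      _ = 2 * C := by rw [sum_const, Nat.card_Icc, Nat.add_sub_cancel, nsmul_eq_mul]; ring
  obtain ⟨hkU, hI⟩ := hcore x hxA x1 C z U y t S B (L ^ 3) hx1 hR hCU hC2 hz hUx hy hSU
    (fun m hm => (hSp m hm).2.2) hSx hLt h4t (one_le_pow₀ hL1) hBb hH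
  -- the main identity
  set Lm : ℕ → ℝ := fun m => ∑ k ∈ (Icc 1 (Fn a b x)).filter (fun k => Fn a b x1 < m * k ∧ m * k ≤ Fn a b x), T k * hw a (m * k) with hLm
  have hLs : Ls a b x1 x (fun N => rg z N * ∑ j ∈ N.divisors.filter (fun j => U < j ∧ j ≤ y), f j * pl (N / j)) =
      ∑ m ∈ Ioc U y, (rg z m * f m) * Lm m := Ls_conv hF3 f pl
  set Sc : ℕ → ℝ := fun c => Vc a b c w / V1 w with hSc
  have hSc0 : ∀ c, 0 ≤ Sc c ∧ Sc c ≤ L := by
    intro c
    obtain ⟨h1, h2⟩ := Mtm.Vc_bd a b c w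
    refine ⟨div_nonneg h1 hV1.le, ?_⟩
    calc Sc c = Vc a b c w * (1 / V1 w) := by rw [hSc]; ring
      _ ≤ 1 * L := mul_le_mul h2 hV1L (by positivity) (by norm_num)
      _ = L := one_mul _
  set al : ℕ → ℝ := fun m => rg z m * f m with hal
  have hal1 : ∀ m ∈ Ioc U y, |al m| ≤ 1 := by
    intro m _
    simp only [hal]
    rw [abs_mul, abs_of_nonneg (rg_range z m).1]
    calc rg z m * |f m| ≤ 1 * 1 := mul_le_mul (rg_range z m).2 (hf1 m) (abs_nonneg _) (by norm_num)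
      _ = 1 := one_mul _
  have hsplit : ∀ F : ℕ → ℝ, ∑ m ∈ Ioc U y, al m * F m = ∑ m ∈ S, al m * F m := by
    intro F
    symm
    apply sum_subset hSU
    intro m hm hm2
    have h1 : f m = 0 := by
      by_contra hcon
      exact hm2 (mem_filter.2 ⟨hm, hfp m hcon⟩)
    simp only [hal]
    rw [h1, mul_zero, zero_mul]
  have hLmb : ∀ m ∈ Ioc U y, |Lm m| ≤ 3 * L * (√(2 * a) * x / m) := by
    intro m hm
    have hm' := mem_Ioc.1 hm
    have h2 := Lm_le (a := a) (b := b) (x1 := x1) (x := x) ha (by omega : 1 ≤ m) T (by positivity : 0 ≤ 3 * L) hTb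
    have h3 : √((Fn a b x : ℕ) : ℝ) ≤ √(2 * a) * x := by
      have h4 : √((Fn a b x : ℕ) : ℝ) ≤ √(2 * a * x ^ 2) := Real.sqrt_le_sqrt hFx2
      rwa [Real.sqrt_mul (by linarith), Real.sqrt_sq hxpos.le] at h4
    refine h2.trans ?_
    apply mul_le_mul_of_nonneg_left _ (by positivity)
    exact div_le_div_of_nonneg_right h3 (Nat.cast_nonneg _)
  set hh : ℕ → ℝ := fun m => if m ∈ S then al m * Lm m else 0 with hhh
  have hpoint : ∀ c ∈ Icc 1 C, |Lc a b x1 x c (fun N => rg z N * ∑ j ∈ N.divisors.filter (fun j => U < j ∧ j ≤ y), f j * pl (N / j)) -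
      Sc c * Ls a b x1 x (fun N => rg z N * ∑ j ∈ N.divisors.filter (fun j => U < j ∧ j ≤ y), f j * pl (N / j))| ≤
      ∑ m ∈ S, |∑ n ∈ (Ioc x1 x).filter (fun n => m ∣ Fn a b n + c), B ((Fn a b n + c) / m)| +
      ∑ m ∈ S, ((rho a b (c : ℕ) m : ℝ) * (x / (m * L ^ 4))) +
      L * |∑ m ∈ Ioc U y, hh m * ((jacobiSym (b ^ 2 - 4 * a * (c : ℕ)) m : ℤ) : ℝ)| := by
    intro c hc
    have hc' := mem_Icc.1 hc
    rw [hLs, Lc_conv (X := x ^ 3) ha (by omega) hc'.1 f pl (fun m hm n hn hd =>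
      (hkU c hc m hm n hn hd).trans (Nat.pow_le_pow_right (by omega) (by norm_num)))]
    have hid : ∑ m ∈ Ioc U y, al m * ∑ n ∈ (Ioc x1 x).filter (fun n => m ∣ Fn a b n + c), T ((Fn a b n + c) / m) -
        Sc c * ∑ m ∈ Ioc U y, al m * Lm m =
        ∑ m ∈ S, al m * ∑ n ∈ (Ioc x1 x).filter (fun n => m ∣ Fn a b n + c), B ((Fn a b n + c) / m) +
        ∑ m ∈ S, al m * (∑ n ∈ (Ioc x1 x).filter (fun n => m ∣ Fn a b n + c), sharp ts w T ((Fn a b n + c) / m) -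
          Sc c * rho a b (c : ℕ) m * Lm m) +
        Sc c * ∑ m ∈ Ioc U y, hh m * ((jacobiSym (b ^ 2 - 4 * a * (c : ℕ)) m : ℤ) : ℝ) := by
      have hh1 : ∑ m ∈ Ioc U y, hh m * ((jacobiSym (b ^ 2 - 4 * a * (c : ℕ)) m : ℤ) : ℝ) =
          ∑ m ∈ S, (al m * Lm m) * ((rho a b (c : ℕ) m : ℝ) - 1) := by
        rw [← sum_subset hSU]
        · apply sum_congr rfl
          intro m hm
          simp only [hhh]
          rw [if_pos hm, (rho_prime_le (c := (c : ℕ)) (b := b) (mem_filter.1 hm).2 (hSp m hm).1 (hSp m hm).2.1).1]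
        · intro m _ hm2
          simp only [hhh]
          rw [if_neg hm2, zero_mul]
      rw [hh1, hsplit, hsplit, mul_sum, mul_sum, ← sum_sub_distrib, ← sum_add_distrib, ← sum_add_distrib]
      apply sum_congr rfl
      intro m _
      have : ∑ n ∈ (Ioc x1 x).filter (fun n => m ∣ Fn a b n + c), B ((Fn a b n + c) / m) =
          ∑ n ∈ (Ioc x1 x).filter (fun n => m ∣ Fn a b n + c), T ((Fn a b n + c) / m) -
          ∑ n ∈ (Ioc x1 x).filter (fun n => m ∣ Fn a b n + c), sharp ts w T ((Fn a b n + c) / m) := by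
        rw [← sum_sub_distrib]
      rw [this]
      ring
    have hid' : ∑ m ∈ Ioc U y, (rg z m * f m) * ∑ n ∈ (Ioc x1 x).filter (fun n => m ∣ Fn a b n + c), tb (x ^ 3) z pl ((Fn a b n + c) / m) -
        Sc c * ∑ m ∈ Ioc U y, (rg z m * f m) * Lm m =
        ∑ m ∈ Ioc U y, al m * ∑ n ∈ (Ioc x1 x).filter (fun n => m ∣ Fn a b n + c), T ((Fn a b n + c) / m) -
        Sc c * ∑ m ∈ Ioc U y, al m * Lm m := rfl
    rw [hid', hid]
    refine (abs_add_le _ _).trans (add_le_add ((abs_add_le _ _).trans (add_le_add ?_ ?_)) ?_)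
    · refine (abs_sum_le_sum_abs _ _).trans ?_
      apply sum_le_sum
      intro m hm
      rw [abs_mul]
      exact mul_le_of_le_one_left (abs_nonneg _) (hal1 m (hSU hm))
    · refine (abs_sum_le_sum_abs _ _).trans ?_
      apply sum_le_sum
      intro m hm
      rw [abs_mul]
      have hm' := mem_Ioc.1 (hSU hm)
      have hr : Rough z m := (hSp m hm).2.2
      have hrw : Rough w m := by
        refine ⟨hr.1, fun p hp hpd => lt_of_le_of_lt ?_ (hr.2 p hp hpd)⟩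
        have : ((w : ℕ) : ℝ) ≤ z := hwE.trans (f4.trans hz)
        exact_mod_cast this
      have hmt := hmain x hxC x1 c m Jw ts hx1 hR hc'.1 (hc'.2.trans hC2) (by omega) (by
          refine le_trans ?_ hy
          exact_mod_cast hm'.2) hrw hwE (by
          calc L ^ (4 + 2 + 5) ≤ L ^ 889 := pow_le_pow_right₀ hL1 (by norm_num)
            _ ≤ _ := hts1) htsE T (by
          intro k
          calc |T k| ≤ 3 * L := hTb k
            _ ≤ L * L := mul_le_mul_of_nonneg_right (by linarith) hL0.le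
            _ = L ^ 2 := by ring)
      have hfil : (Ioc x1 x).filter (fun n : ℕ => (m : ℤ) ∣ fv a b c n) = (Ioc x1 x).filter (fun n => m ∣ Fn a b n + c) := by
        apply filter_congr
        intro n hn
        rw [mem_Ioc] at hn
        rw [Mtm.fv_eq ha (by omega), Int.natCast_dvd_natCast]
      rw [hfil] at hmt
      have hsum : ∑ n ∈ (Ioc x1 x).filter (fun n => m ∣ Fn a b n + c), sharp ts w T ((fv a b c n).toNat / m) =
          ∑ n ∈ (Ioc x1 x).filter (fun n => m ∣ Fn a b n + c), sharp ts w T ((Fn a b n + c) / m) := by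
        apply sum_congr rfl
        intro n hn
        rw [mem_filter, mem_Ioc] at hn
        rw [Mtm.fv_eq ha (by omega), Int.toNat_natCast]
      rw [hsum] at hmt
      calc |al m| * _ ≤ 1 * _ := mul_le_mul (hal1 m (hSU hm)) hmt (abs_nonneg _) (by norm_num)
        _ = _ := one_mul _
    · rw [abs_mul, abs_of_nonneg (hSc0 c).1]
      exact mul_le_mul_of_nonneg_right (hSc0 c).2 (abs_nonneg _)
  refine (sum_le_sum hpoint).trans ?_
  rw [sum_add_distrib, sum_add_distrib, ← mul_sum]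
  have hpartI : ∑ c ∈ Icc 1 C, ∑ m ∈ S, |∑ n ∈ (Ioc x1 x).filter (fun n => m ∣ Fn a b n + c), B ((Fn a b n + c) / m)| ≤
      C * x * (1 / L ^ 2) := by
    calc _ ≤ L ^ 3 * (C * x) * L ^ 6 / 2 ^ t := hI
      _ ≤ L ^ 3 * (C * x) * L ^ 6 / L ^ 12 := by
          apply div_le_div_of_nonneg_left (by positivity) (by positivity) ht1
      _ = C * x * (1 / L ^ 3) := by
          field_simp
      _ ≤ _ := by
          apply mul_le_mul_of_nonneg_left _ (by positivity)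
          apply one_div_le_one_div_of_le (by positivity)
          exact pow_le_pow_right₀ hL1 (by norm_num)
  have hpartII : ∑ c ∈ Icc 1 C, ∑ m ∈ S, ((rho a b (c : ℕ) m : ℝ) * (x / (m * L ^ 4))) ≤ C * x * (4 / L ^ 2) := by
    rw [sum_comm]
    have h1 : ∀ m ∈ S, ∑ c ∈ Icc 1 C, ((rho a b (c : ℕ) m : ℝ) * (x / (m * L ^ 4))) ≤
        (2 * C * x / L ^ 4) * (1 / m) := by
      intro m hm
      have hm' := mem_Ioc.1 (hSU hm)
      have hmpos : (0 : ℝ) < m := by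
        have : 0 < m := by omega
        exact_mod_cast this
      have h2 := hSx m hm
      rw [← sum_mul]
      calc (∑ c ∈ Icc 1 C, (rho a b (c : ℕ) m : ℝ)) * (x / (m * L ^ 4)) ≤ (2 * C) * (x / (m * L ^ 4)) :=
            mul_le_mul_of_nonneg_right h2 (by positivity)
        _ = _ := by
            field_simp
    refine (sum_le_sum h1).trans ?_
    rw [← mul_sum]
    have h2 : ∑ m ∈ S, (1 : ℝ) / m ≤ 1 + L :=
      (sum_le_sum_of_subset_of_nonneg hSU (fun _ _ _ => by positivity)).trans (harm_le hyx U)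
    calc (2 * C * x / L ^ 4) * ∑ m ∈ S, (1 : ℝ) / m ≤ (2 * C * x / L ^ 4) * (2 * L) := by
          apply mul_le_mul_of_nonneg_left _ (by positivity)
          linarith
      _ = C * x * (4 / L ^ 3) := by
          field_simp
          ring
      _ ≤ _ := by
          apply mul_le_mul_of_nonneg_left _ (by positivity)
          apply div_le_div_of_nonneg_left (by positivity) (by positivity)
          exact pow_le_pow_right₀ hL1 (by norm_num)
  have hza : 2 * a < z := by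
    have h1 : 2 * (a : ℝ) + 3 ≤ z := f9.trans hz
    have h2 : 2 * a + 3 ≤ (z : ℤ) := by exact_mod_cast h1
    omega
  have hpartIII : L * ∑ c ∈ Icc 1 C, |∑ m ∈ Ioc U y, hh m * ((jacobiSym (b ^ 2 - 4 * a * (c : ℕ)) m : ℤ) : ℝ)| ≤ C * x * (1 / L) * (1 / 2) := by
    have h1 := hrho x hxD C U y z (3 * L * (√(2 * a) * x)) hh hC1 hC2 hCU hyx hza (by positivity) (by
      intro m
      simp only [hhh]
      split_ifs with hmS
      · rw [abs_mul]
        calc |al m| * |Lm m| ≤ 1 * (3 * L * (√(2 * a) * x / m)) :=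
              mul_le_mul (hal1 m (hSU hmS)) (hLmb m (hSU hmS)) (abs_nonneg _) (by norm_num)
          _ = _ := by ring
      · rw [abs_zero]
        positivity) (by
      intro m hne
      simp only [hhh, ne_eq, ite_eq_right_iff, Classical.not_imp] at hne
      exact (hSp m hne.1).2.2)
    calc L * _ ≤ L * (C * (3 * L * (√(2 * a) * x)) / L ^ 4) := mul_le_mul_of_nonneg_left h1 hL0.le
      _ = C * x * (1 / L) * ((6 * √(2 * a)) / L) * (1 / 2) := by
          field_simp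
          ring
      _ ≤ C * x * (1 / L) * 1 * (1 / 2) := by
          apply mul_le_mul_of_nonneg_right _ (by norm_num)
          apply mul_le_mul_of_nonneg_left _ (by positivity)
          rw [div_le_one hL0]
          linarith
      _ = _ := by ring
  have hfin : (C : ℝ) * x * (1 / L ^ 2) + C * x * (4 / L ^ 2) + C * x * (1 / L) * (1 / 2) ≤ C * x / L := by
    have e : (C : ℝ) * x * (1 / L ^ 2) + C * x * (4 / L ^ 2) + C * x * (1 / L) * (1 / 2) = (C * x / L) * (5 / L + 1 / 2) := by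
      field_simp
      ring
    rw [e]
    have h16 : 5 / L + 1 / 2 ≤ 1 := by
      have : 5 / L ≤ 1 / 2 := by
        rw [div_le_div_iff₀ hL0 (by norm_num)]
        linarith
      linarith
    exact mul_le_of_le_one_right (by positivity) h16
  linarith

end Pool.Agent.N791.E2
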