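import Mathlib
import Pool.Agent.N791.E2.Mert

/-!
The weighted sum over the primes between two powers of `x`.
-/

set_option autoImplicit false

namespace Pool.Agent.N791.E2

open Finset Filter Topology

lemma sum_pieces (F : ℕ → ℝ) (g : ℕ → ℕ) (hg : ∀ i, g i ≤ g (i + 1)) (J : ℕ) :
    ∑ p ∈ Ioc (g 0) (g J), F p = ∑ i ∈ range J, ∑ p ∈ Ioc (g i) (g (i + 1)), F p := by
  have hmono : Monotone g := monotone_nat_of_le_succ hg
  induction J with
  | zero => simp
  | succ J ih =>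
    rw [sum_range_succ, ← ih, sum_Ioc_consecutive _ (hmono (Nat.zero_le J)) (hg J)]

/-- one piece -/
lemma piece_bound {s t : ℝ} (hs : 0 < s) (hst : s ≤ t) (ht : t ≤ 1) {x : ℕ} (hx : 2 ≤ x) :
    |∑ p ∈ Ioc (fl s x) (fl t x), wf x p / p - (Ph t - Ph s)| ≤
      |∑ p ∈ (Ioc (fl s x) (fl t x)).filter Nat.Prime, 1 / (p : ℝ) - Real.log (t / s)| + (t - s) * Real.log (t / s) := by
  have hL : 0 < Real.log x := Real.log_pos (by exact_mod_cast (by omega : 1 < x))
  have hxpos : (0 : ℝ) < x := by exact_mod_cast (by omega : 0 < x)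
  have ht0 : 0 < t := lt_of_lt_of_le hs hst
  set S := ∑ p ∈ (Ioc (fl s x) (fl t x)).filter Nat.Prime, 1 / (p : ℝ) with hS
  set l := Real.log (t / s) with hl
  have hl0 : 0 ≤ l := Real.log_nonneg (by rw [le_div_iff₀ hs]; linarith)
  have hS0 : 0 ≤ S := sum_nonneg fun p _ => by positivity
  have hW : ∑ p ∈ Ioc (fl s x) (fl t x), wf x p / p = ∑ p ∈ (Ioc (fl s x) (fl t x)).filter Nat.Prime, wf x p / p := by
    rw [sum_filter]
    apply sum_congr rfl
    intro p _
    split_ifs with hp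
    · rfl
    · have : wf x p = 0 := by
        unfold wf
        rw [if_neg (fun h => hp h.1)]
      rw [this, zero_div]
  have hpt : ∀ p ∈ (Ioc (fl s x) (fl t x)).filter Nat.Prime, 1 / (2 - s) * (1 / (p : ℝ)) ≤ wf x p / p ∧
      wf x p / p ≤ 1 / (2 - t) * (1 / (p : ℝ)) := by
    intro p hp
    rw [mem_filter, mem_Ioc] at hp
    obtain ⟨⟨h1, h2⟩, h3⟩ := hp
    have hp0 : (0 : ℝ) < p := by exact_mod_cast h3.pos
    rw [lt_fl] at h1
    rw [le_fl] at h2
    have h4 : s * Real.log x ≤ Real.log p := by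
      rw [← Real.log_rpow hxpos]
      exact Real.log_le_log (by positivity) h1.le
    have h5 : Real.log p ≤ t * Real.log x := by
      rw [← Real.log_rpow hxpos]
      exact Real.log_le_log hp0 h2
    have hpx : p ≤ x := by
      have : (p : ℝ) ≤ x := by
        refine h2.trans ?_
        calc (x : ℝ) ^ t ≤ (x : ℝ) ^ (1 : ℝ) := Real.rpow_le_rpow_of_exponent_le (by exact_mod_cast (by omega : 1 ≤ x)) ht
          _ = x := Real.rpow_one _
      exact_mod_cast this
    have hw : wf x p = Real.log x / (2 * Real.log x - Real.log p) := by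
      unfold wf
      rw [if_pos ⟨h3, hpx⟩]
    have hden : 0 < 2 * Real.log x - Real.log p := by nlinarith
    have k1 : 1 / (2 - s) ≤ wf x p := by
      rw [hw, div_le_div_iff₀ (by linarith) hden]
      linarith
    have k2 : wf x p ≤ 1 / (2 - t) := by
      rw [hw, div_le_div_iff₀ hden (by linarith)]
      linarith
    rw [div_eq_mul_one_div (wf x p)]
    exact ⟨mul_le_mul_of_nonneg_right k1 (by positivity), mul_le_mul_of_nonneg_right k2 (by positivity)⟩
  have hlow : 1 / (2 - s) * S ≤ ∑ p ∈ Ioc (fl s x) (fl t x), wf x p / p := by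
    rw [hW, hS, mul_sum]
    exact sum_le_sum fun p hp => (hpt p hp).1
  have hup : ∑ p ∈ Ioc (fl s x) (fl t x), wf x p / p ≤ 1 / (2 - t) * S := by
    rw [hW, hS, mul_sum]
    exact sum_le_sum fun p hp => (hpt p hp).2
  obtain ⟨b1, b2⟩ := Ph_bounds hs hst (by linarith : t < 2)
  rw [← hl] at b1 b2
  rw [div_eq_mul_one_div, mul_comm] at b1 b2
  have hs1 : 1 / (2 - s) ≤ 1 := by rw [div_le_one (by linarith)]; linarith
  have ht1 : 1 / (2 - t) ≤ 1 := by rw [div_le_one (by linarith)]; linarith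
  have hs0 : 0 ≤ 1 / (2 - s) := by apply div_nonneg <;> linarith
  have ht0' : 0 ≤ 1 / (2 - t) := by apply div_nonneg <;> linarith
  have hdiff : 1 / (2 - t) - 1 / (2 - s) ≤ t - s := by
    rw [div_sub_div _ _ (by linarith) (by linarith), div_le_iff₀ (by nlinarith)]
    have : 1 ≤ (2 - t) * (2 - s) := by nlinarith
    nlinarith
  have hd2 : (1 / (2 - t) - 1 / (2 - s)) * l ≤ (t - s) * l := mul_le_mul_of_nonneg_right hdiff hl0
  have hSl := abs_nonneg (S - l)
  have k3 : 1 / (2 - t) * (S - l) ≤ |S - l| := by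
    calc 1 / (2 - t) * (S - l) ≤ 1 / (2 - t) * |S - l| := mul_le_mul_of_nonneg_left (le_abs_self _) ht0'
      _ ≤ 1 * |S - l| := mul_le_mul_of_nonneg_right ht1 hSl
      _ = _ := one_mul _
  have k4 : -|S - l| ≤ 1 / (2 - s) * (S - l) := by
    have : 1 / (2 - s) * (-(S - l)) ≤ |S - l| := by
      calc 1 / (2 - s) * (-(S - l)) ≤ 1 / (2 - s) * |S - l| := mul_le_mul_of_nonneg_left (neg_le_abs _) hs0
        _ ≤ 1 * |S - l| := mul_le_mul_of_nonneg_right hs1 hSl
        _ = _ := one_mul _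
    linarith
  rw [abs_le]
  constructor
  · nlinarith
  · nlinarith

/-- **the weighted sum** -/
lemma W_lim (α₁ α₂ : ℝ) (h0 : 0 < α₁) (h12 : α₁ ≤ α₂) (h2 : α₂ ≤ 1) (β : ℝ) (hβ : 0 < β) :
    ∃ x0 : ℕ, ∀ x : ℕ, x0 ≤ x → |∑ p ∈ Ioc (fl α₁ x) (fl α₂ x), wf x p / p - (Ph α₂ - Ph α₁)| ≤ β := by
  have hl0 : 0 ≤ Real.log (α₂ / α₁) := Real.log_nonneg (by rw [le_div_iff₀ h0]; linarith)
  obtain ⟨J, hJ⟩ := exists_nat_gt (max 1 (2 * ((α₂ - α₁) * Real.log (α₂ / α₁)) / β))
  have hJ1 : (1 : ℝ) < J := (le_max_left _ _).trans_lt hJ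
  have hJ2 : 2 * ((α₂ - α₁) * Real.log (α₂ / α₁)) / β < J := (le_max_right _ _).trans_lt hJ
  have hJ0 : (0 : ℝ) < J := by linarith
  set h := (α₂ - α₁) / J with hh
  have hh0 : 0 ≤ h := div_nonneg (by linarith) hJ0.le
  set b : ℕ → ℝ := fun i => α₁ + i * h with hb
  have hb0 : b 0 = α₁ := by simp [hb]
  have hbJ : b J = α₂ := by simp only [hb, hh]; field_simp; ring
  have hbm : ∀ i, b i ≤ b (i + 1) := by
    intro i
    simp only [hb]
    push_cast
    nlinarith
  have hbmono : Monotone b := monotone_nat_of_le_succ hbm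
  have hbpos : ∀ i, 0 < b i := fun i => lt_of_lt_of_le h0 (by rw [← hb0]; exact hbmono (Nat.zero_le i))
  have hb1 : ∀ i < J, b (i + 1) ≤ 1 := fun i hi => (hbmono (by omega : i + 1 ≤ J)).trans (by rw [hbJ]; exact h2)
  have hev : ∀ᶠ x : ℕ in atTop, ∀ i ∈ range J, |∑ p ∈ (Ioc (fl (b i) x) (fl (b (i + 1)) x)).filter Nat.Prime, 1 / (p : ℝ) -
      Real.log (b (i + 1) / b i)| ≤ β / (2 * J) := by
    rw [Filter.eventually_all_finset]
    intro i _
    have h1 := recip (b i) (b (i + 1)) (hbpos i) (hbm i)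
    have h3 := (Metric.tendsto_nhds.1 h1) (β / (2 * J)) (by positivity)
    filter_upwards [h3] with x hx
    rw [Real.dist_eq] at hx
    exact hx.le
  obtain ⟨x0, hx0⟩ := eventually_atTop.1 hev
  refine ⟨max x0 2, fun x hx => ?_⟩
  have hx1 := hx0 x ((le_max_left _ _).trans hx)
  have hx2 : 2 ≤ x := (le_max_right _ _).trans hx
  have hp := sum_pieces (fun p => wf x p / p) (fun i => fl (b i) x) (fun i => fl_mono (hbm i) (by omega)) J
  rw [hb0, hbJ] at hp
  have hPh : Ph α₂ - Ph α₁ = ∑ i ∈ range J, (Ph (b (i + 1)) - Ph (b i)) := by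
    rw [sum_range_sub (fun i => Ph (b i)), hb0, hbJ]
  rw [hp, hPh, ← sum_sub_distrib]
  refine (abs_sum_le_sum_abs _ _).trans ?_
  have h3 : ∀ i ∈ range J, |∑ p ∈ Ioc (fl (b i) x) (fl (b (i + 1)) x), wf x p / p - (Ph (b (i + 1)) - Ph (b i))| ≤
      β / (2 * J) + h * (Real.log (b (i + 1)) - Real.log (b i)) := by
    intro i hi
    have h4 := piece_bound (hbpos i) (hbm i) (hb1 i (mem_range.1 hi)) hx2
    have h5 := hx1 i hi
    have h6 : b (i + 1) - b i = h := by
      simp only [hb]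
      push_cast
      ring
    rw [h6] at h4
    rw [← Real.log_div (hbpos _).ne' (hbpos _).ne']
    linarith
  refine (sum_le_sum h3).trans ?_
  rw [sum_add_distrib, sum_const, card_range, nsmul_eq_mul, ← mul_sum, sum_range_sub (fun i => Real.log (b i)), hb0, hbJ,
    ← Real.log_div (by linarith) h0.ne']
  have h7 : (J : ℝ) * (β / (2 * J)) = β / 2 := by field_simp
  have h8 : h * Real.log (α₂ / α₁) ≤ β / 2 := by
    rw [hh, div_mul_eq_mul_div, div_le_iff₀ hJ0]
    rw [div_lt_iff₀ hβ] at hJ2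
    linarith
  linarith

lemma recip_le (α₁ α₂ : ℝ) (h1 : 1 / 2 ≤ α₁) (h12 : α₁ ≤ α₂) (h2 : α₂ ≤ 1) :
    ∃ x0 : ℕ, ∀ x : ℕ, x0 ≤ x → ∑ p ∈ (Ioc (fl α₁ x) (fl α₂ x)).filter Nat.Prime, 1 / (p : ℝ) ≤ 1 := by
  have h3 := recip α₁ α₂ (by linarith) h12
  have h4 : Real.log (α₂ / α₁) < 1 := by
    have h5 : α₂ / α₁ ≤ 2 := by
      rw [div_le_iff₀ (by linarith)]
      linarith
    have h6 : Real.log (α₂ / α₁) ≤ Real.log 2 := Real.log_le_log (div_pos (by linarith) (by linarith)) h5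
    have := Real.log_two_lt_d9
    linarith
  obtain ⟨x0, hx0⟩ := eventually_atTop.1 (h3.eventually_lt_const h4)
  exact ⟨x0, fun x hx => (hx0 x hx).le⟩

end Pool.Agent.N791.E2
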