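import Mathlib
import Pool.Agent.N792.FinC
import Pool.Agent.N791.E2.Grid
import Pool.Agent.N791.E2.WLim
import Pool.Agent.N791.E2.TypeP
import Pool.Agent.N791.E2.LsP
import Pool.Agent.N791.E2.Sing3
import Pool.Agent.N791.E2.Sing4

/-!
Values which are products of two primes for almost all `c ≤ C`: the final assembly.
-/

set_option autoImplicit false

namespace Pool.Agent.N791.E2

open Finset Filter Topology
open Pool.Agent Pool.Agent.N792 Pool.Agent.N792.Fn124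
open ArithmeticFunction (moebius vonMangoldt)

lemma num3 {L β η K R lam ε : ℝ} (hβ : 0 < β) (hη : 0 < η) (hK : 0 ≤ K) (hR : 0 < R) (hl : 0 < lam) (hε : 0 < ε)
    (h : 2 + 12 * K / β + 1 / β + 8 / η + 2 * R + 8 * R / (η * lam) + (K + 1) / ε ≤ L) :
    2 ≤ L ∧ 12 * K ≤ β * L ∧ 1 / L ^ 3 ≤ β ∧ 1 / L ^ 3 ≤ η / 8 ∧ 2 * R ≤ L ∧ 1 / L ≤ η / (8 * R) * lam ∧ K < ε * L := by
  have t1 : 0 ≤ 12 * K / β := by positivity
  have t2 : 0 < 1 / β := by positivity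
  have t3 : 0 < 8 / η := by positivity
  have t4 : 0 < 8 * R / (η * lam) := by positivity
  have t5 : 0 < (K + 1) / ε := by positivity
  have hL2 : 2 ≤ L := by linarith
  have hL0 : 0 < L := by linarith
  have hL3L : L ≤ L ^ 3 := le_self_pow₀ (by linarith) (by norm_num)
  refine ⟨hL2, ?_, ?_, ?_, by linarith, ?_, ?_⟩
  · have : 12 * K / β ≤ L := by linarith
    rw [div_le_iff₀ hβ] at this
    linarith
  · have h1 : 1 / β ≤ L := by linarith
    rw [div_le_iff₀ hβ] at h1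
    rw [div_le_iff₀ (by positivity)]
    calc 1 ≤ β * L := by linarith
      _ ≤ β * L ^ 3 := by gcongr
  · have h1 : 8 / η ≤ L := by linarith
    rw [div_le_iff₀ hη] at h1
    rw [div_le_iff₀ (by positivity)]
    calc (1 : ℝ) ≤ η / 8 * L := by linarith
      _ ≤ η / 8 * L ^ 3 := by gcongr
  · have h1 : 8 * R / (η * lam) ≤ L := by linarith
    rw [div_le_iff₀ (by positivity)] at h1
    rw [div_le_iff₀ hL0, div_mul_eq_mul_div, div_mul_eq_mul_div, le_div_iff₀ (by positivity)]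
    linarith
  · have h1 : (K + 1) / ε ≤ L := by linarith
    rw [div_le_iff₀ hε] at h1
    linarith

/-- the statement -/
def ConclE (a b : ℤ) (θ α₁ α₂ η : ℝ) : Prop :=
    ∃ x0 : ℕ, ∀ x : ℕ, x0 ≤ x → ∀ C : ℕ, (x : ℝ) ^ θ ≤ C → C ≤ x →
    ∃ Ex ⊆ Icc 1 C, (#Ex : ℝ) ≤ η * C ∧ ∀ c ∈ Icc 1 C, c ∉ Ex → Admissible a b c →
      ∃ S : ℝ, 0 < S ∧ Tendsto (fun z => partialC a b c z) atTop (𝓝 S) ∧ ∀ u v : ℕ, u ≤ v → v ≤ x →
        |(Ec a b (fl α₁ x) (fl α₂ x) c u v : ℝ) -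
          eps a b * S * gcdProd a b * (Ph α₂ - Ph α₁) * ((v : ℝ) - u) / Real.log x| ≤
        η * (eps a b * S * gcdProd a b * x / Real.log x)

theorem conclE_small (a : ℤ) (ha : 0 < a) (b : ℤ) (θ α₁ α₂ : ℝ) (hθ1 : θ ≤ 1) (h1 : 2 - 3 * θ / 2 < α₁)
    (h12 : α₁ ≤ α₂) (h2 : α₂ < 1) (η : ℝ) (hη : 0 < η) (hη1 : η ≤ 1 / 10) :
    ConclE a b θ α₁ α₂ η := by
  classical
  have hα1 : 1 / 2 < α₁ := by linarith
  have hθ2 : 2 / 3 < θ := by linarith
  obtain ⟨δ, hδ⟩ : ∃ δ : ℝ, δ = 3 * θ + 2 * α₁ - 4 := ⟨_, rfl⟩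
  have hδ0 : 0 < δ := by rw [hδ]; linarith
  obtain ⟨ε, hεd⟩ : ∃ ε : ℝ, ε = min (δ / 2) (min (1 - α₂) (1 / 100)) := ⟨_, rfl⟩
  have hε : 0 < ε := by rw [hεd]; exact lt_min (by positivity) (lt_min (by linarith) (by norm_num))
  have hε1 : ε ≤ 1 / 100 := by rw [hεd]; exact (min_le_right _ _).trans (min_le_right _ _)
  have hε2 : ε ≤ 1 - α₂ := by rw [hεd]; exact (min_le_right _ _).trans (min_le_left _ _)
  have hε3 : ε ≤ δ / 2 := by rw [hεd]; exact min_le_left _ _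
  obtain ⟨As, hT⟩ := type_prime a ha b
  obtain ⟨C6, hC6, xSA, hSA⟩ := small_E2 a ha b
  obtain ⟨E, hE⟩ : ∃ E : ℕ, E = 2 * max As 18 := ⟨_, rfl⟩
  obtain ⟨θ0, hθ0, xSP, hSP⟩ := sing_pos3 a ha b (η / 8) (by positivity) E
  obtain ⟨β, hβ⟩ : ∃ β : ℝ, β = η / 30 := ⟨_, rfl⟩
  have hβ0 : 0 < β := by rw [hβ]; positivity
  have hβ1 : β ≤ 1 / 2 := by rw [hβ]; linarith
  obtain ⟨lam, hl⟩ : ∃ lam : ℝ, lam = β * θ0 / 4 := ⟨_, rfl⟩
  have hl0 : 0 < lam := by rw [hl]; positivity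
  obtain ⟨R, hR⟩ := exists_nat_gt (max 2 (max (4 * C6 / (η * lam)) (2 / β)))
  have hR2 : (2 : ℝ) < R := (le_max_left _ _).trans_lt hR
  have hR3 : 4 * C6 / (η * lam) < R := ((le_max_left _ _).trans (le_max_right _ _)).trans_lt hR
  have hR4 : 2 / β < R := ((le_max_right _ _).trans (le_max_right _ _)).trans_lt hR
  have hRn : 2 < R := by exact_mod_cast hR2
  have hR0 : (0 : ℝ) < R := by linarith
  have hR5 : 4 * C6 ≤ R * (η * lam) := by
    rw [div_lt_iff₀ (by positivity)] at hR3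
    exact hR3.le
  obtain ⟨xT, hT⟩ := hT E R (1 / 10) ε (by norm_num) hε hε1
  obtain ⟨xLs, hLs⟩ := ls_eval a ha b R ε hε (β / 4) (by positivity)
  obtain ⟨xST, hST⟩ := sing_tail3 a ha b 3 E
  obtain ⟨xW, hW⟩ := W_lim α₁ α₂ (by linarith) h12 h2.le β hβ0
  obtain ⟨xRc, hRc⟩ := recip_le α₁ α₂ hα1.le h12 h2.le
  obtain ⟨K, hK0, xK, hK⟩ := fv_size a ha b R (by omega)
  obtain ⟨y1, hy1⟩ := evN' _ (Real.tendsto_log_atTop.eventually_ge_atTop
    (2 + 12 * K / β + 1 / β + 8 / η + 2 * R + 8 * R / (η * lam) + (K + 1) / ε))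
  obtain ⟨y2, hy2⟩ := evN' _ (ev_pow' E 1 (1 / 5) (by norm_num))
  obtain ⟨y3, hy3⟩ := evN' _ ((tendsto_rpow_atTop (by positivity : 0 < δ / 2)).eventually_ge_atTop 4)
  obtain ⟨y4, hy4⟩ := evN' _ ((tendsto_rpow_atTop (by linarith : 0 < α₁ - 1 / 2)).eventually_ge_atTop 2)
  obtain ⟨y5, hy5⟩ := evN' _ (eventually_ge_atTop (max (2 / β) (2 * R + 10)))
  obtain ⟨y6, hy6⟩ := evN' _ ((tendsto_rpow_atTop (by norm_num : (0 : ℝ) < 2 / 5)).eventually_ge_atTop 2)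
  refine ⟨xSA + xSP + xT + xLs + xST + xW + xRc + xK + y1 + y2 + y3 + y4 + y5 + y6 + R + 10, ?_⟩
  intro x hx C hC1 hC2
  have g1 := hy1 x (by omega)
  have g2 := hy2 x (by omega)
  have g3 := hy3 x (by omega)
  have g4 := hy4 x (by omega)
  have g5 := hy5 x (by omega)
  have g6 := hy6 x (by omega)
  clear hy1 hy2 hy3 hy4 hy5 hy6
  obtain ⟨L, hL⟩ : ∃ L : ℝ, L = Real.log x := ⟨_, rfl⟩
  rw [← hL] at g1 g2
  have hxr : (1 : ℝ) ≤ x := by exact_mod_cast (by omega : 1 ≤ x)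
  have hx0 : (0 : ℝ) < x := lt_of_lt_of_le one_pos hxr
  obtain ⟨hL2, hLK2, hL3, hL3η, hLR, hLlam, hKε⟩ := num3 hβ0 hη hK0 hR0 hl0 hε g1
  have hL0 : 0 < L := lt_of_lt_of_le two_pos hL2
  -- the size of C
  have hC23 : (x : ℝ) ^ (2 / 3 : ℝ) ≤ C := by
    refine le_trans ?_ hC1
    exact Real.rpow_le_rpow_of_exponent_le hxr hθ2.le
  have hC0 : (0 : ℝ) < C := lt_of_lt_of_le (Real.rpow_pos_of_pos hx0 _) hC23
  -- the range of the primes
  obtain ⟨U, hU⟩ : ∃ U : ℕ, U = fl α₁ x := ⟨_, rfl⟩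
  obtain ⟨y, hy⟩ : ∃ y : ℕ, y = fl α₂ x := ⟨_, rfl⟩
  have hUy : U ≤ y := by rw [hU, hy]; exact fl_mono h12 (by omega)
  have hU1 : (x : ℝ) ^ α₁ / 2 ≤ U := by
    have h3 := Nat.sub_one_lt_floor ((x : ℝ) ^ α₁)
    have h4 : (2 : ℝ) ≤ (x : ℝ) ^ α₁ := g4.trans (Real.rpow_le_rpow_of_exponent_le hxr (by linarith))
    rw [hU]
    unfold fl
    linarith
  have hU2 : (x : ℝ) ^ (1 / 2 : ℝ) ≤ U := by
    refine le_trans ?_ hU1
    rw [le_div_iff₀ (by norm_num)]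
    calc (x : ℝ) ^ (1 / 2 : ℝ) * 2 ≤ (x : ℝ) ^ (1 / 2 : ℝ) * (x : ℝ) ^ (α₁ - 1 / 2) :=
          mul_le_mul_of_nonneg_left g4 (by positivity)
      _ = (x : ℝ) ^ α₁ := by rw [← Real.rpow_add hx0]; congr 1; ring
  have hyr : (y : ℝ) ≤ (x : ℝ) ^ (1 - ε) := by
    have h3 : (y : ℝ) ≤ (x : ℝ) ^ α₂ := by
      rw [hy]
      exact Nat.floor_le (by positivity)
    exact h3.trans (Real.rpow_le_rpow_of_exponent_le hxr (by linarith))
  have hyx : y ≤ x := by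
    have : (y : ℝ) ≤ x := by
      refine hyr.trans ?_
      calc (x : ℝ) ^ (1 - ε) ≤ (x : ℝ) ^ (1 : ℝ) := Real.rpow_le_rpow_of_exponent_le hxr (by linarith)
        _ = x := Real.rpow_one _
    exact_mod_cast this
  have hCU : (x : ℝ) ^ (4 + ε) ≤ (C : ℝ) ^ 3 * (U : ℝ) ^ 2 := by
    have h3 : (x : ℝ) ^ (3 * θ) ≤ (C : ℝ) ^ 3 := by
      calc (x : ℝ) ^ (3 * θ) = ((x : ℝ) ^ θ) ^ 3 := by
            rw [← Real.rpow_natCast ((x : ℝ) ^ θ) 3, ← Real.rpow_mul hx0.le]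
            congr 1
            push_cast
            ring
        _ ≤ _ := pow_le_pow_left₀ (by positivity) hC1 3
    have h4 : (x : ℝ) ^ (2 * α₁) / 4 ≤ (U : ℝ) ^ 2 := by
      calc (x : ℝ) ^ (2 * α₁) / 4 = ((x : ℝ) ^ α₁ / 2) ^ 2 := by
            rw [div_pow, ← Real.rpow_natCast ((x : ℝ) ^ α₁) 2, ← Real.rpow_mul hx0.le]
            norm_num
            congr 1
            ring
        _ ≤ _ := pow_le_pow_left₀ (by positivity) hU1 2
    calc (x : ℝ) ^ (4 + ε) ≤ (x : ℝ) ^ (4 + δ / 2) := Real.rpow_le_rpow_of_exponent_le hxr (by linarith)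
      _ = (x : ℝ) ^ (4 + δ / 2) * 4 / 4 := by ring
      _ ≤ (x : ℝ) ^ (4 + δ / 2) * (x : ℝ) ^ (δ / 2) / 4 := by gcongr
      _ = (x : ℝ) ^ (3 * θ) * ((x : ℝ) ^ (2 * α₁) / 4) := by
          rw [← Real.rpow_add hx0, ← mul_div_assoc, ← Real.rpow_add hx0, hδ]
          congr 2
          ring
      _ ≤ (C : ℝ) ^ 3 * (U : ℝ) ^ 2 := mul_le_mul h3 h4 (by positivity) (by positivity)
  -- the levels
  obtain ⟨z, hz⟩ : ∃ z : ℕ, z = ⌈(x : ℝ) ^ (1 / 10 : ℝ)⌉₊ := ⟨_, rfl⟩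
  have hz1 : (x : ℝ) ^ (1 / 10 : ℝ) ≤ z := by rw [hz]; exact Nat.le_ceil _
  have hzU : z ≤ U := by
    have h3 : (z : ℝ) ≤ U := by
      have h4 := Nat.ceil_lt_add_one (a := (x : ℝ) ^ (1 / 10 : ℝ)) (by positivity)
      rw [← hz] at h4
      have h5 : 1 ≤ (x : ℝ) ^ (1 / 10 : ℝ) := Real.one_le_rpow (by linarith) (by norm_num)
      have h6 : (x : ℝ) ^ (1 / 10 : ℝ) * 2 ≤ (x : ℝ) ^ (1 / 2 : ℝ) := by
        calc (x : ℝ) ^ (1 / 10 : ℝ) * 2 ≤ (x : ℝ) ^ (1 / 10 : ℝ) * (x : ℝ) ^ (2 / 5 : ℝ) :=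
              mul_le_mul_of_nonneg_left g6 (by positivity)
          _ = _ := by rw [← Real.rpow_add hx0]; norm_num
      linarith
    exact_mod_cast h3
  have hLE : (2 : ℝ) ≤ L ^ E := by
    calc (2 : ℝ) ≤ L := hL2
      _ = L ^ 1 := (pow_one L).symm
      _ ≤ L ^ E := pow_le_pow_right₀ (by linarith) (by omega)
  obtain ⟨Jw, hw1, hw2⟩ := Fn124.exists_level _ hLE
  obtain ⟨w, hw⟩ : ∃ w : ℕ, w = 2 ^ 2 ^ Jw := ⟨_, rfl⟩
  rw [← hw] at hw1 hw2
  have hwlow : L ^ (max As 18) ≤ w := by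
    have h3 : (L ^ (max As 18)) ^ 2 ≤ (w : ℝ) ^ 2 := by
      refine le_trans (le_of_eq ?_) hw2
      rw [← pow_mul, hE, mul_comm]
    exact (pow_le_pow_iff_left₀ (by positivity) (Nat.cast_nonneg _) two_ne_zero).1 h3
  have hwAs : L ^ As ≤ w := (pow_le_pow_right₀ (by linarith) (le_max_left _ _)).trans hwlow
  have hw18 : L ^ (3 * 3 + 9) ≤ w := (pow_le_pow_right₀ (by linarith) (le_max_right _ _)).trans hwlow
  have hw5 : (w : ℝ) ≤ (x : ℝ) ^ (1 / 5 : ℝ) := by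
    refine hw1.trans ?_
    rw [one_mul] at g2
    exact g2
  rw [hL] at hw1 hw18 hwAs
  obtain ⟨E1, hE1s, hE1c, hE1⟩ := hST x (by omega) C hC23 hC2 w w hw18 hw1 le_rfl hw5
  obtain ⟨E2, hE2s, hE2c, hE2⟩ := hSP x (by omega) C hC23 hC2 w hw1
  have hgrid : ∀ i : ℕ, 1 ≤ i → i < R → xg x R i < x ∧ x ≤ R * xg x R i := by
    intro i hi1 hi2
    refine ⟨xg_lt x R i (by omega) (by omega) hi2, ?_⟩
    refine le_trans ?_ (le_xg x R i (by omega))
    calc x = 1 * x := (one_mul x).symm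
      _ ≤ i * x := Nat.mul_le_mul_right _ hi1
  obtain ⟨G, hG⟩ : ∃ G : ℕ → ℝ, G = (fun N => rg z N * ∑ j ∈ N.divisors.filter (fun j => U < j ∧ j ≤ y), wf x j * pl (N / j)) := ⟨_, rfl⟩
  have hwfabs : ∀ j, |wf x j| ≤ 1 := by
    intro j
    obtain ⟨h3, h4⟩ := wf_bd x j (by omega)
    rw [abs_of_nonneg h3]
    exact h4
  have hwfp : ∀ j, wf x j ≠ 0 → j.Prime := fun j hj => wf_prime x j hj
  obtain ⟨e, he⟩ : ∃ e : ℕ → ℕ → ℝ, e = fun i c => |Lc a b (xg x R i) x c G - Vc a b c w / V1 w * Ls a b (xg x R i) x G| := ⟨_, rfl⟩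
  have he1 : ∀ i, 1 ≤ i → i < R → ∑ c ∈ Icc 1 C, e i c ≤ C * x / L := by
    intro i hi1 hi2
    obtain ⟨k1, k2⟩ := hgrid i hi1 hi2
    have h3 := hT x (by omega) (xg x R i) C z U y Jw k1 k2 hC23 hC2 hCU hz1 hzU hUy hyr (by rw [← hw]; exact hwAs)
      (by rw [← hw]; exact hw1) (wf x) hwfabs hwfp
    rw [← hG, ← hw, ← hL] at h3
    rw [he]
    exact h3
  have hlx : 0 < lam * x := mul_pos hl0 hx0
  have hE3c := card_bad R (by omega) (Icc 1 C) e (lam * x) (C * x / L) η C hlx hη hC0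
    (fun i h1 h2 c _ => by rw [he]; exact abs_nonneg _) he1 (by
      calc (C : ℝ) * x / L = (C * x) * (1 / L) := by ring
        _ ≤ (C * x) * (η / (8 * R) * lam) := by gcongr
        _ = _ := by ring)
  obtain ⟨E3, hE3⟩ : ∃ E3 : Finset ℕ, E3 = (Ico 1 R).biUnion
    (fun i => (Icc 1 C).filter (fun c => lam * x < e i c)) := ⟨_, rfl⟩
  obtain ⟨E5, hE5⟩ : ∃ E5 : Finset ℕ, E5 = (Icc 1 C).filter (fun c : ℕ => 4 * lam * x / L <
    (Ec a b U y c 0 (xg x R 1) : ℝ)) := ⟨_, rfl⟩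
  rw [← hE3] at hE3c
  have h2R : 2 * (R : ℝ) ≤ x := by
    have := (le_max_right _ _).trans g5
    linarith
  have hE5c : (#E5 : ℝ) ≤ η / 8 * C := by
    rw [hE5]
    have k1 := hSA x (by omega) (xg x R 1) C U y (hgrid 1 le_rfl (by omega)).1.le hC23 hU2 hyx
    rw [← hL] at k1
    refine (markov (Icc 1 C) (fun c : ℕ => (Ec a b U y c 0 (xg x R 1) : ℝ)) (fun c _ => Nat.cast_nonneg _) (4 * lam * x / L)
      (by positivity) _ k1).trans ?_
    rw [div_le_iff₀ (by positivity)]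
    exact ex5_num hC6 hC0 hx0 hR0 hL0 hl0 hη (xg1_le (by omega)) h2R hLR hL2 hR5
  have hE1c' : (#E1 : ℝ) ≤ η / 8 * C := by
    refine hE1c.trans ?_
    rw [← hL]
    calc (C : ℝ) / L ^ 3 = 1 / L ^ 3 * C := by ring
      _ ≤ η / 8 * C := mul_le_mul_of_nonneg_right hL3η hC0.le
  refine ⟨E1 ∪ E2 ∪ E3 ∪ E5, ?_, ?_, ?_⟩
  · refine union_subset (union_subset (union_subset hE1s hE2s) ?_) ?_
    · rw [hE3]
      exact biUnion_subset.2 fun i _ => filter_subset _ _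
    · rw [hE5]
      exact filter_subset _ _
  · have k2 := card_union_le (E1 ∪ E2 ∪ E3) E5
    have k3 := card_union_le (E1 ∪ E2) E3
    have k4 := card_union_le E1 E2
    have k5 : (#(E1 ∪ E2 ∪ E3 ∪ E5) : ℝ) ≤ #E1 + #E2 + #E3 + #E5 := by
      exact_mod_cast (by omega)
    have k6 : 0 < η / 8 * C := by positivity
    linarith
  intro c hc hcE hadm
  simp only [mem_union, not_or] at hcE
  obtain ⟨⟨⟨c1, c2⟩, c3⟩, c5⟩ := hcE
  obtain ⟨-, hsing⟩ := hE1 c hc c1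
  obtain ⟨S, hS0, hSt, hSS⟩ := hsing hadm
  refine ⟨S, hS0, hSt, ?_⟩
  have hSc := hE2 c hc c2 hadm
  have hcC := mem_Icc.1 hc
  rw [← hL] at hSS ⊢
  rw [← hU, ← hy]
  obtain ⟨Sc, hScd⟩ : ∃ Sc : ℝ, Sc = Vc a b c w / V1 w := ⟨_, rfl⟩
  rw [← hScd] at hSc hSS
  have hSc0 : 0 < Sc := by linarith
  obtain ⟨W, hWd⟩ : ∃ W : ℝ, W = ∑ p ∈ Ioc U y, wf x p / p := ⟨_, rfl⟩
  have hW0 : 0 ≤ W := by
    rw [hWd]
    exact sum_nonneg fun p _ => div_nonneg (wf_bd x p (by omega)).1 (Nat.cast_nonneg _)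
  have hRcx := hRc x (by omega)
  rw [← hU, ← hy] at hRcx
  have hW1 : W ≤ 1 := by
    refine le_trans ?_ hRcx
    rw [hWd, sum_filter]
    apply sum_le_sum
    intro p _
    split_ifs with hp
    · exact div_le_div_of_nonneg_right (wf_bd x p (by omega)).2 (Nat.cast_nonneg _)
    · have : wf x p = 0 := by
        unfold wf
        rw [if_neg (fun h => hp h.1)]
      rw [this, zero_div]
  have hWκ := hW x (by omega)
  rw [← hU, ← hy, ← hWd] at hWκ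
  -- the intervals of the grid
  have hsteps : ∀ i, 1 ≤ i → i < R → |(Ec a b U y c (xg x R i) x : ℝ) - Sc * W / L * ((x : ℝ) - xg x R i)| ≤
      β * (Sc * x / L) := by
    intro i hi1 hi2
    obtain ⟨k1, k2⟩ := hgrid i hi1 hi2
    have hcmp := Lc_cmp (a := a) (b := b) (x1 := xg x R i) (x := x) (c := c) (z := z) (U := U) (y := y) (K := K) (by omega) hzU hyx (by
      intro n hn
      rw [mem_Ioc] at hn
      obtain ⟨h3, h4⟩ := hK x (by omega) c n (hcC.2.trans hC2) hn.2 (k2.trans (Nat.mul_le_mul_left _ hn.1.le))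
      refine ⟨h3, ?_⟩
      by_contra hcon
      push Not at hcon
      have h5 : (0 : ℝ) < ((fv a b c n).toNat : ℝ) := by exact_mod_cast (by omega : 0 < (fv a b c n).toNat)
      have h6 : ((fv a b c n).toNat : ℝ) ≤ x * y := by exact_mod_cast hcon
      have h7 : Real.log ((fv a b c n).toNat : ℝ) ≤ Real.log (x * y) := Real.log_le_log h5 h6
      have hy0 : (0 : ℝ) < y := by
        rcases Nat.eq_zero_or_pos y with h8 | h8
        · rw [h8] at hcon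
          omega
        · exact_mod_cast h8
      have h8 : Real.log (x * y) ≤ (2 - ε) * L := by
        rw [Real.log_mul hx0.ne' hy0.ne']
        have h9 : Real.log y ≤ (1 - ε) * L := by
          rw [hL, ← Real.log_rpow hx0]
          exact Real.log_le_log hy0 hyr
        rw [← hL]
        linarith
      have h9 := (abs_le.1 h3).1
      rw [← hL] at h9
      linarith)
    rw [← hG, ← hL] at hcmp
    have h3 : |Lc a b (xg x R i) x c G - Sc * Ls a b (xg x R i) x G| ≤ lam * x := by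
      by_contra hcon
      push Not at hcon
      apply c3
      rw [hE3, mem_biUnion]
      refine ⟨i, mem_Ico.2 ⟨hi1, hi2⟩, mem_filter.2 ⟨hc, ?_⟩⟩
      rw [he]
      simp only
      rw [← hScd]
      exact hcon
    have h4 := hLs x (by omega) (xg x R i) z U y (wf x) k1 k2 (hzU.trans (hUy.trans hyx)) hzU hyr hwfabs hwfp
    rw [← hG, ← hWd] at h4
    have h5 : |Ls a b (xg x R i) x G - ((x : ℝ) - xg x R i) * W| ≤ β / 4 * x := by
      refine h4.trans ?_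
      exact mul_le_of_le_one_right (by positivity) hRcx
    have hD0 : 0 ≤ (x : ℝ) - xg x R i := by
      have : ((xg x R i : ℕ) : ℝ) ≤ x := by exact_mod_cast k1.le
      linarith
    have hD : (x : ℝ) - xg x R i ≤ x := by
      have : (0 : ℝ) ≤ xg x R i := Nat.cast_nonneg _
      linarith
    refine step_real hL0 hK0 (Nat.cast_nonneg _) hx0 hSc0 hD0 hD hβ0 (by linarith) hW0 hW1 hcmp h3 h5 ?_ le_rfl hLK2
    rw [hl]
    gcongr
  have hsmall : (Ec a b U y c 0 (xg x R 1) : ℝ) ≤ β * (Sc * x / L) := by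
    have h3 : (Ec a b U y c 0 (xg x R 1) : ℝ) ≤ 4 * lam * x / L := by
      by_contra hcon
      push Not at hcon
      apply c5
      rw [hE5]
      exact mem_filter.2 ⟨hc, hcon⟩
    refine h3.trans ?_
    rw [hl]
    calc 4 * (β * θ0 / 4) * x / L ≤ 4 * (β * Sc / 4) * x / L := by gcongr
      _ = _ := by ring
  have hgx : Sc * W / L * ((x : ℝ) / R + 1) ≤ β * (Sc * x / L) := by
    have h3 : (x : ℝ) / R + 1 ≤ β * x := by
      have h4 : (x : ℝ) / R ≤ β / 2 * x := by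
        rw [div_le_iff₀ hR0]
        rw [div_lt_iff₀ hβ0] at hR4
        nlinarith
      have h5 : 1 ≤ β / 2 * x := by
        have := (le_max_left _ _).trans g5
        rw [div_le_iff₀ hβ0] at this
        linarith
      linarith
    calc Sc * W / L * ((x : ℝ) / R + 1) ≤ Sc * 1 / L * (β * x) := by
          apply mul_le_mul _ h3 (by positivity) (by positivity)
          gcongr
      _ = _ := by ring
  have hall : ∀ v : ℕ, v ≤ x → |(Ec a b U y c 0 v : ℝ) - Sc * W / L * v| ≤ 5 * (β * (Sc * x / L)) := by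
    intro v hv
    exact grid_gen (P := fun u v => (Ec a b U y c u v : ℝ)) (fun u v => Nat.cast_nonneg _)
      (fun u v w h3 h4 => by
        have := Ec_add a b U y c u v w h3 h4
        exact_mod_cast this)
      (by omega) (by omega) (by positivity) (by positivity) hgx hsteps hsmall v hv
  intro u v huv hvx
  have hadd := Ec_add a b U y c 0 u v (Nat.zero_le _) huv
  have hadd' : (Ec a b U y c 0 v : ℝ) = Ec a b U y c 0 u + Ec a b U y c u v := by exact_mod_cast hadd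
  have k1 := hall u (huv.trans hvx)
  have k2 := hall v hvx
  have hP : |(Ec a b U y c u v : ℝ) - Sc * W / L * ((v : ℝ) - u)| ≤ 10 * (β * (Sc * x / L)) := by
    rw [mul_sub]
    rw [abs_le] at k1 k2 ⊢
    constructor <;> linarith [k1.1, k1.2, k2.1, k2.2]
  have hvr : (v : ℝ) ≤ x := by exact_mod_cast hvx
  have huvr : (u : ℝ) ≤ v := by exact_mod_cast huv
  have hur : (0 : ℝ) ≤ u := Nat.cast_nonneg _
  refine last_real hL0 hx0 hSc0 (by linarith) (by linarith) hβ0 hβ1 (by rw [hβ]; linarith) hW0 hW1 hP ?_ hWκ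
  refine hSS.trans ?_
  calc Sc / L ^ 3 = Sc * (1 / L ^ 3) := by ring
    _ ≤ Sc * β := by gcongr

theorem conclE_all (a : ℤ) (ha : 0 < a) (b : ℤ) (θ α₁ α₂ : ℝ) (hθ1 : θ ≤ 1) (h1 : 2 - 3 * θ / 2 < α₁)
    (h12 : α₁ ≤ α₂) (h2 : α₂ < 1) (η : ℝ) (hη : 0 < η) : ConclE a b θ α₁ α₂ η := by
  have h0 : 0 < min η (1 / 10) := lt_min hη (by norm_num)
  obtain ⟨x0, h⟩ := conclE_small a ha b θ α₁ α₂ hθ1 h1 h12 h2 (min η (1 / 10)) h0 (min_le_right _ _)
  refine ⟨x0, fun x hx C hC1 hC2 => ?_⟩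
  obtain ⟨Ex, h1, h2, h3⟩ := h x hx C hC1 hC2
  refine ⟨Ex, h1, h2.trans (mul_le_mul_of_nonneg_right (min_le_left _ _) (Nat.cast_nonneg _)), ?_⟩
  intro c hc hcE hadm
  obtain ⟨S, hS, hSt, hb⟩ := h3 c hc hcE hadm
  refine ⟨S, hS, hSt, fun u v huv hvx => ?_⟩
  have h4 := hb u v huv hvx
  refine h4.trans ?_
  have h5 : 0 ≤ eps a b * S * gcdProd a b * x / Real.log x := by
    by_contra hcon
    push Not at hcon
    have h6 : min η (1 / 10) * (eps a b * S * gcdProd a b * x / Real.log x) < 0 :=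
      mul_neg_of_pos_of_neg h0 hcon
    have := abs_nonneg ((Ec a b (fl α₁ x) (fl α₂ x) c u v : ℝ) -
          eps a b * S * gcdProd a b * (Ph α₂ - Ph α₁) * ((v : ℝ) - u) / Real.log x)
    linarith
  exact mul_le_mul_of_nonneg_right (min_le_left _ _) h5

end Pool.Agent.N791.E2
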